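import Mathlib

set_option autoImplicit false

/-!
Frames for the Thompson - Smith lattice (MP_660bdc_al), helper90.

`ip B x y` is the value of the integral form with Gram matrix `B`;
`nm ρ g` is the norm element `1 + g + ... + g ^ (orderOf g - 1)` as a matrix.
-/

namespace Pool.Agent.H90.TS

open Matrix

/-- The bilinear form with Gram matrix `B`. -/
def ip {n : ℕ} (B : Matrix (Fin n) (Fin n) ℤ) (x y : Fin n → ℤ) : ℤ := x ⬝ᵥ B *ᵥ y

/-- The norm element `1 + g + ... + g ^ (p - 1)`. -/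
def nm {n : ℕ} {G : Type} [Group G] (ρ : G →* Matrix (Fin n) (Fin n) ℤ) (g : G) (p : ℕ) :
    Matrix (Fin n) (Fin n) ℤ := ∑ k ∈ Finset.range p, ρ (g ^ k)

section
variable {n : ℕ} (B : Matrix (Fin n) (Fin n) ℤ)

theorem ip_add_left (x y z : Fin n → ℤ) : ip B (x + y) z = ip B x z + ip B y z := by
  simp [ip, add_dotProduct]

theorem ip_add_right (x y z : Fin n → ℤ) : ip B x (y + z) = ip B x y + ip B x z := by
  simp [ip, mulVec_add, dotProduct_add]

theorem ip_smul_left (c : ℤ) (x y : Fin n → ℤ) : ip B (c • x) y = c * ip B x y := by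
  unfold ip
  rw [smul_dotProduct, smul_eq_mul]

theorem ip_smul_right (c : ℤ) (x y : Fin n → ℤ) : ip B x (c • y) = c * ip B x y := by
  unfold ip
  rw [mulVec_smul, dotProduct_smul, smul_eq_mul]

theorem ip_sub_left (x y z : Fin n → ℤ) : ip B (x - y) z = ip B x z - ip B y z := by
  simp [ip, sub_dotProduct]

theorem ip_sub_right (x y z : Fin n → ℤ) : ip B x (y - z) = ip B x y - ip B x z := by
  simp [ip, mulVec_sub, dotProduct_sub]

theorem ip_zero_left (x : Fin n → ℤ) : ip B 0 x = 0 := by simp [ip]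

theorem ip_zero_right (x : Fin n → ℤ) : ip B x 0 = 0 := by simp [ip]

theorem ip_sum_left {ι : Type} (s : Finset ι) (f : ι → Fin n → ℤ) (y : Fin n → ℤ) :
    ip B (∑ i ∈ s, f i) y = ∑ i ∈ s, ip B (f i) y := by
  simp [ip, sum_dotProduct]

theorem ip_sum_right {ι : Type} (s : Finset ι) (f : ι → Fin n → ℤ) (y : Fin n → ℤ) :
    ip B y (∑ i ∈ s, f i) = ∑ i ∈ s, ip B y (f i) := by
  classical
  induction s using Finset.induction_on with
  | empty => simp [ip]
  | insert a s ha ih => rw [Finset.sum_insert ha, Finset.sum_insert ha, ip_add_right, ih]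

theorem ip_comm (hs : Bᵀ = B) (x y : Fin n → ℤ) : ip B x y = ip B y x := by
  unfold ip
  rw [dotProduct_mulVec, dotProduct_comm, ← mulVec_transpose, hs]

end

section
variable {n : ℕ} {B : Matrix (Fin n) (Fin n) ℤ} {G : Type} [Group G]
  {ρ : G →* Matrix (Fin n) (Fin n) ℤ}

theorem ip_inv (hiso : ∀ g, (ρ g)ᵀ * B * ρ g = B) (g : G) (x y : Fin n → ℤ) :
    ip B (ρ g *ᵥ x) (ρ g *ᵥ y) = ip B x y := by
  unfold ip
  conv_rhs => rw [← hiso g]
  rw [← mulVec_mulVec, ← mulVec_mulVec, dotProduct_mulVec x (ρ g)ᵀ, vecMul_transpose]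

end

end Pool.Agent.H90.TS
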