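import Mathlib
import Pool.Agent.H90.TS.Def

set_option autoImplicit false

/-!
A maximal orthogonal family of norms `N z` (`N = 1 + g + ... + g ^ (p - 1)`), and its size
through the trace of `N` (helper90, MP_660bdc_al).

`exists_family`: take an orthogonal family of nonzero vectors of the form `N z` of maximal size
(orthogonal nonzero vectors are linearly independent, so the size is at most `n`).  If `g y = y`
and `y` is orthogonal to the family then `p • y = N y` is too, so `p • y = 0` by maximality.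

`family_card`: for every `z`, `N z` is fixed and `(N z, v i) = p (z, v i)`, so over the rationals
`N z = ∑ i, p (z, v i) / (v i, v i) • v i`; take traces.
-/

namespace Pool.Agent.H90.TS

open Matrix

variable {n : ℕ} {B : Matrix (Fin n) (Fin n) ℤ} {G : Type} [Group G]
  {ρ : G →* Matrix (Fin n) (Fin n) ℤ}

private theorem sum_shift {α : Type} [AddCommGroup α] (f : ℕ → α) (p : ℕ) (h : f p = f 0) :
    ∑ k ∈ Finset.range p, f (k + 1) = ∑ k ∈ Finset.range p, f k := by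
  have h1 := Finset.sum_range_succ f p
  have h2 := Finset.sum_range_succ' f p
  rw [h1, h] at h2
  exact (add_right_cancel h2).symm

private theorem nm_mulVec (g : G) (p : ℕ) (z : Fin n → ℤ) :
    nm ρ g p *ᵥ z = ∑ k ∈ Finset.range p, ρ (g ^ k) *ᵥ z := by
  unfold nm
  rw [sum_mulVec]

theorem nm_fixed {p : ℕ} {g : G} (hg : orderOf g = p) (z : Fin n → ℤ) :
    ρ g *ᵥ (nm ρ g p *ᵥ z) = nm ρ g p *ᵥ z := by
  rw [nm_mulVec, mulVec_sum]
  have h1 : ∀ k ∈ Finset.range p, ρ g *ᵥ (ρ (g ^ k) *ᵥ z) = ρ (g ^ (k + 1)) *ᵥ z := by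
    intro k _
    rw [mulVec_mulVec, ← map_mul, ← pow_succ']
  rw [Finset.sum_congr rfl h1]
  refine sum_shift (fun k => ρ (g ^ k) *ᵥ z) p ?_
  show ρ (g ^ p) *ᵥ z = ρ (g ^ 0) *ᵥ z
  rw [← hg, pow_orderOf_eq_one, pow_zero]

theorem nm_of_fixed {p : ℕ} {g : G} {y : Fin n → ℤ} (hy : ρ g *ᵥ y = y) :
    nm ρ g p *ᵥ y = (p : ℤ) • y := by
  have h1 : ∀ k : ℕ, ρ (g ^ k) *ᵥ y = y := by
    intro k
    induction k with
    | zero => rw [pow_zero, map_one, one_mulVec]
    | succ k ih => rw [pow_succ, map_mul, ← mulVec_mulVec, hy, ih]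
  rw [nm_mulVec, Finset.sum_congr rfl (fun k _ => h1 k), Finset.sum_const, Finset.card_range,
    natCast_zsmul]

/-- the norm element is self adjoint. -/
theorem ip_nm (hiso : ∀ g, (ρ g)ᵀ * B * ρ g = B) {p : ℕ} {g : G} (hg : orderOf g = p)
    (x y : Fin n → ℤ) : ip B (nm ρ g p *ᵥ x) y = ip B x (nm ρ g p *ᵥ y) := by
  rw [nm_mulVec, nm_mulVec, ip_sum_left, ip_sum_right]
  set f : ℕ → ℤ := fun k => ip B x (ρ (g ^ k) *ᵥ y) with hf
  have h1 : ∀ k ∈ Finset.range p, ip B (ρ (g ^ k) *ᵥ x) y = f (p - 1 - k + 1) := by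
    intro k hk
    rw [Finset.mem_range] at hk
    have h2 : g ^ k * g ^ (p - 1 - k + 1) = 1 := by
      rw [← pow_add, show k + (p - 1 - k + 1) = p by omega, ← hg, pow_orderOf_eq_one]
    have h3 : ρ (g ^ k) *ᵥ (ρ (g ^ (p - 1 - k + 1)) *ᵥ y) = y := by
      rw [mulVec_mulVec, ← map_mul, h2, map_one, one_mulVec]
    calc ip B (ρ (g ^ k) *ᵥ x) y
        = ip B (ρ (g ^ k) *ᵥ x) (ρ (g ^ k) *ᵥ (ρ (g ^ (p - 1 - k + 1)) *ᵥ y)) := by rw [h3]
      _ = f (p - 1 - k + 1) := ip_inv hiso (g ^ k) _ _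
  rw [Finset.sum_congr rfl h1, Finset.sum_range_reflect (fun k => f (k + 1)) p]
  refine sum_shift f p ?_
  show ip B x (ρ (g ^ p) *ᵥ y) = ip B x (ρ (g ^ 0) *ᵥ y)
  rw [← hg, pow_orderOf_eq_one, pow_zero]

end Pool.Agent.H90.TS
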