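import Mathlib
import Pool.Agent.H90.TS.Fam1

set_option autoImplicit false

/-!
Duality of the fixed lattice and the trace lattice (helper90, MP_660bdc_al).
-/

namespace Pool.Agent.H90.TS

open Matrix

variable {n : ℕ} {B : Matrix (Fin n) (Fin n) ℤ} {G : Type} [Group G]
  {ρ : G →* Matrix (Fin n) (Fin n) ℤ}

theorem nondeg (hpos : ∀ x : Fin n → ℤ, x ≠ 0 → 0 < ip B x x) {u : Fin n → ℤ}
    (hu : ∀ z, ip B u z = 0) : u = 0 := by
  by_contra h
  exact absurd (hu u) (hpos u h).ne'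

/-- The fixed vectors. -/
def FF (ρ : G →* Matrix (Fin n) (Fin n) ℤ) (g : G) : AddSubgroup (Fin n → ℤ) where
  carrier := {y | ρ g *ᵥ y = y}
  zero_mem' := by simp
  add_mem' := by
    intro a b ha hb
    simp only [Set.mem_setOf_eq] at ha hb ⊢
    rw [mulVec_add, ha, hb]
  neg_mem' := by
    intro a ha
    simp only [Set.mem_setOf_eq] at ha ⊢
    rw [mulVec_neg, ha]

/-- The norms. -/
def TT (ρ : G →* Matrix (Fin n) (Fin n) ℤ) (g : G) (p : ℕ) : AddSubgroup (Fin n → ℤ) where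
  carrier := {y | ∃ z, y = nm ρ g p *ᵥ z}
  zero_mem' := ⟨0, by simp⟩
  add_mem' := by
    rintro a b ⟨z, rfl⟩ ⟨w, rfl⟩
    exact ⟨z + w, by rw [mulVec_add]⟩
  neg_mem' := by
    rintro a ⟨z, rfl⟩
    exact ⟨-z, by rw [mulVec_neg]⟩

theorem mem_FF {g : G} {y : Fin n → ℤ} : y ∈ FF ρ g ↔ ρ g *ᵥ y = y := Iff.rfl

theorem mem_TT {g : G} {p : ℕ} {y : Fin n → ℤ} : y ∈ TT ρ g p ↔ ∃ z, y = nm ρ g p *ᵥ z := Iff.rfl

theorem nm_comp_inv {p : ℕ} {g : G} (hg : orderOf g = p) (z : Fin n → ℤ) :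
    nm ρ g p *ᵥ (ρ g⁻¹ *ᵥ z) = nm ρ g p *ᵥ z := by
  have h1 : ∀ w : Fin n → ℤ, nm ρ g p *ᵥ (ρ g *ᵥ w) = nm ρ g p *ᵥ w := by
    intro w
    have h2 : nm ρ g p * ρ g = ρ g * nm ρ g p := by
      unfold nm
      rw [Finset.sum_mul, Finset.mul_sum]
      refine Finset.sum_congr rfl fun k _ => ?_
      rw [← map_mul, ← map_mul, ← pow_succ, ← pow_succ']
    rw [mulVec_mulVec, h2, ← mulVec_mulVec, nm_fixed hg]
  have h3 := h1 (ρ g⁻¹ *ᵥ z)
  rw [mulVec_mulVec (ρ g⁻¹ *ᵥ z |> fun _ => z) (ρ g) (ρ g⁻¹)] at h3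
  rw [← map_mul, mul_inv_cancel, map_one, one_mulVec] at h3
  exact h3.symm

theorem dual_mem (hs : Bᵀ = B) (hpos : ∀ x : Fin n → ℤ, x ≠ 0 → 0 < ip B x x)
    (hdet : B.det = 1) (hiso : ∀ g, (ρ g)ᵀ * B * ρ g = B)
    {p : ℕ} {g : G} (hg : orderOf g = p) {r : ℕ} (v : Fin r → Fin n → ℤ)
    (hv : ∀ i, v i ∈ FF ρ g) (hv0 : ∀ i, v i ≠ 0) (hvo : ∀ i j, i ≠ j → ip B (v i) (v j) = 0)
    (l : Fin r → ℤ) (hl : ∀ t ∈ TT ρ g p, ∃ N : ℤ,
      (∑ i, (l i : ℚ) * (ip B t (v i) : ℚ) / (ip B (v i) (v i) : ℚ)) = N) :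
    ∃ y ∈ FF ρ g, ∀ i, ip B y (v i) = p * l i := by
  classical
  set q : (Fin n → ℤ) → ℚ := fun z =>
    ∑ i, (l i : ℚ) * (ip B (nm ρ g p *ᵥ z) (v i) : ℚ) / (ip B (v i) (v i) : ℚ) with hq
  have hqadd : ∀ z w, q (z + w) = q z + q w := by
    intro z w
    simp only [hq]
    rw [← Finset.sum_add_distrib]
    refine Finset.sum_congr rfl fun i _ => ?_
    rw [mulVec_add, ip_add_left]; push_cast; ring
  have hqsmul : ∀ (c : ℤ) z, q (c • z) = c * q z := by
    intro c z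
    simp only [hq]
    rw [Finset.mul_sum]
    refine Finset.sum_congr rfl fun i _ => ?_
    rw [mulVec_smul, ip_smul_left]; push_cast; ring
  have hL : ∀ j : Fin n, ∃ N : ℤ, q (Pi.single j 1) = N := fun j => hl _ ⟨_, rfl⟩
  choose L hL using hL
  set y : Fin n → ℤ := B.adjugate *ᵥ L with hy
  have hBy : B *ᵥ y = L := by
    rw [hy, mulVec_mulVec, mul_adjugate, hdet, one_smul, one_mulVec]
  have hyz : ∀ z, (ip B y z : ℚ) = q z := by
    intro z
    rw [ip_comm B hs y z]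
    have h1 : ip B z y = ∑ j, z j * L j := by
      unfold ip; rw [hBy]; rfl
    have h2 : z = ∑ j, z j • (Pi.single j (1 : ℤ) : Fin n → ℤ) := by
      funext i
      simp [Finset.sum_apply, Pi.single_apply]
    have h3 : ∀ s : Finset (Fin n), q (∑ j ∈ s, z j • (Pi.single j (1 : ℤ) : Fin n → ℤ)) =
        ∑ j ∈ s, (z j : ℚ) * L j := by
      intro s
      induction s using Finset.induction_on with
      | empty =>
        have := hqsmul 0 0
        simpa using this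
      | insert a s ha ih =>
        rw [Finset.sum_insert ha, Finset.sum_insert ha, hqadd, hqsmul, ih, hL a]
    conv_rhs => rw [h2]
    rw [h3 Finset.univ, h1]
    push_cast
    rfl
  have hyF : ρ g *ᵥ y = y := by
    have : ρ g *ᵥ y - y = 0 := by
      apply nondeg hpos
      intro z
      rw [ip_sub_left, sub_eq_zero]
      have h1 : ip B (ρ g *ᵥ y) z = ip B y (ρ g⁻¹ *ᵥ z) := by
        have h2 := ip_inv hiso g y (ρ g⁻¹ *ᵥ z)
        rw [mulVec_mulVec z, ← map_mul, mul_inv_cancel, map_one, one_mulVec] at h2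
        exact h2
      rw [h1]
      have h3 : (ip B y (ρ g⁻¹ *ᵥ z) : ℚ) = ip B y z := by
        rw [hyz, hyz]
        simp only [hq]
        rw [nm_comp_inv hg]
      exact_mod_cast h3
    exact sub_eq_zero.mp this
  refine ⟨y, hyF, fun j => ?_⟩
  have h1 := hyz (v j)
  have h2 : q (v j) = p * l j := by
    simp only [hq]
    rw [Finset.sum_eq_single j]
    · rw [nm_of_fixed (hv j), ip_smul_left]
      have : (ip B (v j) (v j) : ℚ) ≠ 0 := by exact_mod_cast (hpos _ (hv0 j)).ne'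
      push_cast
      field_simp
    · intro i _ hij
      rw [nm_of_fixed (hv j), ip_smul_left, hvo j i (Ne.symm hij)]
      simp
    · intro h; exact absurd (Finset.mem_univ j) h
  rw [h2] at h1
  exact_mod_cast h1

end Pool.Agent.H90.TS
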