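import Mathlib

set_option autoImplicit false

/-!
The index bound (helper90, MP_660bdc_al): `f` an endomorphism of a free `ℤ`-module `Γ` of rank
`p m + 1` with `f ^ p = 1`, `F = ker (f - 1)` of rank at most `m + 1`, and
`K = ker N = range (f - 1)` where `N = 1 + f + ... + f ^ (p - 1)`.  Then the range `T` of `N`
has index at most `p` in `F`.

Proof (`δ = f - 1`).  `δ` and `N` have kernels `F` and `K`; with `AddSubgroup.index_comap`,
`[Γ : F + K] = [T : p F]` (preimage of `p F` under `N`; `N y = p y` on `F`) and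
`[Γ : F + K] = [K : δ K]` (preimage of `δ K` under `δ`).  On `K` one has `N = 0` and
`(X - 1) ^ (p - 1) ≡ 1 + X + ... + X ^ (p - 1) mod p`, so `δ ^ (p - 1) K ⊆ p K`, and `δ` is
injective on `K` (`δ y = 0`, `N y = 0` give `p y = 0`), so
`[K : δ K] ^ (p - 1) = [K : δ ^ (p - 1) K] ≥ [K : p K] = p ^ (rank K) ≥ p ^ (m (p - 1))`,
`rank K = n - rank T ≥ n - rank F ≥ m (p - 1)`.  So `[T : p F] = [K : δ K] ≥ p ^ m` and
`[F : T] * [T : p F] = [F : p F] = p ^ (rank F) ≤ p ^ (m + 1)`.
(all indices are finite and nonzero, since `p K ⊆ δ K`: `p z = p z - N z`.)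
-/

namespace Pool.Agent.H90.TS

open Polynomial

private theorem index_range {M : Type*} [AddCommGroup M] [Module.Free ℤ M] [Module.Finite ℤ M]
    (g : M →ₗ[ℤ] M) (hg : Function.Injective g) :
    (LinearMap.range g).toAddSubgroup.index = (LinearMap.det g).natAbs := by
  have h := Submodule.natAbs_det_equiv (LinearMap.range g) (LinearEquiv.ofInjective g hg)
  have h2 : (LinearMap.range g).subtype ∘ₗ AddMonoidHom.toIntLinearMap
      ((LinearEquiv.ofInjective g hg : M ≃ₗ[ℤ] LinearMap.range g) : M →+ LinearMap.range g) = g := by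
    ext x
    rfl
  rw [h2] at h
  exact h.symm

private theorem poly_id {p : ℕ} (hp : p.Prime) :
    ∃ H : ℤ[X], ∑ k ∈ Finset.range p, (X : ℤ[X]) ^ k = (X - 1) ^ (p - 1) + C (p : ℤ) * H := by
  have : Fact p.Prime := ⟨hp⟩
  have h1 : (∑ k ∈ Finset.range p, (X : (ZMod p)[X]) ^ k) * (X - 1) = (X - 1) ^ (p - 1) * (X - 1) := by
    rw [geom_sum_mul, ← pow_succ, Nat.sub_add_cancel hp.one_le, sub_pow_char, one_pow]
  have h2 : (∑ k ∈ Finset.range p, (X : (ZMod p)[X]) ^ k) = (X - 1) ^ (p - 1) := by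
    refine mul_right_cancel₀ ?_ h1
    exact Polynomial.X_sub_C_ne_zero (1 : ZMod p) |> fun h => by simpa using h
  have h3 : C (p : ℤ) ∣ (∑ k ∈ Finset.range p, (X : ℤ[X]) ^ k) - (X - 1) ^ (p - 1) := by
    rw [Polynomial.C_dvd_iff_dvd_coeff]
    intro i
    rw [← ZMod.intCast_zmod_eq_zero_iff_dvd]
    have h4 : (((∑ k ∈ Finset.range p, (X : ℤ[X]) ^ k) - (X - 1) ^ (p - 1)).map
        (Int.castRingHom (ZMod p))) = 0 := by
      simp only [Polynomial.map_sub, Polynomial.map_sum, Polynomial.map_pow, Polynomial.map_X,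
        Polynomial.map_one]
      rw [h2, sub_self]
    have h5 := congrArg (fun q => Polynomial.coeff q i) h4
    rw [Polynomial.coeff_map] at h5
    exact h5
  obtain ⟨H, hH⟩ := h3
  exact ⟨H, by rw [← hH]; ring⟩

private theorem rank_aux {Γ : Type*} [AddCommGroup Γ] [Module.Free ℤ Γ] [Module.Finite ℤ Γ]
    {p m : ℕ} (hp : p.Prime) (hn : Module.finrank ℤ Γ = p * m + 1) (N : Γ →ₗ[ℤ] Γ)
    (F : Submodule ℤ Γ) (hTF : LinearMap.range N ≤ F) (hF : Module.finrank ℤ F ≤ m + 1) :
    m * (p - 1) ≤ Module.finrank ℤ (LinearMap.ker N) := by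
  have h0 := Submodule.finrank_quotient_add_finrank (LinearMap.ker N)
  have h1 : Module.finrank ℤ (LinearMap.range N) + Module.finrank ℤ (LinearMap.ker N)
      = Module.finrank ℤ Γ := by
    rw [← N.quotKerEquivRange.finrank_eq]
    exact h0
  have h2 : Module.finrank ℤ (LinearMap.range N) ≤ Module.finrank ℤ F :=
    Submodule.finrank_mono hTF
  have h3 : p * m = m * (p - 1) + m := by
    obtain ⟨q, rfl⟩ : ∃ q, p = q + 1 := ⟨p - 1, (Nat.sub_add_cancel hp.one_le).symm⟩
    simp
    ring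
  omega

private theorem det_aux {K : Type*} [AddCommGroup K] [Module.Free ℤ K] [Module.Finite ℤ K]
    {p m : ℕ} (hp : p.Prime) (d h : K →ₗ[ℤ] K) (hd : d ^ (p - 1) = (p : ℤ) • h)
    (hinj : Function.Injective d) (hrk : m * (p - 1) ≤ Module.finrank ℤ K) :
    p ^ m ≤ (LinearMap.det d).natAbs := by
  have hdet : (LinearMap.det d) ^ (p - 1)
      = (p : ℤ) ^ (Module.finrank ℤ K) * LinearMap.det h := by
    rw [← map_pow, hd, LinearMap.det_smul]
  have hdet0 : LinearMap.det d ≠ 0 := by
    intro h0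
    exact (LinearMap.det_eq_zero_iff_ker_ne_bot.mp h0) (LinearMap.ker_eq_bot.mpr hinj)
  have h1 : ((LinearMap.det d).natAbs) ^ (p - 1)
      = p ^ (Module.finrank ℤ K) * (LinearMap.det h).natAbs := by
    rw [← Int.natAbs_pow, hdet, Int.natAbs_mul, Int.natAbs_pow, Int.natAbs_natCast]
  have h2 : (LinearMap.det h).natAbs ≠ 0 := by
    intro h0
    rw [h0, mul_zero] at h1
    have h3 := pow_ne_zero (p - 1) (Int.natAbs_ne_zero.mpr hdet0)
    exact h3 h1
  have hp1 : p - 1 ≠ 0 := by have := hp.two_le; omega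
  have h4 : (p ^ m) ^ (p - 1) ≤ ((LinearMap.det d).natAbs) ^ (p - 1) := by
    rw [h1, ← pow_mul]
    calc p ^ (m * (p - 1)) ≤ p ^ (Module.finrank ℤ K) := Nat.pow_le_pow_right hp.pos hrk
      _ ≤ p ^ (Module.finrank ℤ K) * (LinearMap.det h).natAbs :=
        Nat.le_mul_of_pos_right _ (Nat.pos_of_ne_zero h2)
  exact (Nat.pow_le_pow_iff_left hp1).mp h4

theorem index_le {Γ : Type} [AddCommGroup Γ] [Module.Free ℤ Γ] [Module.Finite ℤ Γ]
    {p m : ℕ} (hp : p.Prime) (hn : Module.finrank ℤ Γ = p * m + 1) (f N : Γ →ₗ[ℤ] Γ)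
    (hf : f ^ p = 1) (hN : N = ∑ k ∈ Finset.range p, f ^ k)
    (hF : Module.finrank ℤ (LinearMap.ker (f - 1)) ≤ m + 1)
    (hK : LinearMap.ker N = LinearMap.range (f - 1)) :
    (LinearMap.range N).toAddSubgroup.relIndex (LinearMap.ker (f - 1)).toAddSubgroup ≤ p ∧
    (LinearMap.range N).toAddSubgroup.relIndex (LinearMap.ker (f - 1)).toAddSubgroup ≠ 0 := by
  classical
  set δ : Γ →ₗ[ℤ] Γ := f - 1 with hδ
  have hδN : ∀ x, δ (N x) = 0 := by
    intro x
    have h : δ * N = 0 := by
      rw [hδ, hN, mul_geom_sum, hf, sub_self]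
    have := congrArg (fun g : Γ →ₗ[ℤ] Γ => g x) h
    simpa using this
  have hNδ : ∀ x, N (δ x) = 0 := by
    intro x
    have h : N * δ = 0 := by
      rw [hδ, hN, geom_sum_mul, hf, sub_self]
    have := congrArg (fun g : Γ →ₗ[ℤ] Γ => g x) h
    simpa using this
  have hNF : ∀ y, δ y = 0 → N y = (p : ℤ) • y := by
    intro y hy
    have hfy : f y = y := by
      have : f y - y = 0 := by simpa [hδ] using hy
      exact sub_eq_zero.mp this
    have hpow : ∀ k : ℕ, (f ^ k) y = y := by
      intro k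
      induction k with
      | zero => simp
      | succ k ih => rw [pow_succ, Module.End.mul_apply, hfy, ih]
    rw [hN, LinearMap.sum_apply, Finset.sum_congr rfl (fun k _ => hpow k)]
    simp
  set F := LinearMap.ker δ with hFdef
  set K := LinearMap.ker N with hKdef
  set T := LinearMap.range N with hTdef
  have hTF : T ≤ F := by
    rintro _ ⟨x, rfl⟩
    exact hδN x
  -- the restriction of δ and f to K
  have hfK : ∀ x ∈ K, f x ∈ K := by
    intro x hx
    have h : N (f x) = f (N x) := by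
      have : N * f = f * N := by
        rw [hN, Finset.sum_mul, Finset.mul_sum]
        exact Finset.sum_congr rfl (fun k _ => by rw [← pow_succ, ← pow_succ'])
      have := congrArg (fun g : Γ →ₗ[ℤ] Γ => g x) this
      simpa using this
    rw [hKdef, LinearMap.mem_ker] at hx ⊢
    rw [h, hx, map_zero]
  have hδK : ∀ x ∈ K, δ x ∈ K := fun x _ => hNδ x
  let fK : K →ₗ[ℤ] K := f.restrict hfK
  let dK : K →ₗ[ℤ] K := δ.restrict hδK
  have hdK : dK = fK - 1 := by
    ext x
    simp [dK, fK, hδ]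
  have hinj : Function.Injective dK := by
    rw [← LinearMap.ker_eq_bot, LinearMap.ker_eq_bot']
    intro x hx
    have h1 : δ (x : Γ) = 0 := by
      have := congrArg (fun z : K => (z : Γ)) hx
      simpa [dK] using this
    have h2 := hNF x h1
    have h3 : N (x : Γ) = 0 := x.2
    rw [h3] at h2
    have h4 : (x : Γ) = 0 := by
      have := h2.symm
      rcases smul_eq_zero.mp this with h | h
      · exact absurd (by exact_mod_cast h) hp.ne_zero
      · exact h
    exact Subtype.ext h4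
  -- polynomial identity
  obtain ⟨H, hH⟩ := poly_id hp
  have hpow : ∀ k : ℕ, ∀ x : K, (((fK ^ k) x : K) : Γ) = (f ^ k) (x : Γ) := by
    intro k
    induction k with
    | zero => intro x; simp
    | succ k ih =>
      intro x
      rw [pow_succ, Module.End.mul_apply, ih, pow_succ, Module.End.mul_apply]
      rfl
  have hsum0 : ∑ k ∈ Finset.range p, fK ^ k = 0 := by
    ext x
    have h3 : N (x : Γ) = 0 := x.2
    rw [hN, LinearMap.sum_apply] at h3
    rw [LinearMap.sum_apply, AddSubmonoidClass.coe_finsetSum]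
    rw [Finset.sum_congr rfl (fun k _ => hpow k x), h3]
    rfl
  have hdp : dK ^ (p - 1) = (p : ℤ) • (-(aeval fK H)) := by
    have h := congrArg (aeval fK) hH
    simp only [map_sum, map_pow, aeval_X, map_add, map_sub, map_one, map_mul, aeval_C] at h
    rw [hsum0, ← hdK] at h
    have h2 : (algebraMap ℤ (Module.End ℤ K)) (p : ℤ) * (aeval fK) H
        = (p : ℤ) • ((aeval fK) H) := by
      rw [Algebra.smul_def]
    rw [h2] at h
    rw [smul_neg]
    exact (neg_eq_of_add_eq_zero_left h.symm).symm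
  have hrk : m * (p - 1) ≤ Module.finrank ℤ K := rank_aux hp hn N F hTF hF
  have hge : p ^ m ≤ (LinearMap.det dK).natAbs := det_aux hp dK _ hdp hinj hrk
  -- subgroup pF
  let mF : Γ →ₗ[ℤ] Γ := (p : ℤ) • LinearMap.id
  let pF : AddSubgroup Γ := (F.map mF).toAddSubgroup
  let dKK : AddSubgroup Γ := (K.map δ).toAddSubgroup
  have e1 : pF.comap N.toAddMonoidHom = (F ⊔ K).toAddSubgroup := by
    ext x
    simp only [AddSubgroup.mem_comap, pF, Submodule.mem_toAddSubgroup, Submodule.mem_map,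
      Submodule.mem_sup]
    constructor
    · rintro ⟨y, hy, hxy⟩
      refine ⟨y, hy, x - y, ?_, by abel⟩
      have h1 : N x = (p : ℤ) • y := by simpa [mF] using hxy.symm
      rw [hKdef, LinearMap.mem_ker, map_sub, h1, hNF y hy, sub_self]
    · rintro ⟨y, hy, z, hz, rfl⟩
      refine ⟨y, hy, ?_⟩
      have h1 : N y = (p : ℤ) • y := hNF y hy
      have h2 : N z = 0 := hz
      simp [mF, h1, h2]
  have e2 : dKK.comap δ.toAddMonoidHom = (F ⊔ K).toAddSubgroup := by
    ext x
    simp only [AddSubgroup.mem_comap, dKK, Submodule.mem_toAddSubgroup, Submodule.mem_map,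
      Submodule.mem_sup]
    constructor
    · rintro ⟨y, hy, hxy⟩
      refine ⟨x - y, ?_, y, hy, by abel⟩
      have h1 : δ x = δ y := by simpa using hxy.symm
      rw [hFdef, LinearMap.mem_ker, map_sub, h1, sub_self]
    · rintro ⟨y, hy, z, hz, rfl⟩
      refine ⟨z, hz, ?_⟩
      have h1 : δ y = 0 := hy
      simp [h1]
  have i1 : pF.relIndex T.toAddSubgroup = (F ⊔ K).toAddSubgroup.index := by
    rw [← e1, AddSubgroup.index_comap]
    rfl
  have i2 : dKK.relIndex K.toAddSubgroup = (F ⊔ K).toAddSubgroup.index := by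
    rw [← e2, AddSubgroup.index_comap, hK]
    rfl
  have i3 : dKK.relIndex K.toAddSubgroup = (LinearMap.det dK).natAbs := by
    rw [← index_range dK hinj, AddSubgroup.relIndex]
    congr 1
    ext x
    simp only [AddSubgroup.mem_addSubgroupOf, dKK, Submodule.mem_toAddSubgroup, Submodule.mem_map,
      LinearMap.mem_range]
    constructor
    · rintro ⟨y, hy, hxy⟩
      exact ⟨⟨y, hy⟩, Subtype.ext hxy⟩
    · rintro ⟨y, hy⟩
      exact ⟨y, y.2, congrArg (fun z : K => (z : Γ)) hy⟩
  have i4 : p ^ m ≤ pF.relIndex T.toAddSubgroup := by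
    rw [i1, ← i2, i3]; exact hge
  have i5 : pF.relIndex F.toAddSubgroup = p ^ (Module.finrank ℤ F) := by
    let g : F →ₗ[ℤ] F := (p : ℤ) • LinearMap.id
    have hg : Function.Injective g := by
      rw [← LinearMap.ker_eq_bot, LinearMap.ker_eq_bot']
      intro x hx
      have : (p : ℤ) • x = 0 := by simpa [g] using hx
      rcases smul_eq_zero.mp this with h | h
      · exact absurd (by exact_mod_cast h) hp.ne_zero
      · exact h
    have h1 := index_range g hg
    have h2 : (LinearMap.det g).natAbs = p ^ (Module.finrank ℤ F) := by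
      change (LinearMap.det ((p : ℤ) • (LinearMap.id : F →ₗ[ℤ] F))).natAbs = _
      rw [LinearMap.det_smul, LinearMap.det_id, mul_one, Int.natAbs_pow, Int.natAbs_natCast]
    rw [← h2, ← h1, AddSubgroup.relIndex]
    congr 1
    ext x
    simp only [AddSubgroup.mem_addSubgroupOf, pF, Submodule.mem_toAddSubgroup, Submodule.mem_map,
      LinearMap.mem_range]
    constructor
    · rintro ⟨y, hy, hxy⟩
      exact ⟨⟨y, hy⟩, Subtype.ext hxy⟩
    · rintro ⟨y, hy⟩
      exact ⟨y, y.2, congrArg (fun z : F => (z : Γ)) hy⟩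
  have hpT : pF ≤ T.toAddSubgroup := by
    rintro _ ⟨y, hy, rfl⟩
    exact ⟨y, by simpa [mF] using hNF y hy⟩
  have i6 : pF.relIndex T.toAddSubgroup * T.toAddSubgroup.relIndex F.toAddSubgroup
      = p ^ (Module.finrank ℤ F) := by
    rw [AddSubgroup.relIndex_mul_relIndex _ _ _ hpT hTF, i5]
  have i7 : p ^ (Module.finrank ℤ F) ≤ p ^ (m + 1) := Nat.pow_le_pow_right hp.pos hF
  refine ⟨?_, ?_⟩
  · have h1 : p ^ m * T.toAddSubgroup.relIndex F.toAddSubgroup ≤ p ^ m * p := by
      calc p ^ m * T.toAddSubgroup.relIndex F.toAddSubgroup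
          ≤ pF.relIndex T.toAddSubgroup * T.toAddSubgroup.relIndex F.toAddSubgroup :=
            Nat.mul_le_mul_right _ i4
        _ = p ^ (Module.finrank ℤ F) := i6
        _ ≤ p ^ (m + 1) := i7
        _ = p ^ m * p := pow_succ p m
    exact Nat.le_of_mul_le_mul_left h1 (pow_pos hp.pos m)
  · intro h0
    rw [h0, mul_zero] at i6
    exact (pow_ne_zero _ hp.ne_zero) i6.symm

end Pool.Agent.H90.TS
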