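import Mathlib
import Pool.Agent.H90.TS.As1
import Pool.Agent.H90.TS.Idx

set_option autoImplicit false

/-!
The quotient of the fixed lattice by the trace lattice is generated by any nonzero element
(helper90, MP_660bdc_al).
-/

namespace Pool.Agent.H90.TS

open Matrix

theorem gen_of_index {Γ : Type} [AddCommGroup Γ] (F T : AddSubgroup Γ)
    {p : ℕ} (hp : p.Prime) (hidx : T.relIndex F ≤ p) (h0 : T.relIndex F ≠ 0) {x0 : Γ}
    (hx0 : x0 ∈ F) (hx0T : x0 ∉ T) (hpx0 : (p : ℤ) • x0 ∈ T) :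
    ∀ y ∈ F, ∃ k : ℕ, k < p ∧ y - (k : ℤ) • x0 ∈ T := by
  classical
  have hcard : Nat.card (F ⧸ T.addSubgroupOf F) = T.relIndex F := rfl
  haveI : Finite (F ⧸ T.addSubgroupOf F) := Nat.finite_of_card_ne_zero (by rw [hcard]; exact h0)
  set π := QuotientAddGroup.mk' (T.addSubgroupOf F) with hπ
  have hπ0 : ∀ y : F, π y = 0 ↔ y.1 ∈ T := by
    intro y
    rw [hπ, QuotientAddGroup.mk'_apply, QuotientAddGroup.eq_zero_iff, AddSubgroup.mem_addSubgroupOf]
  set X0 : F := ⟨x0, hx0⟩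
  have hord : addOrderOf (π X0) = p := by
    apply addOrderOf_eq_prime_iff (hp := ⟨hp⟩) |>.mpr
    refine ⟨?_, ?_⟩
    · rw [← map_nsmul, hπ0]
      have : ((p • X0 : F) : Γ) = (p : ℤ) • x0 := by simp [X0]
      rw [this]; exact hpx0
    · rw [Ne, hπ0]; exact hx0T
  have hinj : Function.Injective (fun k : Fin p => (k : ℕ) • π X0) := by
    intro a b hab
    apply Fin.ext
    exact nsmul_injOn_Iio_addOrderOf (by rw [Set.mem_Iio, hord]; exact a.2)
      (by rw [Set.mem_Iio, hord]; exact b.2) hab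
  have hle : Nat.card (F ⧸ T.addSubgroupOf F) ≤ Nat.card (Fin p) := by
    rw [hcard, Nat.card_eq_fintype_card, Fintype.card_fin]
    exact hidx
  have hbij := hinj.bijective_of_nat_card_le hle
  intro y hy
  obtain ⟨k, hk⟩ := hbij.2 (π ⟨y, hy⟩)
  refine ⟨k, k.2, ?_⟩
  have h1 : π (⟨y, hy⟩ - (k : ℕ) • X0) = 0 := by
    rw [map_sub, map_nsmul, ← hk, sub_self]
  have h2 := (hπ0 _).mp h1
  have : (((⟨y, hy⟩ - (k : ℕ) • X0 : F)) : Γ) = y - ((k : ℕ) : ℤ) • x0 := by simp [X0]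
  rw [this] at h2
  exact h2

variable {n : ℕ} {B : Matrix (Fin n) (Fin n) ℤ} {G : Type} [Group G]
  {ρ : G →* Matrix (Fin n) (Fin n) ℤ}

theorem quot_gen {p m : ℕ} (hp : p.Prime) (hn : n = p * m + 1) {g : G} (hg : orderOf g = p)
    (v : Fin (m + 1) → Fin n → ℤ)
    (hvc : ∀ y, ρ g *ᵥ y = y → (∀ i, ip B y (v i) = 0) → y = 0)
    (hK : ∀ z : Fin n → ℤ, nm ρ g p *ᵥ z = 0 → ∃ w : Fin n → ℤ, z = ρ g *ᵥ w - w)
    {x0 : Fin n → ℤ} (hx0 : x0 ∈ FF ρ g) (hx0T : x0 ∉ TT ρ g p) :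
    ∀ y ∈ FF ρ g, ∃ k : ℕ, k < p ∧ y - (k : ℤ) • x0 ∈ TT ρ g p := by
  classical
  set f : (Fin n → ℤ) →ₗ[ℤ] (Fin n → ℤ) := Matrix.toLin' (ρ g) with hf
  have hfk : ∀ k : ℕ, f ^ k = Matrix.toLin' (ρ (g ^ k)) := by
    intro k
    rw [hf, map_pow, Matrix.toLin'_pow]
  have hfp : f ^ p = 1 := by
    rw [hfk, ← hg, pow_orderOf_eq_one, map_one, Matrix.toLin'_one]; rfl
  set N : (Fin n → ℤ) →ₗ[ℤ] (Fin n → ℤ) := ∑ k ∈ Finset.range p, f ^ k with hN
  have hNz : ∀ z, N z = nm ρ g p *ᵥ z := by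
    intro z
    rw [hN, LinearMap.sum_apply]
    unfold nm
    rw [Matrix.sum_mulVec]
    refine Finset.sum_congr rfl fun k _ => ?_
    rw [hfk, Matrix.toLin'_apply]
  have hfz : ∀ z, (f - 1) z = ρ g *ᵥ z - z := by
    intro z
    rw [LinearMap.sub_apply, hf, Matrix.toLin'_apply]; rfl
  have hkerf : ∀ z, z ∈ LinearMap.ker (f - 1) ↔ z ∈ FF ρ g := by
    intro z
    rw [LinearMap.mem_ker, hfz, sub_eq_zero, mem_FF]
  have hF : Module.finrank ℤ (LinearMap.ker (f - 1)) ≤ m + 1 := by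
    set φ : LinearMap.ker (f - 1) →ₗ[ℤ] (Fin (m + 1) → ℤ) :=
      { toFun := fun y i => ip B y.1 (v i)
        map_add' := by
          intro a b; funext i
          exact ip_add_left B a.1 b.1 (v i)
        map_smul' := by
          intro c a; funext i
          exact ip_smul_left B c a.1 (v i) } with hφ
    have hinj : Function.Injective φ := by
      rw [injective_iff_map_eq_zero]
      intro a ha
      apply Subtype.ext
      exact hvc a.1 (mem_FF.mp ((hkerf a.1).mp a.2)) fun i => congrFun ha i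
    have := LinearMap.finrank_le_finrank_of_injective hinj
    simpa using this
  have hKer : LinearMap.ker N = LinearMap.range (f - 1) := by
    ext z
    rw [LinearMap.mem_ker, LinearMap.mem_range, hNz]
    constructor
    · intro hz
      obtain ⟨w, hw⟩ := hK z hz
      exact ⟨w, by rw [hfz, hw]⟩
    · rintro ⟨w, rfl⟩
      rw [hfz, mulVec_sub]
      have h1 := nm_comp_inv (ρ := ρ) hg (ρ g *ᵥ w)
      rw [mulVec_mulVec w, ← map_mul, inv_mul_cancel, map_one, one_mulVec] at h1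
      rw [h1, sub_self]
  obtain ⟨hi1, hi2⟩ := index_le hp (by rw [Module.finrank_fintype_fun_eq_card, Fintype.card_fin, hn])
    f N hfp hN hF hKer
  have e1 : (LinearMap.ker (f - 1)).toAddSubgroup = FF ρ g := by
    ext z; exact hkerf z
  have e2 : (LinearMap.range N).toAddSubgroup = TT ρ g p := by
    ext z
    rw [mem_TT]
    constructor
    · rintro ⟨w, hw⟩; exact ⟨w, by rw [← hw, hNz]⟩
    · rintro ⟨w, hw⟩; exact ⟨w, by rw [hw, hNz]⟩
  rw [e1, e2] at hi1 hi2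
  exact gen_of_index _ _ hp hi1 hi2 hx0 hx0T ⟨x0, (nm_of_fixed hx0).symm⟩

end Pool.Agent.H90.TS
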