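import Mathlib

set_option autoImplicit false

/-!
If `p` divides the group order exactly once, does not divide the degree, and an element `g` of
order `p` fixes a vector `x` with `p ∤ (x, x)`, then the kernel of the norm `1 + g + ...` is
the image of `g - 1` (helper90, MP_660bdc_al).

Proof: let `P = zpowers g`, `X = G ⧸ P`, `z` with `N z = 0`.  By `schur_vec` and since
`ρ s x` depends only on the coset `s P`, `∑ over s̄ in X of (z, s x) • s x = k * (x, x) • z`.
With `α s̄ = (z, s x)` and `β s̄ = s x`: `∑ over h in P of α (h s̄) = (z, N (s x)) =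
(N z, s x) = 0` and `β (h s̄) - β s̄` is in the image `M` of `g - 1`.  So `orbit_sum_mem` gives
`k * (x, x) • z ∈ M`; also `p • z = p • z - N z ∈ M`, and `k * (x, x)` is prime to `p`.
-/

namespace Pool.Agent.H90.TS

open Matrix

/-- A finite group `P` acting on a finite set `X`, an integer weight `α` with all orbit sums zero,
and a function `β` constant on the orbits modulo `M`. -/
theorem orbit_sum_mem {P X Γ : Type} [Group P] [Fintype P] [MulAction P X] [Fintype X]
    [AddCommGroup Γ] (M : AddSubgroup Γ) (α : X → ℤ) (β : X → Γ)
    (hα : ∀ x, ∑ h : P, α (h • x) = 0) (hβ : ∀ (h : P) x, β (h • x) - β x ∈ M) :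
    ∑ x, α x • β x ∈ M := by
  classical
  let q : X → MulAction.orbitRel.Quotient P X := fun x => Quotient.mk _ x
  have hrep : ∀ x, ∃ h : P, h • (q x).out = x := by
    intro x
    have h1 : (MulAction.orbitRel P X).r ((q x).out) x :=
      (MulAction.orbitRel P X).symm' ((MulAction.orbitRel P X).symm'
        (Quotient.mk_out (s := MulAction.orbitRel P X) x))
    have h2 : x ∈ MulAction.orbit P ((q x).out) :=
      MulAction.orbitRel_apply.1 ((MulAction.orbitRel P X).symm' h1)
    exact h2
  have hq : ∀ (h : P) x, q (h • x) = q x := by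
    intro h x
    exact Quotient.sound (MulAction.orbitRel_apply.2 ⟨h, rfl⟩)
  -- the sum of `α` over a fibre of `q` is zero
  have hfib : ∀ c : MulAction.orbitRel.Quotient P X, ∑ x with q x = c, α x = 0 := by
    intro c
    have h1 : ∀ h : P, ∑ x with q x = c, α (h • x) = ∑ x with q x = c, α x := by
      intro h
      refine Finset.sum_bij (fun x _ => h • x) ?_ ?_ ?_ ?_
      · intro x hx
        simp only [Finset.mem_filter, Finset.mem_univ, true_and] at hx ⊢
        rw [hq, hx]
      · intro x _ y _ hxy
        exact smul_left_cancel h hxy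
      · intro y hy
        simp only [Finset.mem_filter, Finset.mem_univ, true_and] at hy
        refine ⟨h⁻¹ • y, ?_, ?_⟩
        · simp only [Finset.mem_filter, Finset.mem_univ, true_and]
          rw [hq, hy]
        · exact smul_inv_smul h y
      · intro x _
        rfl
    have h2 : (Fintype.card P : ℤ) * ∑ x with q x = c, α x = 0 := by
      have h3 : ∑ h : P, ∑ x with q x = c, α (h • x) = 0 := by
        rw [Finset.sum_comm]
        exact Finset.sum_eq_zero fun x _ => hα x
      rw [Finset.sum_congr rfl fun h _ => h1 h, Finset.sum_const, Finset.card_univ,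
        nsmul_eq_mul] at h3
      exact h3
    rcases mul_eq_zero.1 h2 with h3 | h3
    · exact absurd (Int.natCast_eq_zero.1 h3) Fintype.card_ne_zero
    · exact h3
  have hsplit : ∑ x, α x • β x
      = ∑ x, α x • (β x - β ((q x).out)) + ∑ x, α x • β ((q x).out) := by
    rw [← Finset.sum_add_distrib]
    refine Finset.sum_congr rfl fun x _ => ?_
    rw [smul_sub, sub_add_cancel]
  have hzero : ∑ x, α x • β ((q x).out) = 0 := by
    rw [← Finset.sum_fiberwise Finset.univ q]
    refine Finset.sum_eq_zero fun c _ => ?_
    have h1 : ∑ x with q x = c, α x • β ((q x).out) = ∑ x with q x = c, α x • β (c.out) := by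
      refine Finset.sum_congr rfl fun x hx => ?_
      simp only [Finset.mem_filter, Finset.mem_univ, true_and] at hx
      rw [hx]
    rw [h1, ← Finset.sum_smul, hfib c, zero_smul]
  rw [hsplit, hzero, add_zero]
  refine M.sum_mem fun x _ => M.zsmul_mem ?_ _
  obtain ⟨h, hh⟩ := hrep x
  have := hβ h ((q x).out)
  rwa [hh] at this

end Pool.Agent.H90.TS
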