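import Mathlib
import Pool.Agent.H90.TS.Def

set_option autoImplicit false

/-!
Schur averaging (helper90, MP_660bdc_al).
-/

namespace Pool.Agent.H90.TS

open Matrix

variable {n : ℕ} {B : Matrix (Fin n) (Fin n) ℤ} {G : Type} [Group G] [Fintype G]
  {ρ : G →* Matrix (Fin n) (Fin n) ℤ}

/-- The average of an integral matrix over the group, by Schur's lemma and the trace. -/
theorem schur_avg (habs : ∀ A : Matrix (Fin n) (Fin n) ℚ,
      (∀ g, A * (ρ g).map (Int.cast : ℤ → ℚ) = (ρ g).map (Int.cast : ℤ → ℚ) * A) →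
      ∃ c : ℚ, A = c • (1 : Matrix (Fin n) (Fin n) ℚ))
    (A : Matrix (Fin n) (Fin n) ℤ) :
    (n : ℤ) • ∑ g, ρ g * A * ρ g⁻¹ =
      ((Fintype.card G : ℤ) * A.trace) • (1 : Matrix (Fin n) (Fin n) ℤ) := by
  set M : Matrix (Fin n) (Fin n) ℤ := ∑ g, ρ g * A * ρ g⁻¹ with hM
  have hcomm : ∀ h, M * ρ h = ρ h * M := by
    intro h
    rw [hM, Finset.sum_mul, Finset.mul_sum]
    refine (Fintype.sum_equiv (Equiv.mulLeft h) _ _ fun g => ?_).symm
    simp only [Equiv.coe_mulLeft, _root_.mul_inv_rev, map_mul]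
    rw [Matrix.mul_assoc (ρ h * ρ g * A), Matrix.mul_assoc (ρ g⁻¹), ← map_mul ρ h⁻¹ h,
      inv_mul_cancel, map_one, Matrix.mul_one]
    simp only [Matrix.mul_assoc]
  have htr : M.trace = (Fintype.card G : ℤ) * A.trace := by
    rw [hM, Matrix.trace_sum]
    have : ∀ g, (ρ g * A * ρ g⁻¹).trace = A.trace := fun g => by
      rw [Matrix.trace_mul_comm, ← Matrix.mul_assoc, ← map_mul, inv_mul_cancel, map_one,
        Matrix.one_mul]
    simp [this]
  obtain ⟨c, hc⟩ := habs (M.map (Int.cast : ℤ → ℚ)) fun g => by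
    have h1 := congrArg (fun X : Matrix (Fin n) (Fin n) ℤ => X.map (Int.castRingHom ℚ)) (hcomm g)
    simp only [Matrix.map_mul] at h1
    exact h1
  have hent : ∀ i j, ((M i j : ℤ) : ℚ) = c * (1 : Matrix (Fin n) (Fin n) ℚ) i j := fun i j => by
    have := congrFun (congrFun hc i) j
    simpa [Matrix.map_apply, Matrix.smul_apply] using this
  have hcn : (n : ℚ) * c = ((Fintype.card G : ℤ) * A.trace : ℤ) := by
    rw [← htr, Matrix.trace, Int.cast_sum]
    simp only [Matrix.diag_apply, hent, Matrix.one_apply_eq, mul_one]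
    simp
  ext i j
  have h2 : (((n : ℤ) • M) i j : ℚ) =
      ((((Fintype.card G : ℤ) * A.trace) • (1 : Matrix (Fin n) (Fin n) ℤ)) i j : ℤ) := by
    rw [Matrix.smul_apply, Matrix.smul_apply, smul_eq_mul, smul_eq_mul, Int.cast_mul, Int.cast_mul,
      hent, ← hcn]
    rcases eq_or_ne i j with rfl | hij
    · simp
    · simp [Matrix.one_apply_ne hij]
  exact_mod_cast h2

/-- The same for the rank one matrix `z ↦ (z, x) x`. -/
theorem schur_vec (hs : Bᵀ = B) (hiso : ∀ g, (ρ g)ᵀ * B * ρ g = B)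
    (habs : ∀ A : Matrix (Fin n) (Fin n) ℚ,
      (∀ g, A * (ρ g).map (Int.cast : ℤ → ℚ) = (ρ g).map (Int.cast : ℤ → ℚ) * A) →
      ∃ c : ℚ, A = c • (1 : Matrix (Fin n) (Fin n) ℚ))
    (x z : Fin n → ℤ) :
    (n : ℤ) • ∑ s, ip B z (ρ s *ᵥ x) • (ρ s *ᵥ x) =
      ((Fintype.card G : ℤ) * ip B x x) • z := by
  have h1 := congrArg (fun X => X *ᵥ z) (schur_avg habs (Matrix.vecMulVec x (B *ᵥ x)))
  simp only [Matrix.smul_mulVec, Matrix.one_mulVec, Matrix.sum_mulVec,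
    Matrix.trace_vecMulVec] at h1
  have hB : ∀ g, (ρ g)ᵀ * B = B * ρ g⁻¹ := fun g => by
    have := congrArg (fun X => X * ρ g⁻¹) (hiso g)
    simp only [Matrix.mul_assoc, ← map_mul, mul_inv_cancel, map_one, Matrix.mul_one] at this
    exact this
  have hterm : ∀ g, (ρ g * Matrix.vecMulVec x (B *ᵥ x) * ρ g⁻¹) *ᵥ z =
      ip B z (ρ g *ᵥ x) • (ρ g *ᵥ x) := fun g => by
    have e1 : (B *ᵥ x) ⬝ᵥ (ρ g⁻¹ *ᵥ z) = ip B z (ρ g *ᵥ x) := by
      rw [ip_comm B hs z, dotProduct_comm]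
      change ip B (ρ g⁻¹ *ᵥ z) x = _
      rw [ip_comm B hs, ip, ip, Matrix.mulVec_mulVec, ← hB, ← Matrix.mulVec_mulVec,
        dotProduct_mulVec x (ρ g)ᵀ, vecMul_transpose]
    rw [← Matrix.mulVec_mulVec, ← Matrix.mulVec_mulVec, Matrix.vecMulVec_mulVec, e1]
    rw [show (MulOpposite.op (ip B z (ρ g *ᵥ x)) • x) = ip B z (ρ g *ᵥ x) • x by
      ext i; simp [mul_comm], Matrix.mulVec_smul]
  simp only [hterm] at h1
  exact h1

end Pool.Agent.H90.TS
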