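import Mathlib
import Pool.Agent.H90.TS.Sc
import Pool.Agent.H90.TS.C0a
import Pool.Agent.H90.TS.Fam1

set_option autoImplicit false

/-!
If `p` divides the group order exactly once, does not divide the degree, and an element `g` of
order `p` fixes a vector `x` with `p ∤ (x, x)`, then the kernel of the norm `1 + g + ...` is
the image of `g - 1` (helper90, MP_660bdc_al).

Proof: let `P = zpowers g`, `X = G ⧸ P`, `z` with `N z = 0`.  By `schur_vec` and since
`ρ s x` depends only on the coset `s P`, `∑ over s̄ in X of (z, s x) • s x = k * (x, x) • z`.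
With `α s̄ = (z, s x)` and `β s̄ = s x`: `∑ over h in P of α (h s̄) = (z, N (s x)) =
(N z, s x) = 0` and `β (h s̄) - β s̄` is in the image `M` of `g - 1`.  So `orbit_sum_mem` gives
`k * (x, x) • z ∈ M`; also `p • z = p • z - N z ∈ M`, and `k * (x, x)` is prime to `p`.
-/

namespace Pool.Agent.H90.TS

open Matrix

variable {n : ℕ} {B : Matrix (Fin n) (Fin n) ℤ} {G : Type} [Group G] [Fintype G]
  {ρ : G →* Matrix (Fin n) (Fin n) ℤ}

/-- a sum over the cyclic group generated by `g` is a sum over `g ^ k`, `k < orderOf g`. -/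
private theorem sum_zpowers_eq {Γ : Type} [AddCommMonoid Γ] [DecidableEq G]
    {p : ℕ} {g : G} (hg : orderOf g = p) (f : G → Γ) :
    ∑ h : Subgroup.zpowers g, f (h : G) = ∑ k ∈ Finset.range p, f (g ^ k) := by
  subst hg
  rw [Finset.sum_range]
  symm
  refine Fintype.sum_equiv (finEquivZPowers (isOfFinOrder_of_finite g)) _ _ ?_
  intro i
  simp [finEquivZPowers_apply]

/-- the sum over the group of a function on the cosets. -/
private theorem sum_quot_eq {Γ : Type} [AddCommMonoid Γ] [DecidableEq G]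
    (P : Subgroup G) [Fintype P] [Fintype (G ⧸ P)] (f : G ⧸ P → Γ) :
    ∑ s : G, f (s : G ⧸ P) = Fintype.card P • ∑ q : G ⧸ P, f q := by
  have h1 : ∑ s : G, f (s : G ⧸ P) = ∑ qh : (G ⧸ P) × P, f qh.1 := by
    refine Fintype.sum_equiv Subgroup.groupEquivQuotientProdSubgroup _ _ ?_
    intro s
    rfl
  rw [h1, Fintype.sum_prod_type]
  simp [Finset.smul_sum]

/-- the image of `g - 1`. -/
private def imSub (ρ : G →* Matrix (Fin n) (Fin n) ℤ) (g : G) : AddSubgroup (Fin n → ℤ) where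
  carrier := {z | ∃ w : Fin n → ℤ, z = ρ g *ᵥ w - w}
  zero_mem' := ⟨0, by simp⟩
  add_mem' := by
    rintro _ _ ⟨a, rfl⟩ ⟨b, rfl⟩
    refine ⟨a + b, ?_⟩
    rw [mulVec_add]
    abel
  neg_mem' := by
    rintro _ ⟨a, rfl⟩
    refine ⟨-a, ?_⟩
    rw [mulVec_neg]
    abel

omit [Fintype G] in
private theorem pow_sub_mem (g : G) (y : Fin n → ℤ) (k : ℕ) :
    ρ (g ^ k) *ᵥ y - y ∈ imSub ρ g := by
  induction k with
  | zero => simp
  | succ k ih =>
    have h1 : ρ (g ^ (k + 1)) *ᵥ y - y =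
        (ρ g *ᵥ (ρ (g ^ k) *ᵥ y) - ρ (g ^ k) *ᵥ y) + (ρ (g ^ k) *ᵥ y - y) := by
      rw [pow_succ', map_mul, ← mulVec_mulVec]
      abel
    rw [h1]
    exact (imSub ρ g).add_mem ⟨_, rfl⟩ ih

theorem ker_norm (hs : Bᵀ = B) (hiso : ∀ g, (ρ g)ᵀ * B * ρ g = B)
    (habs : ∀ A : Matrix (Fin n) (Fin n) ℚ,
      (∀ g, A * (ρ g).map (Int.cast : ℤ → ℚ) = (ρ g).map (Int.cast : ℤ → ℚ) * A) →
      ∃ c : ℚ, A = c • (1 : Matrix (Fin n) (Fin n) ℚ))
    (hn : 0 < n) {p : ℕ} (hp : p.Prime) {k : ℕ} (hk : ¬ p ∣ k)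
    (hcard : Fintype.card G = n * (p * k))
    {g : G} (hg : orderOf g = p) {x : Fin n → ℤ} (hx : ρ g *ᵥ x = x)
    (hxx : ¬ (p : ℤ) ∣ ip B x x) {z : Fin n → ℤ} (hz : nm ρ g p *ᵥ z = 0) :
    ∃ w : Fin n → ℤ, z = ρ g *ᵥ w - w := by
  classical
  -- the stabiliser contains the powers of `g`
  have hstab : ∀ h : Subgroup.zpowers g, ρ (h : G) *ᵥ x = x := by
    intro h
    have hpow : ∀ i : ℕ, ρ (g ^ i) *ᵥ x = x := by
      intro i
      induction i with
      | zero => simp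
      | succ i ih => rw [pow_succ, map_mul, ← mulVec_mulVec, hx, ih]
    have hj2 : (h : G) ∈ Submonoid.powers g := by
      have := h.2
      rwa [← mem_powers_iff_mem_zpowers] at this
    obtain ⟨i, hi⟩ := Submonoid.mem_powers_iff _ _ |>.1 hj2
    rw [← hi]
    exact hpow i
  let β : G ⧸ Subgroup.zpowers g → (Fin n → ℤ) := fun q => ρ q.out *ᵥ x
  have hβmk : ∀ s : G, β (s : G ⧸ Subgroup.zpowers g) = ρ s *ᵥ x := by
    intro s
    obtain ⟨h, hh⟩ := QuotientGroup.mk_out_eq_mul (Subgroup.zpowers g) s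
    change ρ ((s : G ⧸ Subgroup.zpowers g).out) *ᵥ x = ρ s *ᵥ x
    rw [hh, map_mul, ← mulVec_mulVec, hstab h]
  let α : G ⧸ Subgroup.zpowers g → ℤ := fun q => ip B z (β q)
  have hsmul : ∀ (h : Subgroup.zpowers g) (s : G),
      h • (s : G ⧸ Subgroup.zpowers g) = (((h : G) * s : G) : G ⧸ Subgroup.zpowers g) := by
    intro h s
    rfl
  have hα : ∀ q, ∑ h : Subgroup.zpowers g, α (h • q) = 0 := by
    intro q
    obtain ⟨s, rfl⟩ := QuotientGroup.mk_surjective q
    have h1 : ∀ h : Subgroup.zpowers g, α (h • (s : G ⧸ Subgroup.zpowers g)) =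
        ip B z (ρ (h : G) *ᵥ (ρ s *ᵥ x)) := by
      intro h
      change ip B z (β (h • (s : G ⧸ Subgroup.zpowers g))) = _
      rw [hsmul, hβmk, map_mul, ← mulVec_mulVec]
    rw [Finset.sum_congr rfl (fun h _ => h1 h),
      sum_zpowers_eq hg (fun h : G => ip B z (ρ h *ᵥ (ρ s *ᵥ x))), ← ip_sum_right]
    have h2 : ∑ i ∈ Finset.range p, ρ (g ^ i) *ᵥ (ρ s *ᵥ x) = nm ρ g p *ᵥ (ρ s *ᵥ x) := by
      unfold nm
      rw [Matrix.sum_mulVec]
    rw [h2, ← ip_nm hiso hg, hz, ip_zero_left]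
  have hβ : ∀ (h : Subgroup.zpowers g) q, β (h • q) - β q ∈ imSub ρ g := by
    intro h q
    obtain ⟨s, rfl⟩ := QuotientGroup.mk_surjective q
    have hj2 : (h : G) ∈ Submonoid.powers g := by
      have := h.2
      rwa [← mem_powers_iff_mem_zpowers] at this
    obtain ⟨i, hi⟩ := Submonoid.mem_powers_iff _ _ |>.1 hj2
    change β (h • (s : G ⧸ Subgroup.zpowers g)) - β (s : G ⧸ Subgroup.zpowers g) ∈ _
    rw [hsmul, hβmk, hβmk, map_mul, ← mulVec_mulVec, ← hi]
    exact pow_sub_mem g _ i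
  have hsum := orbit_sum_mem (imSub ρ g) α β hα hβ
  -- the Schur sum
  have hcardP : Fintype.card (Subgroup.zpowers g) = p := by
    rw [Fintype.card_zpowers, hg]
  have hschur := schur_vec (B := B) (ρ := ρ) hs hiso habs x z
  have h3 : ∑ s, ip B z (ρ s *ᵥ x) • (ρ s *ᵥ x) = p • ∑ q, α q • β q := by
    have h4 := sum_quot_eq (Subgroup.zpowers g) (fun q => α q • β q)
    rw [hcardP] at h4
    rw [← h4]
    refine Finset.sum_congr rfl ?_
    intro s _
    change _ = ip B z (β (s : G ⧸ Subgroup.zpowers g)) • β (s : G ⧸ Subgroup.zpowers g)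
    rw [hβmk]
  rw [h3, hcard, ← natCast_zsmul] at hschur
  have h5 : ∑ q, α q • β q = ((k : ℤ) * ip B x x) • z := by
    funext i
    have h6 := congrFun hschur i
    simp only [Pi.smul_apply, smul_eq_mul, Nat.cast_mul] at h6 ⊢
    have hnp : ((n : ℤ) * p) ≠ 0 := by
      have : (n : ℤ) ≠ 0 := by exact_mod_cast hn.ne'
      have : (p : ℤ) ≠ 0 := by exact_mod_cast hp.ne_zero
      positivity
    apply mul_left_cancel₀ hnp
    linear_combination h6
  rw [h5] at hsum
  -- `p • z` is in the image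
  have hpz : (p : ℤ) • z ∈ imSub ρ g := by
    have h7 : (p : ℤ) • z = -∑ i ∈ Finset.range p, (ρ (g ^ i) *ᵥ z - z) := by
      rw [Finset.sum_sub_distrib]
      have h8 : ∑ i ∈ Finset.range p, ρ (g ^ i) *ᵥ z = 0 := by
        rw [← hz]
        unfold nm
        rw [Matrix.sum_mulVec]
      rw [h8]
      simp
    rw [h7]
    exact (imSub ρ g).neg_mem ((imSub ρ g).sum_mem fun i _ => pow_sub_mem g z i)
  -- coprimality
  have hcop : IsCoprime ((k : ℤ) * ip B x x) (p : ℤ) := by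
    have hpp : Prime (p : ℤ) := Nat.prime_iff_prime_int.1 hp
    refine IsCoprime.symm ((Prime.coprime_iff_not_dvd hpp).2 ?_)
    intro hd
    rcases hpp.dvd_or_dvd hd with h | h
    · exact hk (by exact_mod_cast h)
    · exact hxx h
  obtain ⟨a, b, hab⟩ := hcop
  have hfin : z = a • (((k : ℤ) * ip B x x) • z) + b • ((p : ℤ) • z) := by
    rw [smul_smul, smul_smul, ← add_smul, hab, one_smul]
  have hmem : z ∈ imSub ρ g := by
    rw [hfin]
    exact (imSub ρ g).add_mem ((imSub ρ g).zsmul_mem hsum a) ((imSub ρ g).zsmul_mem hpz b)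
  exact hmem

end Pool.Agent.H90.TS
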