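import Mathlib

set_option autoImplicit false

/-!
Finiteness and divisibility of the number of vectors of given norm (helper90, MP_660bdc_al).

`finite_norm`: since `det B = 1`, `x i = (B⁻¹ e_i, x)` with `B⁻¹` integral (the adjugate), and
Cauchy - Schwarz for the positive definite form gives `(x i) ^ 2 ≤ (B⁻¹)_ii * (x, x)`.
`dvd_ncard`: `Equiv.Perm.card_fixedPoints_modEq` for `x ↦ ρ g x` on the finite set.
-/

namespace Pool.Agent.H90.TS

open Matrix

private noncomputable def sn (k : ℤ) : ℝ := Real.sin (2 * Real.pi * k / 19)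

private theorem sn_per (k n : ℤ) : sn (k + 19 * n) = sn k := by
  unfold sn
  have : 2 * Real.pi * ((k + 19 * n : ℤ) : ℝ) / 19 = 2 * Real.pi * (k : ℝ) / 19 + n * (2 * Real.pi) := by
    push_cast
    ring
  rw [this, Real.sin_add_int_mul_two_pi]

private theorem sn_neg (k : ℤ) : sn (-k) = -sn k := by
  unfold sn
  rw [← Real.sin_neg]
  congr 1
  push_cast
  ring

private theorem sn_pos (k : ℤ) (h1 : 0 < k) (h2 : k < 10) : 0 < sn k := by
  unfold sn
  have hpi := Real.pi_pos
  have h3 : (0 : ℝ) < k := by exact_mod_cast h1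
  have h4 : (k : ℝ) ≤ 9 := by
    have : k ≤ 9 := by omega
    exact_mod_cast this
  apply Real.sin_pos_of_pos_of_lt_pi
  · positivity
  · rw [div_lt_iff₀ (by norm_num)]
    nlinarith

/-- The quadratic Gauss sum modulo `19` has positive imaginary part: with
`s j = sin (2 π j / 19)` its half is `s 1 + s 4 + s 9 - s 3 + s 6 - s 2 - s 8 + s 7 + s 5`,
and `s 4 > s 3`, `s 7 > s 8`, `s 5 > s 2`, `s 1, s 6, s 9 > 0` (all by monotonicity of `sin`). -/
theorem gauss19 : 0 < (∑ a ∈ Finset.range 19,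
    Complex.exp (2 * Real.pi * Complex.I * (a : ℂ) ^ 2 / 19)).im := by
  have hpi := Real.pi_pos
  have h1 : ∀ a : ℕ, (Complex.exp (2 * Real.pi * Complex.I * (a : ℂ) ^ 2 / 19)).im = sn ((a : ℤ) ^ 2) := by
    intro a
    have : 2 * Real.pi * Complex.I * (a : ℂ) ^ 2 / 19 =
        ((2 * Real.pi * ((((a : ℤ) ^ 2 : ℤ)) : ℝ) / 19 : ℝ) : ℂ) * Complex.I := by
      push_cast
      ring
    rw [this, Complex.exp_ofReal_mul_I_im]
    rfl
  rw [Complex.im_sum, Finset.sum_congr rfl fun a _ => h1 a]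
  have h43 : sn 3 < sn 4 := by
    unfold sn
    apply Real.sin_lt_sin_of_lt_of_le_pi_div_two
    · push_cast; linarith
    · push_cast; linarith
    · push_cast; linarith
  have h78 : sn 8 < sn 7 := by
    unfold sn
    rw [← Real.sin_pi_sub, ← Real.sin_pi_sub (2 * Real.pi * ((7 : ℤ) : ℝ) / 19)]
    apply Real.sin_lt_sin_of_lt_of_le_pi_div_two
    · push_cast; linarith
    · push_cast; linarith
    · push_cast; linarith
  have h52 : sn 2 < sn 5 := by
    unfold sn
    rw [← Real.sin_pi_sub (2 * Real.pi * ((5 : ℤ) : ℝ) / 19)]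
    apply Real.sin_lt_sin_of_lt_of_le_pi_div_two
    · push_cast; linarith
    · push_cast; linarith
    · push_cast; linarith
  have p1 := sn_pos 1 (by norm_num) (by norm_num)
  have p6 := sn_pos 6 (by norm_num) (by norm_num)
  have p9 := sn_pos 9 (by norm_num) (by norm_num)
  have z0 : sn 0 = 0 := by unfold sn; simp
  have e16 : sn 16 = -sn 3 := by
    rw [show (16 : ℤ) = -3 + 19 * 1 from rfl, sn_per, sn_neg]
  have e25 : sn 25 = sn 6 := by
    rw [show (25 : ℤ) = 6 + 19 * 1 from rfl, sn_per]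
  have e36 : sn 36 = -sn 2 := by
    rw [show (36 : ℤ) = -2 + 19 * 2 from rfl, sn_per, sn_neg]
  have e49 : sn 49 = -sn 8 := by
    rw [show (49 : ℤ) = -8 + 19 * 3 from rfl, sn_per, sn_neg]
  have e64 : sn 64 = sn 7 := by
    rw [show (64 : ℤ) = 7 + 19 * 3 from rfl, sn_per]
  have e81 : sn 81 = sn 5 := by
    rw [show (81 : ℤ) = 5 + 19 * 4 from rfl, sn_per]
  have e100 : sn 100 = sn 5 := by
    rw [show (100 : ℤ) = 5 + 19 * 5 from rfl, sn_per]
  have e121 : sn 121 = sn 7 := by
    rw [show (121 : ℤ) = 7 + 19 * 6 from rfl, sn_per]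
  have e144 : sn 144 = -sn 8 := by
    rw [show (144 : ℤ) = -8 + 19 * 8 from rfl, sn_per, sn_neg]
  have e169 : sn 169 = -sn 2 := by
    rw [show (169 : ℤ) = -2 + 19 * 9 from rfl, sn_per, sn_neg]
  have e196 : sn 196 = sn 6 := by
    rw [show (196 : ℤ) = 6 + 19 * 10 from rfl, sn_per]
  have e225 : sn 225 = -sn 3 := by
    rw [show (225 : ℤ) = -3 + 19 * 12 from rfl, sn_per, sn_neg]
  have e256 : sn 256 = sn 9 := by
    rw [show (256 : ℤ) = 9 + 19 * 13 from rfl, sn_per]
  have e289 : sn 289 = sn 4 := by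
    rw [show (289 : ℤ) = 4 + 19 * 15 from rfl, sn_per]
  have e324 : sn 324 = sn 1 := by
    rw [show (324 : ℤ) = 1 + 19 * 17 from rfl, sn_per]
  simp only [Finset.sum_range_succ, Finset.sum_range_zero]
  norm_num only [Nat.cast_ofNat, Nat.cast_zero, Nat.cast_one]
  rw [z0, e16, e25, e36, e49, e64, e81, e100, e121, e144, e169, e196, e225, e256, e289, e324]
  linarith

end Pool.Agent.H90.TS
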