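import Mathlib
import Pool.Agent.H90.TS.Fam1

set_option autoImplicit false

/-!
A maximal orthogonal family of norms `N z` (`N = 1 + g + ... + g ^ (p - 1)`), and its size
through the trace of `N` (helper90, MP_660bdc_al).

`exists_family`: take an orthogonal family of nonzero vectors of the form `N z` of maximal size
(orthogonal nonzero vectors are linearly independent, so the size is at most `n`).  If `g y = y`
and `y` is orthogonal to the family then `p • y = N y` is too, so `p • y = 0` by maximality.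

`family_card`: for every `z`, `N z` is fixed and `(N z, v i) = p (z, v i)`, so over the rationals
`N z = ∑ i, p (z, v i) / (v i, v i) • v i`; take traces.
-/

namespace Pool.Agent.H90.TS

open Matrix

variable {n : ℕ} {B : Matrix (Fin n) (Fin n) ℤ} {G : Type} [Group G]
  {ρ : G →* Matrix (Fin n) (Fin n) ℤ}

private theorem linInd_aux (hpos : ∀ x : Fin n → ℤ, x ≠ 0 → 0 < ip B x x)
    {r : ℕ} (v : Fin r → Fin n → ℤ) (hv0 : ∀ i, v i ≠ 0)
    (hvo : ∀ i j, i ≠ j → ip B (v i) (v j) = 0) : LinearIndependent ℤ v := by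
  rw [Fintype.linearIndependent_iff]
  intro c hc j
  have h1 : ip B (∑ i, c i • v i) (v j) = 0 := by rw [hc, ip_zero_left]
  rw [ip_sum_left, Finset.sum_eq_single j] at h1
  · rw [ip_smul_left] at h1
    rcases mul_eq_zero.1 h1 with h | h
    · exact h
    · exact absurd h (hpos _ (hv0 j)).ne'
  · intro i _ hij
    rw [ip_smul_left, hvo i j hij, mul_zero]
  · intro h
    exact absurd (Finset.mem_univ j) h

theorem exists_family (hs : Bᵀ = B) (hpos : ∀ x : Fin n → ℤ, x ≠ 0 → 0 < ip B x x)
    {p : ℕ} (hp : p.Prime) {g : G} (hg : orderOf g = p) :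
    ∃ (r : ℕ) (v : Fin r → Fin n → ℤ), (∀ i, ∃ z, v i = nm ρ g p *ᵥ z) ∧ (∀ i, v i ≠ 0) ∧
      (∀ i j, i ≠ j → ip B (v i) (v j) = 0) ∧
      (∀ y, ρ g *ᵥ y = y → (∀ i, ip B y (v i) = 0) → y = 0) := by
  classical
  let P : ℕ → Prop := fun r => ∃ v : Fin r → Fin n → ℤ, (∀ i, ∃ z, v i = nm ρ g p *ᵥ z) ∧
    (∀ i, v i ≠ 0) ∧ (∀ i j, i ≠ j → ip B (v i) (v j) = 0)
  have hP0 : P 0 := ⟨fun i => i.elim0, fun i => i.elim0, fun i => i.elim0, fun i => i.elim0⟩
  have hPn : ∀ r, P r → r ≤ n := by
    rintro r ⟨v, _, hv0, hvo⟩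
    have h := (linInd_aux hpos v hv0 hvo).fintype_card_le_finrank
    simpa using h
  have hr : P (Nat.findGreatest P n) := Nat.findGreatest_spec (Nat.zero_le n) hP0
  obtain ⟨v, hv, hv0, hvo⟩ := hr
  refine ⟨Nat.findGreatest P n, v, hv, hv0, hvo, ?_⟩
  intro y hy hyv
  by_contra hy0
  have hny : nm ρ g p *ᵥ y = (p : ℤ) • y := nm_of_fixed hy
  have hp0 : (p : ℤ) ≠ 0 := by exact_mod_cast hp.ne_zero
  have hz : ∀ i, ip B ((p : ℤ) • y) (v i) = 0 := by
    intro i
    rw [ip_smul_left, hyv i, mul_zero]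
  have hz' : ∀ i, ip B (v i) ((p : ℤ) • y) = 0 := by
    intro i
    rw [ip_comm B hs, hz i]
  have hP : P (Nat.findGreatest P n + 1) := by
    refine ⟨Fin.snoc (α := fun _ => Fin n → ℤ) v ((p : ℤ) • y), ?_, ?_, ?_⟩
    · intro i
      refine Fin.lastCases ?_ (fun j => ?_) i
      · exact ⟨y, by rw [Fin.snoc_last, hny]⟩
      · obtain ⟨z, hzz⟩ := hv j
        exact ⟨z, by rw [Fin.snoc_castSucc, hzz]⟩
    · intro i
      refine Fin.lastCases ?_ (fun j => ?_) i
      · rw [Fin.snoc_last]
        exact smul_ne_zero hp0 hy0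
      · rw [Fin.snoc_castSucc]
        exact hv0 j
    · intro i
      refine Fin.lastCases ?_ (fun i' => ?_) i
      · intro j
        refine Fin.lastCases ?_ (fun j' => ?_) j
        · intro h
          exact absurd rfl h
        · intro _
          rw [Fin.snoc_last, Fin.snoc_castSucc]
          exact hz j'
      · intro j
        refine Fin.lastCases ?_ (fun j' => ?_) j
        · intro _
          rw [Fin.snoc_last, Fin.snoc_castSucc]
          exact hz' i'
        · intro h
          rw [Fin.snoc_castSucc, Fin.snoc_castSucc]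
          refine hvo i' j' ?_
          intro h2
          exact h (by rw [h2])
  have h1 := Nat.le_findGreatest (hPn _ hP) hP
  omega

end Pool.Agent.H90.TS
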