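import Mathlib
import Pool.Agent.H90.TS.Fam1

set_option autoImplicit false

/-!
A maximal orthogonal family of norms `N z` (`N = 1 + g + ... + g ^ (p - 1)`), and its size
through the trace of `N` (helper90, MP_660bdc_al).

`exists_family`: take an orthogonal family of nonzero vectors of the form `N z` of maximal size
(orthogonal nonzero vectors are linearly independent, so the size is at most `n`).  If `g y = y`
and `y` is orthogonal to the family then `p • y = N y` is too, so `p • y = 0` by maximality.

`family_card`: for every `z`, `N z` is fixed and `(N z, v i) = p (z, v i)`, so over the rationals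
`N z = ∑ i, p (z, v i) / (v i, v i) • v i`; take traces.
-/

namespace Pool.Agent.H90.TS

open Matrix

variable {n : ℕ} {B : Matrix (Fin n) (Fin n) ℤ} {G : Type} [Group G]
  {ρ : G →* Matrix (Fin n) (Fin n) ℤ}

theorem family_card (hs : Bᵀ = B) (hpos : ∀ x : Fin n → ℤ, x ≠ 0 → 0 < ip B x x)
    (hiso : ∀ g, (ρ g)ᵀ * B * ρ g = B)
    {p : ℕ} (hp : p.Prime) {g : G} (hg : orderOf g = p) {r : ℕ} (v : Fin r → Fin n → ℤ)
    (hv : ∀ i, ∃ z, v i = nm ρ g p *ᵥ z) (hv0 : ∀ i, v i ≠ 0)
    (hvo : ∀ i j, i ≠ j → ip B (v i) (v j) = 0)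
    (hvc : ∀ y, ρ g *ᵥ y = y → (∀ i, ip B y (v i) = 0) → y = 0) :
    (p : ℤ) * r = (nm ρ g p).trace := by
  classical
  set q : Fin r → ℤ := fun i => ip B (v i) (v i) with hq
  have hqpos : ∀ i, 0 < q i := fun i => hpos _ (hv0 i)
  set D : ℤ := ∏ i, q i with hD
  have hDpos : 0 < D := Finset.prod_pos fun i _ => hqpos i
  set E : Fin r → ℤ := fun i => ∏ k ∈ Finset.univ.erase i, q k with hE
  have hED : ∀ i, q i * E i = D := fun i => Finset.mul_prod_erase _ _ (Finset.mem_univ i)
  have hfix : ∀ i, ρ g *ᵥ v i = v i := by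
    intro i
    obtain ⟨z, hz⟩ := hv i
    rw [hz]
    exact nm_fixed hg z
  have hip : ∀ z i, ip B (nm ρ g p *ᵥ z) (v i) = p * ip B z (v i) := by
    intro z i
    rw [ip_nm hiso hg, nm_of_fixed (hfix i), ip_smul_right]
  have key : ∀ z, D • (nm ρ g p *ᵥ z) = ∑ i, (E i * (p * ip B z (v i))) • v i := by
    intro z
    refine sub_eq_zero.mp (hvc _ ?_ ?_)
    · rw [mulVec_sub, mulVec_smul, nm_fixed hg, mulVec_sum]
      congr 1
      refine Finset.sum_congr rfl fun i _ => ?_
      rw [mulVec_smul, hfix]
    · intro j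
      rw [ip_sub_left, ip_smul_left, ip_sum_left, hip, Finset.sum_eq_single j]
      · rw [ip_smul_left, ← hED j]
        show q j * E j * (p * ip B z (v j)) - E j * (p * ip B z (v j)) * q j = 0
        ring
      · intro i _ hij
        rw [ip_smul_left, hvo i j hij, mul_zero]
      · intro h
        exact absurd (Finset.mem_univ j) h
  have hone : ∀ i, ∑ j, v i j * ip B (Pi.single j 1) (v i) = q i := by
    intro i
    have h1 : ∀ j, ip B (Pi.single j 1) (v i) = (B *ᵥ v i) j := by
      intro j
      unfold ip
      rw [single_one_dotProduct]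
    simp only [h1]
    rfl
  have htr : D * ((p : ℤ) * r) = D * (nm ρ g p).trace := by
    have h1 : ∀ j, D * (nm ρ g p) j j
        = ∑ i, (E i * (p * ip B (Pi.single j 1) (v i))) * v i j := by
      intro j
      have h2 := congrFun (key (Pi.single j 1)) j
      rw [mulVec_single_one] at h2
      rw [Finset.sum_apply] at h2
      exact h2
    unfold Matrix.trace
    rw [Finset.mul_sum]
    simp only [diag_apply, h1]
    rw [Finset.sum_comm]
    have h3 : ∀ i, ∑ j, (E i * (p * ip B (Pi.single j 1) (v i))) * v i j = D * p := by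
      intro i
      calc ∑ j, (E i * (p * ip B (Pi.single j 1) (v i))) * v i j
          = E i * p * ∑ j, v i j * ip B (Pi.single j 1) (v i) := by
            rw [Finset.mul_sum]
            refine Finset.sum_congr rfl fun j _ => ?_
            ring
        _ = D * p := by
            rw [hone i, ← hED i]
            ring
    rw [Finset.sum_congr rfl fun i _ => h3 i, Finset.sum_const, Finset.card_univ,
      Fintype.card_fin, nsmul_eq_mul]
    ring
  exact mul_left_cancel₀ hDpos.ne' htr

end Pool.Agent.H90.TS
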