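import Mathlib
import Pool.Agent.H11.Smyth.Theta1

set_option autoImplicit false

/-!
Behaviour of the Jacobi theta function at the cusp `1 / d` (helper90, MP_660bdc_al).
Use `Pool.Agent.H11.Smyth.theta1` with `c = π * e * d ^ 2`, `b = m / d`, and
`Int.divModEquiv d : ℤ ≃ ℤ × Fin d` to split the sum over `n = d * k + m`.
-/

namespace Pool.Agent.H90.TS

open Complex Filter Topology

/-- splitting of the theta function near the cusp `1 / d` into residue classes. -/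
theorem theta_split (d : ℕ) (hd : 0 < d) (hev : Even d) (e : ℝ) (he : 0 < e) :
    jacobiTheta (1 / d + e * I) =
      ∑ m ∈ Finset.range d, cexp (Real.pi * I * (m : ℂ) ^ 2 / d) *
        ((∑' k : ℤ, Real.exp (-(Real.pi * e * d ^ 2) * ((k : ℝ) + (m : ℝ) / d) ^ 2) : ℝ) : ℂ) := by
  haveI : NeZero d := ⟨hd.ne'⟩
  have hdc : (d : ℂ) ≠ 0 := by exact_mod_cast hd.ne'
  have him : ((1 : ℂ) / d + e * I).im = e := by
    have : ((1 : ℂ) / d + e * I) = ((1 / d : ℝ) : ℂ) + ((e : ℝ) : ℂ) * I := by push_cast; rfl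
    rw [this]
    simp
  have hs : Summable (fun n : ℤ => cexp (Real.pi * I * (n : ℂ) ^ 2 * (1 / d + e * I))) := by
    have h1 : Summable (fun n : ℤ => jacobiTheta₂_term n 0 (1 / d + e * I)) := by
      rw [summable_jacobiTheta₂_term_iff, him]
      exact he
    refine h1.congr fun n => ?_
    unfold jacobiTheta₂_term
    congr 1
    ring
  unfold jacobiTheta
  rw [← ((Int.divModEquiv d).trans (Equiv.prodComm ℤ (Fin d))).symm.tsum_eq]
  have hs' : Summable (fun p : Fin d × ℤ => cexp (Real.pi * I *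
      ((((Int.divModEquiv d).trans (Equiv.prodComm ℤ (Fin d))).symm p : ℤ) : ℂ) ^ 2 * (1 / d + e * I))) :=
    (((Int.divModEquiv d).trans (Equiv.prodComm ℤ (Fin d))).symm.summable_iff
      (f := fun n : ℤ => cexp (Real.pi * I * (n : ℂ) ^ 2 * (1 / d + e * I)))).2 hs
  rw [hs'.tsum_prod, tsum_fintype, Finset.sum_range]
  refine Finset.sum_congr rfl fun m _ => ?_
  rw [Complex.ofReal_tsum, ← tsum_mul_left]
  refine tsum_congr fun k => ?_
  have e1 : ((((Int.divModEquiv d).trans (Equiv.prodComm ℤ (Fin d))).symm (m, k) : ℤ)) = k * d + ((m : ℕ) : ℤ) := by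
    rfl
  rw [e1]
  obtain ⟨t, ht⟩ := hev
  have hd2 : (d : ℂ) = 2 * t := by
    rw [ht]
    push_cast
    ring
  have e2 : (Real.pi * I * ((k * d + ((m : ℕ) : ℤ) : ℤ) : ℂ) ^ 2 * (1 / d + e * I) : ℂ) =
      (Real.pi * I * ((m : ℕ) : ℂ) ^ 2 / d) + ((k ^ 2 * t + k * ((m : ℕ) : ℤ) : ℤ) : ℂ) * (2 * Real.pi * I) +
        ((-(Real.pi * e * d ^ 2) * ((k : ℝ) + ((m : ℕ) : ℝ) / d) ^ 2 : ℝ) : ℂ) := by
    push_cast
    have hI : I ^ 2 = -1 := Complex.I_sq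
    have e3 : ((k : ℂ) * d + (m : ℕ)) ^ 2 * (1 / d) = ((m : ℕ) : ℂ) ^ 2 / d + 2 * ((k : ℂ) ^ 2 * t + k * (m : ℕ)) := by
      have e4 : (k : ℂ) ^ 2 * t * 2 = k ^ 2 * d := by rw [hd2]; ring
      field_simp
      linear_combination (-(d : ℂ)) * e4
    have e5 : ((k : ℂ) + ((m : ℕ) : ℂ) / d) ^ 2 * d ^ 2 = ((k : ℂ) * d + (m : ℕ)) ^ 2 := by
      field_simp
    linear_combination (Real.pi * I) * e3 + ((k : ℂ) * d + (m : ℕ)) ^ 2 * Real.pi * e * hI + Real.pi * e * e5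
  rw [e2, Complex.exp_add, Complex.exp_add, Complex.exp_int_mul_two_pi_mul_I, mul_one, Complex.ofReal_exp]

theorem lim_one (d : ℕ) (hd : 0 < d) (b : ℝ) :
    Tendsto (fun e : ℝ => Real.sqrt e * ∑' k : ℤ, Real.exp (-(Real.pi * e * d ^ 2) * ((k : ℝ) + b) ^ 2)) (𝓝[>] 0)
      (𝓝 (1 / d : ℝ)) := by
  have hd0 : (0 : ℝ) < d := by exact_mod_cast hd
  obtain ⟨A, hA, h⟩ := Pool.Agent.H11.Smyth.theta1 (Real.pi * d ^ 2) (by positivity)
  rw [tendsto_iff_norm_sub_tendsto_zero]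
  have hlim : Tendsto (fun e : ℝ => A / d * Real.exp (-(Real.pi / d ^ 2 * e⁻¹))) (𝓝[>] 0) (𝓝 0) := by
    have h1 : Tendsto (fun e : ℝ => Real.pi / d ^ 2 * e⁻¹) (𝓝[>] 0) atTop :=
      Tendsto.const_mul_atTop (by positivity) tendsto_inv_nhdsGT_zero
    have h2 := (Real.tendsto_exp_neg_atTop_nhds_zero.comp h1).const_mul (A / d)
    rw [mul_zero] at h2
    exact h2
  refine squeeze_zero' (Eventually.of_forall fun e => norm_nonneg _) ?_ hlim
  have h01 : Set.Ioo (0 : ℝ) 1 ∈ 𝓝[>] (0 : ℝ) := Ioo_mem_nhdsGT one_pos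
  filter_upwards [h01] with e he
  have he0 : 0 < e := he.1
  have hc : 0 < Real.pi * e * d ^ 2 := by positivity
  have hcc : Real.pi * e * d ^ 2 ≤ Real.pi * d ^ 2 := by
    have : Real.pi * e * d ^ 2 = (Real.pi * d ^ 2) * e := by ring
    rw [this]
    exact mul_le_of_le_one_right (by positivity) he.2.le
  have h1 := h (Real.pi * e * d ^ 2) b hc hcc
  have hsq : Real.sqrt (Real.pi / (Real.pi * e * d ^ 2)) = 1 / (Real.sqrt e * d) := by
    have e1 : Real.pi / (Real.pi * e * d ^ 2) = (1 / (Real.sqrt e * d)) ^ 2 := by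
      rw [div_pow, mul_pow, Real.sq_sqrt he0.le]
      field_simp
    rw [e1, Real.sqrt_sq (by positivity)]
  rw [hsq] at h1
  have hse : 0 < Real.sqrt e := Real.sqrt_pos.2 he0
  have e2 : Real.sqrt e * ∑' k : ℤ, Real.exp (-(Real.pi * e * d ^ 2) * ((k : ℝ) + b) ^ 2) - 1 / d =
      Real.sqrt e * (∑' k : ℤ, Real.exp (-(Real.pi * e * d ^ 2) * ((k : ℝ) + b) ^ 2) - 1 / (Real.sqrt e * d)) := by
    field_simp
  rw [e2, norm_mul, Real.norm_eq_abs, Real.norm_eq_abs, abs_of_pos hse]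
  calc Real.sqrt e * |∑' k : ℤ, Real.exp (-(Real.pi * e * d ^ 2) * ((k : ℝ) + b) ^ 2) - 1 / (Real.sqrt e * d)|
      ≤ Real.sqrt e * (A * Real.exp (-Real.pi ^ 2 / (Real.pi * e * d ^ 2)) * (1 / (Real.sqrt e * d))) :=
        mul_le_mul_of_nonneg_left h1 hse.le
    _ = A / d * Real.exp (-(Real.pi / d ^ 2 * e⁻¹)) := by
        have e3 : -Real.pi ^ 2 / (Real.pi * e * d ^ 2) = -(Real.pi / d ^ 2 * e⁻¹) := by
          field_simp
        rw [e3]
        field_simp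

theorem theta_lim1 (d : ℕ) (hd : 0 < d) (hev : Even d) :
    Tendsto (fun e : ℝ => (Real.sqrt e : ℂ) * jacobiTheta (1 / d + e * I)) (𝓝[>] 0)
      (𝓝 ((1 / d : ℂ) * ∑ m ∈ Finset.range d, cexp (Real.pi * I * (m : ℂ) ^ 2 / d))) := by
  have h1 : ∀ m : ℕ, Tendsto (fun e : ℝ => ((Real.sqrt e *
      ∑' k : ℤ, Real.exp (-(Real.pi * e * d ^ 2) * ((k : ℝ) + (m : ℝ) / d) ^ 2) : ℝ) : ℂ)) (𝓝[>] 0)
      (𝓝 ((1 / d : ℝ) : ℂ)) := fun m =>
    (Complex.continuous_ofReal.tendsto _).comp (lim_one d hd ((m : ℝ) / d))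
  have h2 : Tendsto (fun e : ℝ => ∑ m ∈ Finset.range d, cexp (Real.pi * I * (m : ℂ) ^ 2 / d) * ((Real.sqrt e *
      ∑' k : ℤ, Real.exp (-(Real.pi * e * d ^ 2) * ((k : ℝ) + (m : ℝ) / d) ^ 2) : ℝ) : ℂ)) (𝓝[>] 0)
      (𝓝 (∑ m ∈ Finset.range d, cexp (Real.pi * I * (m : ℂ) ^ 2 / d) * ((1 / d : ℝ) : ℂ))) :=
    tendsto_finset_sum _ fun m _ => (h1 m).const_mul _
  have e1 : (1 / d : ℂ) * ∑ m ∈ Finset.range d, cexp (Real.pi * I * (m : ℂ) ^ 2 / d) =
      ∑ m ∈ Finset.range d, cexp (Real.pi * I * (m : ℂ) ^ 2 / d) * ((1 / d : ℝ) : ℂ) := by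
    rw [Finset.mul_sum]
    refine Finset.sum_congr rfl fun m _ => ?_
    push_cast
    ring
  rw [e1]
  refine h2.congr' ?_
  filter_upwards [self_mem_nhdsWithin] with e he
  rw [theta_split d hd hev e he, Finset.mul_sum]
  refine Finset.sum_congr rfl fun m _ => ?_
  rw [Complex.ofReal_mul]
  ring

end Pool.Agent.H90.TS
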