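import Mathlib

set_option autoImplicit false

namespace Pool.Agent.H90.TS

open Complex Filter Topology

theorem period_even (d : ℕ) (hev : Even d) (t : ℂ) : jacobiTheta₂ 0 (t + d) = jacobiTheta₂ 0 t := by
  obtain ⟨q, rfl⟩ := hev
  induction q with
  | zero => simp
  | succ q ih =>
    have : t + ((q + 1 + (q + 1) : ℕ) : ℂ) = (t + ((q + q : ℕ) : ℂ)) + 2 := by push_cast; ring
    rw [this, jacobiTheta₂_add_right, ih]

theorem fe0 (t : ℂ) : jacobiTheta₂ 0 t = 1 / (-I * t) ^ (1 / 2 : ℂ) * jacobiTheta₂ 0 (-1 / t) := by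
  have := jacobiTheta₂_functional_equation 0 t
  simpa using this

theorem cpow_mul_pos (r : ℝ) (hr : 0 < r) (z : ℂ) (hz : z ≠ 0) :
    ((r : ℂ) * z) ^ (1 / 2 : ℂ) = (Real.sqrt r : ℂ) * z ^ (1 / 2 : ℂ) := by
  have hrc : (r : ℂ) ≠ 0 := by exact_mod_cast hr.ne'
  rw [cpow_def_of_ne_zero (mul_ne_zero hrc hz), cpow_def_of_ne_zero hz, log_ofReal_mul hr hz,
    add_mul, Complex.exp_add]
  congr 1
  have h1 : Real.sqrt r = Real.exp (Real.log r * (1 / 2)) := by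
    rw [Real.sqrt_eq_rpow, Real.rpow_def_of_pos hr]
  rw [h1]; push_cast; rfl

theorem theta_fe (d : ℕ) (hd : 0 < d) (hev : Even d) (e : ℝ) (he : 0 < e) :
    (Real.sqrt e : ℂ) * jacobiTheta (1 / d + e * I) =
      (1 / d : ℂ) * (1 / (-I * (1 / d + e * I)) ^ (1 / 2 : ℂ)) *
        (1 / ((1 + e * d * I)⁻¹) ^ (1 / 2 : ℂ)) *
        jacobiTheta (-1 / d + (1 / (d ^ 2 * e) : ℝ) * I) := by
  have hdr : (0 : ℝ) < d := by exact_mod_cast hd
  have hdc : (d : ℂ) ≠ 0 := by exact_mod_cast hd.ne'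
  have hec : (e : ℂ) ≠ 0 := by exact_mod_cast he.ne'
  set τ : ℂ := 1 / d + e * I with hτ
  have hτ0 : τ ≠ 0 := by
    intro h
    have := congrArg Complex.im h
    rw [hτ] at this
    simp at this
    exact he.ne' this
  have h1e : (1 + e * d * I : ℂ) ≠ 0 := by
    intro h
    have := congrArg Complex.re h
    simp at this
  have hdτ : (d : ℂ) * τ = 1 + e * d * I := by
    rw [hτ]; field_simp
  set w : ℂ := -1 / τ + d with hw
  have hw1 : w = ((d ^ 2 * e : ℝ) : ℂ) * I * (1 + e * d * I)⁻¹ := by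
    rw [hw, ← hdτ]
    push_cast
    have : (-1 / τ + d : ℂ) = (d * τ - 1) / τ := by field_simp; ring
    rw [this, hdτ, add_sub_cancel_left, ← hdτ, mul_inv]
    field_simp
  have hw0 : w ≠ 0 := by
    rw [hw1]
    have : ((d ^ 2 * e : ℝ) : ℂ) ≠ 0 := by exact_mod_cast (by positivity : (d ^ 2 * e : ℝ) ≠ 0)
    exact mul_ne_zero (mul_ne_zero this I_ne_zero) (inv_ne_zero h1e)
  have hIw : -I * w = ((d ^ 2 * e : ℝ) : ℂ) * (1 + e * d * I)⁻¹ := by
    rw [hw1]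
    linear_combination (-(((d ^ 2 * e : ℝ) : ℂ) * (1 + e * d * I)⁻¹)) * I_sq
  have hinvw : -1 / w = -1 / d + (1 / (d ^ 2 * e) : ℝ) * I := by
    rw [hw1]
    push_cast
    rw [div_eq_iff (by
      refine mul_ne_zero (mul_ne_zero ?_ I_ne_zero) (inv_ne_zero h1e)
      exact mul_ne_zero (pow_ne_zero _ hdc) hec)]
    have e1 : (-1 / (d : ℂ) + 1 / ((d : ℂ) ^ 2 * e) * I) * ((d : ℂ) ^ 2 * e * I * (1 + e * d * I)⁻¹) =
        (-(e * d * I) + I ^ 2) * (1 + e * d * I)⁻¹ := by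
      generalize (1 + (e : ℂ) * d * I)⁻¹ = u
      field_simp
    rw [e1, I_sq]
    have e2 : (-(e * d * I) + -1 : ℂ) = -(1 + e * d * I) := by ring
    rw [e2, neg_mul, mul_inv_cancel₀ h1e]
  rw [jacobiTheta_eq_jacobiTheta₂, jacobiTheta_eq_jacobiTheta₂, fe0 τ,
    ← period_even d hev (-1 / τ), ← hw, fe0 w, hinvw, hIw,
    cpow_mul_pos _ (by positivity) _ (inv_ne_zero h1e)]
  have hsq : Real.sqrt ((d : ℝ) ^ 2 * e) = d * Real.sqrt e := by
    rw [Real.sqrt_mul (by positivity), Real.sqrt_sq hdr.le]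
  rw [hsq]
  have hse : (Real.sqrt e : ℂ) ≠ 0 := by exact_mod_cast (Real.sqrt_pos.mpr he).ne'
  push_cast
  have hcp : ((1 + e * d * I : ℂ)⁻¹) ^ (1 / 2 : ℂ) ≠ 0 := by
    rw [Ne, cpow_eq_zero_iff]
    exact fun h => inv_ne_zero h1e h.1
  field_simp

end Pool.Agent.H90.TS
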