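import Mathlib
import Pool.Agent.H90.TS.Gb1

set_option autoImplicit false

namespace Pool.Agent.H90.TS

open Complex Filter Topology

theorem limA (d : ℕ) (hd : 0 < d) :
    Tendsto (fun e : ℝ => 1 / (-I * (1 / (d : ℂ) + e * I)) ^ (1 / 2 : ℂ)) (𝓝 0)
      (𝓝 (Real.sqrt d * cexp (Real.pi * I / 4))) := by
  have hdr : (0 : ℝ) < d := by exact_mod_cast hd
  have hdc : (d : ℂ) ≠ 0 := by exact_mod_cast hd.ne'
  have h0 : -I * (1 / (d : ℂ) + ((0 : ℝ) : ℂ) * I) = ((1 / d : ℝ) : ℂ) * (-I) := by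
    push_cast; ring
  have hval : 1 / (-I * (1 / (d : ℂ) + ((0 : ℝ) : ℂ) * I)) ^ (1 / 2 : ℂ) =
      Real.sqrt d * cexp (Real.pi * I / 4) := by
    rw [h0, cpow_mul_pos _ (by positivity) _ (neg_ne_zero.mpr I_ne_zero),
      cpow_def_of_ne_zero (neg_ne_zero.mpr I_ne_zero), Complex.log_neg_I]
    rw [Real.sqrt_div (by norm_num), Real.sqrt_one]
    have h1 : cexp (-(Real.pi / 2) * I * (1 / 2)) = (cexp (Real.pi * I / 4))⁻¹ := by
      rw [← Complex.exp_neg]; congr 1; ring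
    rw [h1]
    have h2 : (Real.sqrt d : ℂ) ≠ 0 := by exact_mod_cast (Real.sqrt_pos.mpr hdr).ne'
    push_cast
    field_simp
  rw [← hval]
  have hslit : -I * (1 / (d : ℂ) + ((0 : ℝ) : ℂ) * I) ∈ slitPlane := by
    rw [h0]
    right
    simp [hd.ne']
  have hne : (-I * (1 / (d : ℂ) + ((0 : ℝ) : ℂ) * I)) ^ (1 / 2 : ℂ) ≠ 0 := by
    rw [Ne, cpow_eq_zero_iff]
    exact fun h => slitPlane_ne_zero hslit h.1
  have hcont : ContinuousAt (fun e : ℝ => 1 / (-I * (1 / (d : ℂ) + (e : ℂ) * I)) ^ (1 / 2 : ℂ)) 0 := by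
    have hc1 : ContinuousAt (fun e : ℝ => (-I * (1 / (d : ℂ) + (e : ℂ) * I)) ^ (1 / 2 : ℂ)) 0 := by
      refine ContinuousAt.cpow (f := fun e : ℝ => -I * (1 / (d : ℂ) + (e : ℂ) * I)) ?_
        continuousAt_const hslit
      fun_prop
    exact continuousAt_const.div hc1 hne
  exact hcont

theorem limB (d : ℕ) :
    Tendsto (fun e : ℝ => 1 / ((1 + (e : ℂ) * d * I)⁻¹) ^ (1 / 2 : ℂ)) (𝓝 0) (𝓝 1) := by
  have hval : 1 / ((1 + ((0 : ℝ) : ℂ) * d * I)⁻¹) ^ (1 / 2 : ℂ) = 1 := by simp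
  have hcont : ContinuousAt (fun e : ℝ => 1 / ((1 + (e : ℂ) * d * I)⁻¹) ^ (1 / 2 : ℂ)) 0 := by
    apply ContinuousAt.div continuousAt_const
    · apply ContinuousAt.cpow _ continuousAt_const (by simp)
      apply ContinuousAt.inv₀ (by fun_prop) (by simp)
    · simp
  have := hcont.tendsto
  rwa [hval] at this

theorem limC (d : ℕ) (hd : 0 < d) :
    Tendsto (fun e : ℝ => jacobiTheta (-1 / d + (1 / (d ^ 2 * e) : ℝ) * I)) (𝓝[>] 0) (𝓝 1) := by
  have hdr : (0 : ℝ) < d := by exact_mod_cast hd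
  have him : ∀ e : ℝ, (-1 / (d : ℂ) + ((1 / (d ^ 2 * e) : ℝ) : ℂ) * I).im = 1 / (d ^ 2 * e) := by
    intro e
    have h1 : (-1 / (d : ℂ)) = ((-1 / d : ℝ) : ℂ) := by push_cast; rfl
    rw [h1, add_im, ofReal_im, zero_add, im_ofReal_mul, I_im, mul_one]
  have h1 : Tendsto (fun e : ℝ => (-1 / (d : ℂ) + ((1 / (d ^ 2 * e) : ℝ) : ℂ) * I)) (𝓝[>] 0)
      (comap im atTop) := by
    rw [tendsto_comap_iff]
    have : (im ∘ fun e : ℝ => (-1 / (d : ℂ) + ((1 / (d ^ 2 * e) : ℝ) : ℂ) * I)) =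
        fun e : ℝ => (1 / d ^ 2 : ℝ) * e⁻¹ := by
      funext e
      simp only [Function.comp]
      rw [him e]; field_simp
    rw [this]
    exact Tendsto.const_mul_atTop (by positivity) tendsto_inv_nhdsGT_zero
  have h2 := isBigO_at_im_infty_jacobiTheta_sub_one.comp_tendsto h1
  have h3 : Tendsto ((fun τ : ℂ => Real.exp (-Real.pi * τ.im)) ∘
      fun e : ℝ => (-1 / (d : ℂ) + ((1 / (d ^ 2 * e) : ℝ) : ℂ) * I)) (𝓝[>] 0) (𝓝 0) := by
    have h4 : Tendsto (fun y : ℝ => Real.exp (-Real.pi * y)) atTop (𝓝 0) := by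
      apply Real.tendsto_exp_atBot.comp
      exact Tendsto.const_mul_atTop_of_neg (by linarith [Real.pi_pos]) tendsto_id
    have h5 : Tendsto (fun e : ℝ => (-1 / (d : ℂ) + ((1 / (d ^ 2 * e) : ℝ) : ℂ) * I).im) (𝓝[>] 0)
        atTop := tendsto_comap_iff.mp h1
    exact h4.comp h5
  have h6 := h2.trans_tendsto h3
  have h7 := h6.add_const 1
  simpa [Function.comp] using h7

theorem theta_lim2 (d : ℕ) (hd : 0 < d) (hev : Even d) :
    Tendsto (fun e : ℝ => (Real.sqrt e : ℂ) * jacobiTheta (1 / d + e * I)) (𝓝[>] 0)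
      (𝓝 ((1 / d : ℂ) * (Real.sqrt d * cexp (Real.pi * I / 4)))) := by
  have h1 := (((limA d hd).mono_left (nhdsWithin_le_nhds (s := Set.Ioi 0))).const_mul
    (1 / d : ℂ)).mul ((limB d).mono_left (nhdsWithin_le_nhds (s := Set.Ioi 0)))
  have h2 := h1.mul (limC d hd)
  rw [mul_one, mul_one] at h2
  refine h2.congr' ?_
  filter_upwards [self_mem_nhdsWithin] with e he
  exact (theta_fe d hd hev e he).symm

end Pool.Agent.H90.TS
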