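import Mathlib
import Pool.Agent.H90.TS.Ga
import Pool.Agent.H90.TS.Gb

set_option autoImplicit false

/-!
Evaluation of the quadratic Gauss sum of even modulus with its sign (helper90, MP_660bdc_al).
-/

namespace Pool.Agent.H90.TS

open Complex Filter Topology

theorem gs_even (d : ℕ) (hd : 0 < d) (hev : Even d) :
    ∑ m ∈ Finset.range d, cexp (Real.pi * I * (m : ℂ) ^ 2 / d) =
      Real.sqrt d * cexp (Real.pi * I / 4) := by
  have h := tendsto_nhds_unique (theta_lim1 d hd hev) (theta_lim2 d hd hev)
  have hdc : (1 / d : ℂ) ≠ 0 := by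
    have : (d : ℂ) ≠ 0 := by exact_mod_cast hd.ne'
    exact one_div_ne_zero this
  exact mul_left_cancel₀ hdc h

end Pool.Agent.H90.TS
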