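import Mathlib
import Pool.Agent.H90.TS.Def
import Pool.Agent.H90.TS.Gs

set_option autoImplicit false

/-!
The quadratic exponential on a product of cyclic groups of even order (helper90, MP_660bdc_al).
-/

namespace Pool.Agent.H90.TS

open Matrix Complex

/-- quadratic exponential on `ZMod d`, `d` even. -/
noncomputable def qe (d : ℕ) (a : ZMod d) : ℂ := cexp (Real.pi * I * ((a.val : ℂ) ^ 2 / d))

theorem qe_int (d : ℕ) [NeZero d] (hev : Even d) (k : ℤ) :
    qe d (k : ZMod d) = cexp (Real.pi * I * ((k : ℂ) ^ 2 / d)) := by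
  obtain ⟨c, hc⟩ := hev
  have hd : (d : ℂ) ≠ 0 := by exact_mod_cast NeZero.ne d
  have h1 : (((k : ZMod d).val : ℤ)) = k % d := ZMod.val_intCast k
  have h2 : (((k : ZMod d).val : ℂ)) = ((k % d : ℤ) : ℂ) := by exact_mod_cast congrArg (Int.cast : ℤ → ℂ) h1
  unfold qe
  rw [h2]
  set s : ℤ := k % d with hs
  set q : ℤ := k / d with hq
  have h3 : (k : ℂ) = d * q + s := by
    have : k = d * q + s := by rw [hs, hq]; exact (Int.mul_ediv_add_emod k d).symm
    exact_mod_cast congrArg (Int.cast : ℤ → ℂ) this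
  rw [Complex.exp_eq_exp_iff_exists_int]
  refine ⟨-(c * q ^ 2 + q * s), ?_⟩
  rw [h3]
  have hc' : (d : ℂ) = 2 * c := by rw [hc]; push_cast; ring
  push_cast
  field_simp
  rw [hc']
  ring

/-- quadratic exponential on the product. -/
noncomputable def EE {r : ℕ} (d : Fin r → ℕ) (m : (i : Fin r) → ZMod (d i)) : ℂ :=
  ∏ i, qe (d i) (m i)

theorem EE_int {r : ℕ} (d : Fin r → ℕ) [∀ i, NeZero (d i)] (hev : ∀ i, Even (d i))
    (l : Fin r → ℤ) :
    EE d (fun i => (l i : ZMod (d i))) = cexp (Real.pi * I * ∑ i, ((l i : ℂ) ^ 2 / d i)) := by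
  unfold EE
  rw [Finset.mul_sum, Complex.exp_sum]
  exact Finset.prod_congr rfl fun i _ => qe_int (d i) (hev i) (l i)

theorem EE_add {r : ℕ} (d : Fin r → ℕ) [∀ i, NeZero (d i)] (hev : ∀ i, Even (d i))
    (l u : Fin r → ℤ) :
    EE d (fun i => ((l i + u i : ℤ) : ZMod (d i))) =
      EE d (fun i => (l i : ZMod (d i))) * EE d (fun i => (u i : ZMod (d i))) *
        cexp (2 * Real.pi * I * ∑ i, ((l i : ℂ) * u i / d i)) := by
  rw [EE_int d hev, EE_int d hev, EE_int d hev, ← Complex.exp_add, ← Complex.exp_add]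
  congr 1
  rw [Finset.mul_sum, Finset.mul_sum, Finset.mul_sum, Finset.mul_sum, ← Finset.sum_add_distrib,
    ← Finset.sum_add_distrib]
  refine Finset.sum_congr rfl fun i _ => ?_
  push_cast
  ring

theorem EE_sum {r : ℕ} (d : Fin r → ℕ) [∀ i, NeZero (d i)] (hev : ∀ i, Even (d i)) :
    ∑ m : (i : Fin r) → ZMod (d i), EE d m =
      ((∏ i, Real.sqrt (d i) : ℝ) : ℂ) * cexp (Real.pi * I * r / 4) := by
  have h1 : ∀ i, ∑ a : ZMod (d i), qe (d i) a = (Real.sqrt (d i) : ℂ) * cexp (Real.pi * I / 4) := by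
    intro i
    rw [← gs_even (d i) (Nat.pos_of_ne_zero (NeZero.ne _)) (hev i)]
    symm
    refine Finset.sum_nbij' (fun m : ℕ => (m : ZMod (d i))) (fun a => a.val) ?_ ?_ ?_ ?_ ?_
    · intro m _; exact Finset.mem_univ _
    · intro a _; exact Finset.mem_range.mpr (ZMod.val_lt a)
    · intro m hm; exact ZMod.val_cast_of_lt (Finset.mem_range.mp hm)
    · intro a _; exact ZMod.natCast_zmod_val a
    · intro m hm
      unfold qe
      rw [ZMod.val_cast_of_lt (Finset.mem_range.mp hm)]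
      congr 1
      ring
  unfold EE
  have h2 := Finset.prod_univ_sum (fun i : Fin r => (Finset.univ : Finset (ZMod (d i))))
    (fun i a => qe (d i) a)
  rw [Fintype.piFinset_univ] at h2
  rw [← h2, Finset.prod_congr rfl fun i _ => h1 i, Finset.prod_mul_distrib, Finset.prod_const,
    ← Complex.exp_nat_mul]
  push_cast
  rw [Finset.card_univ, Fintype.card_fin]
  congr 2
  ring

end Pool.Agent.H90.TS
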