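import Mathlib
import Pool.Agent.H90.TS.Mga

set_option autoImplicit false

/-!
Parseval for a complete orthogonal family, and the hom to the product of cyclic groups
(helper90, MP_660bdc_al).
-/

namespace Pool.Agent.H90.TS

open Matrix Complex

theorem parseval {n : ℕ} {B : Matrix (Fin n) (Fin n) ℤ} (hs : Bᵀ = B)
    (F : AddSubgroup (Fin n → ℤ)) {r : ℕ} (v : Fin r → Fin n → ℤ) (hv : ∀ i, v i ∈ F)
    (hpos : ∀ i, 0 < ip B (v i) (v i))
    (horth : ∀ i j, i ≠ j → ip B (v i) (v j) = 0)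
    (hcomp : ∀ y ∈ F, (∀ i, ip B y (v i) = 0) → y = 0) {y z : Fin n → ℤ} (hy : y ∈ F) :
    (ip B y z : ℚ) = ∑ i, (ip B y (v i) : ℚ) * ip B z (v i) / ip B (v i) (v i) := by
  classical
  set a : Fin r → ℤ := fun i => ip B (v i) (v i) with ha
  set A : ℤ := ∏ i, a i with hA
  set A' : Fin r → ℤ := fun i => ∏ j ∈ Finset.univ.erase i, a j with hA'
  have hAA : ∀ i, A' i * a i = A := fun i => by
    rw [hA, hA']; exact Finset.prod_erase_mul _ _ (Finset.mem_univ i)
  have hA0 : A ≠ 0 := Finset.prod_ne_zero_iff.mpr fun i _ => (hpos i).ne'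
  set w : Fin n → ℤ := A • y - ∑ i, (A' i * ip B y (v i)) • v i with hw
  have hwF : w ∈ F := F.sub_mem (F.zsmul_mem hy _) (F.sum_mem fun i _ => F.zsmul_mem (hv i) _)
  have hwv : ∀ j, ip B w (v j) = 0 := by
    intro j
    rw [hw, ip_sub_left, ip_smul_left, ip_sum_left, Finset.sum_eq_single j]
    · rw [ip_smul_left, ← hAA j]
      show _ - _ * a j = 0
      ring
    · intro i _ hij
      rw [ip_smul_left, horth i j hij, mul_zero]
    · intro h; exact absurd (Finset.mem_univ j) h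
  have hw0 : w = 0 := hcomp w hwF hwv
  have h1 : A * ip B y z = ∑ i, (A' i * ip B y (v i)) * ip B z (v i) := by
    have : ip B w z = 0 := by rw [hw0, ip_zero_left]
    rw [hw, ip_sub_left, ip_smul_left, ip_sum_left, sub_eq_zero] at this
    rw [this]
    refine Finset.sum_congr rfl fun i _ => ?_
    rw [ip_smul_left, ip_comm B hs (v i) z]
  have hAq : (A : ℚ) ≠ 0 := by exact_mod_cast hA0
  have h2 : (A : ℚ) * (ip B y z : ℚ) = ∑ i, ((A' i : ℚ) * ip B y (v i)) * ip B z (v i) := by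
    exact_mod_cast h1
  apply mul_left_cancel₀ hAq
  rw [h2, Finset.mul_sum]
  refine Finset.sum_congr rfl fun i _ => ?_
  have hai : (ip B (v i) (v i) : ℚ) ≠ 0 := by exact_mod_cast (hpos i).ne'
  have hAi : (A : ℚ) = A' i * ip B (v i) (v i) := by exact_mod_cast (hAA i).symm
  rw [hAi]
  field_simp

/-- The hom to the product of cyclic groups. -/
noncomputable def Phi {n : ℕ} (B : Matrix (Fin n) (Fin n) ℤ) (p : ℕ)
    (F : AddSubgroup (Fin n → ℤ)) {r : ℕ} (v : Fin r → Fin n → ℤ)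
    (hint : ∀ x ∈ F, ∀ i, (p : ℤ) ∣ ip B x (v i)) (d : Fin r → ℕ) :
    F →+ ((i : Fin r) → ZMod (d i)) where
  toFun y := fun i => ((ip B y.1 (v i) / p : ℤ) : ZMod (d i))
  map_zero' := by
    funext i
    simp [ip_zero_left]
  map_add' x y := by
    funext i
    simp only [AddSubgroup.coe_add, Pi.add_apply]
    rw [ip_add_left, Int.add_ediv_of_dvd_left (hint x.1 x.2 i)]
    push_cast
    ring

end Pool.Agent.H90.TS
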