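import Mathlib
import Pool.Agent.H90.TS.Def
import Pool.Agent.H90.TS.Mgb

set_option autoImplicit false

/-!
Milgram's formula (phase) for a pair `T ⊆ F` dual to each other for the form `(x, y) / p`
(helper90, MP_660bdc_al).
-/

namespace Pool.Agent.H90.TS

open Matrix Complex

theorem milgram {n : ℕ} {B : Matrix (Fin n) (Fin n) ℤ} (hs : Bᵀ = B) {p : ℕ} (hp : p.Prime)
    (F T : AddSubgroup (Fin n → ℤ)) (hTF : T ≤ F)
    (hint : ∀ x ∈ F, ∀ t ∈ T, (p : ℤ) ∣ ip B x t) (hev : ∀ t ∈ T, (2 * p : ℤ) ∣ ip B t t)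
    {r : ℕ} (v : Fin r → Fin n → ℤ) (hv : ∀ i, v i ∈ T) (hpos : ∀ i, 0 < ip B (v i) (v i))
    (horth : ∀ i j, i ≠ j → ip B (v i) (v j) = 0)
    (hcomp : ∀ y ∈ F, (∀ i, ip B y (v i) = 0) → y = 0)
    (hdual : ∀ l : Fin r → ℤ, (∀ t ∈ T, ∃ N : ℤ,
      (∑ i, (l i : ℚ) * (ip B t (v i) : ℚ) / (ip B (v i) (v i) : ℚ)) = N) →
      ∃ y ∈ F, ∀ i, ip B y (v i) = p * l i)
    {x0 : Fin n → ℤ} (hx0 : x0 ∈ F) (hx0T : x0 ∉ T) (hpx0 : (p : ℤ) • x0 ∈ T)
    (hgen : ∀ y ∈ F, ∃ k : ℕ, k < p ∧ y - (k : ℤ) • x0 ∈ T) :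
    ∃ c : ℝ, 0 < c ∧ ∑ k ∈ Finset.range p,
      cexp (Real.pi * I * ((k : ℂ) ^ 2 * (ip B x0 x0 : ℂ) / p)) =
        c * cexp (Real.pi * I * r / 4) := by
  classical
  have hp0 : (p : ℤ) ≠ 0 := by exact_mod_cast hp.ne_zero
  have hpc : (p : ℂ) ≠ 0 := by exact_mod_cast hp.ne_zero
  have hpq : (p : ℚ) ≠ 0 := by exact_mod_cast hp.ne_zero
  have hvF : ∀ i, v i ∈ F := fun i => hTF (hv i)
  have hd0 : ∀ i, ∃ d : ℕ, ip B (v i) (v i) = p * d ∧ Even d ∧ 0 < d := by
    intro i
    obtain ⟨c, hc⟩ := hev (v i) (hv i)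
    have hcpos : 0 < c := by
      have h1 := hpos i
      rw [hc] at h1
      have h2 : (0 : ℤ) < 2 * p := by have := hp.pos; positivity
      by_contra hneg
      have h3 : 2 * (p : ℤ) * c ≤ 0 := mul_nonpos_of_nonneg_of_nonpos h2.le (not_lt.mp hneg)
      exact absurd h1 (not_lt.mpr h3)
    obtain ⟨e, rfl⟩ := Int.eq_ofNat_of_zero_le hcpos.le
    refine ⟨2 * e, ?_, ⟨e, by ring⟩, by omega⟩
    rw [hc]; push_cast; ring
  choose d hd hdev hdpos using hd0
  haveI : ∀ i, NeZero (d i) := fun i => ⟨(hdpos i).ne'⟩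
  have hint' : ∀ x ∈ F, ∀ i, (p : ℤ) ∣ ip B x (v i) := fun x hx i => hint x hx _ (hv i)
  set Φ := Phi B p F v hint' d with hΦ
  have hphi : ∀ y ∈ F, ∀ i, ip B y (v i) = p * (ip B y (v i) / p) := fun y hy i =>
    (Int.mul_ediv_cancel' (hint' y hy i)).symm
  have hPhi : ∀ y : F, Φ y = fun i => ((ip B y.1 (v i) / p : ℤ) : ZMod (d i)) := fun y => rfl
  -- Parseval
  have hpar : ∀ y ∈ F, ∀ z ∈ F,
      (∑ i, (((ip B y (v i) / p : ℤ) : ℂ) * ((ip B z (v i) / p : ℤ) : ℂ) / (d i : ℂ))) =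
        (ip B y z : ℂ) / p := by
    intro y hy z hz
    have h := parseval hs F v hvF hpos horth hcomp hy (z := z)
    have h2 : (∑ i, (((ip B y (v i) / p : ℤ) : ℚ) * ((ip B z (v i) / p : ℤ) : ℚ) / (d i : ℚ))) =
        (ip B y z : ℚ) / p := by
      rw [h, Finset.sum_div]
      refine Finset.sum_congr rfl fun i _ => ?_
      have e1 : (ip B y (v i) : ℚ) = p * ((ip B y (v i) / p : ℤ) : ℚ) := by
        exact_mod_cast congrArg (Int.cast : ℤ → ℚ) (hphi y hy i)
      have e2 : (ip B z (v i) : ℚ) = p * ((ip B z (v i) / p : ℤ) : ℚ) := by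
        exact_mod_cast congrArg (Int.cast : ℤ → ℚ) (hphi z hz i)
      have e3 : (ip B (v i) (v i) : ℚ) = p * d i := by exact_mod_cast congrArg (Int.cast : ℤ → ℚ) (hd i)
      have hdi : (d i : ℚ) ≠ 0 := by exact_mod_cast (hdpos i).ne'
      rw [e1, e2, e3]
      field_simp
    have h3 := congrArg (fun q : ℚ => (q : ℂ)) h2
    simp only [Rat.cast_sum, Rat.cast_div, Rat.cast_mul, Rat.cast_intCast, Rat.cast_natCast] at h3
    exact h3
  have hE : ∀ y : F, EE d (Φ y) = cexp (Real.pi * I * ((ip B y.1 y.1 : ℂ) / p)) := by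
    intro y
    rw [hPhi, EE_int d hdev, ← hpar y.1 y.2 y.1 y.2]
    congr 2
    exact Finset.sum_congr rfl fun i _ => by ring
  have hET : ∀ t : F, t.1 ∈ T → EE d (Φ t) = 1 := by
    intro t ht
    rw [hE]
    obtain ⟨c, hc⟩ := hev t.1 ht
    rw [Complex.exp_eq_one_iff]
    refine ⟨c, ?_⟩
    rw [hc]; push_cast
    field_simp
  have hadd : ∀ (l : Fin r → ℤ) (t : F), EE d ((fun i => ((l i : ℤ) : ZMod (d i))) + Φ t) =
      EE d (fun i => ((l i : ℤ) : ZMod (d i))) * EE d (Φ t) *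
        cexp (2 * Real.pi * I * ∑ i, ((l i : ℂ) * ((ip B t.1 (v i) / p : ℤ) : ℂ) / d i)) := by
    intro l t
    rw [hPhi, ← EE_add d hdev l (fun i => ip B t.1 (v i) / p)]
    congr 1
    funext i
    simp
  -- the subgroup I
  set J : AddSubgroup ((i : Fin r) → ZMod (d i)) := (T.addSubgroupOf F).map Φ with hJ
  have hJmem : ∀ u : J, ∃ t : F, t.1 ∈ T ∧ Φ t = u.1 := by
    rintro ⟨u, hu⟩
    obtain ⟨t, ht, htu⟩ := AddSubgroup.mem_map.mp hu
    exact ⟨t, AddSubgroup.mem_addSubgroupOf.mp ht, htu⟩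
  have hcard : (0 : ℝ) < (Fintype.card J : ℝ) := by
    exact_mod_cast Fintype.card_pos
  -- lifts
  have hlift : ∀ m : (i : Fin r) → ZMod (d i), m = fun i => (((m i).val : ℤ) : ZMod (d i)) := by
    intro m; funext i; simp
  -- elements in the range of Φ
  have hA : ∀ (y : F) (t : F), t.1 ∈ T → EE d (Φ y + Φ t) = EE d (Φ y) := by
    intro y t ht
    rw [hPhi y, hadd, hET t ht, mul_one]
    rw [hpar y.1 y.2 t.1 t.2]
    obtain ⟨c, hc⟩ := hint y.1 y.2 t.1 ht
    have : cexp (2 * Real.pi * I * ((ip B y.1 t.1 : ℂ) / p)) = 1 := by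
      rw [Complex.exp_eq_one_iff]
      refine ⟨c, ?_⟩
      rw [hc]; push_cast
      field_simp
    rw [this, mul_one]
  have hB : ∀ m : (i : Fin r) → ZMod (d i), m ∉ Set.range Φ → ∑ u : J, EE d (m + u.1) = 0 := by
    intro m hm
    set l : Fin r → ℤ := fun i => ((m i).val : ℤ) with hl
    have hml : m = fun i => ((l i : ℤ) : ZMod (d i)) := hlift m
    -- a nontrivial character value
    have hex : ∃ t : F, t.1 ∈ T ∧
        cexp (2 * Real.pi * I * ∑ i, ((l i : ℂ) * ((ip B t.1 (v i) / p : ℤ) : ℂ) / d i)) ≠ 1 := by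
      by_contra hcon
      push Not at hcon
      apply hm
      obtain ⟨y, hyF, hy⟩ := hdual l (by
        intro t ht
        have h1 := hcon ⟨t, hTF ht⟩ ht
        rw [Complex.exp_eq_one_iff] at h1
        obtain ⟨N, hN⟩ := h1
        refine ⟨N, ?_⟩
        have h2 : (∑ i, ((l i : ℂ) * ((ip B t (v i) / p : ℤ) : ℂ) / d i)) = N := by
          have h3 : (2 * (Real.pi : ℂ) * I) ≠ 0 := Complex.two_pi_I_ne_zero
          apply mul_left_cancel₀ h3
          rw [hN]; ring
        have h4 : (∑ i, ((l i : ℚ) * ((ip B t (v i) / p : ℤ) : ℚ) / d i)) = N := by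
          have : (((∑ i, ((l i : ℚ) * ((ip B t (v i) / p : ℤ) : ℚ) / d i)) : ℚ) : ℂ) = ((N : ℚ) : ℂ) := by
            simp only [Rat.cast_sum, Rat.cast_div, Rat.cast_mul, Rat.cast_intCast, Rat.cast_natCast]
            exact h2
          exact_mod_cast this
        rw [← h4]
        refine Finset.sum_congr rfl fun i _ => ?_
        have e2 : (ip B t (v i) : ℚ) = p * ((ip B t (v i) / p : ℤ) : ℚ) := by
          exact_mod_cast congrArg (Int.cast : ℤ → ℚ) (hphi t (hTF ht) i)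
        have e3 : (ip B (v i) (v i) : ℚ) = p * d i := by
          exact_mod_cast congrArg (Int.cast : ℤ → ℚ) (hd i)
        have hdi : (d i : ℚ) ≠ 0 := by exact_mod_cast (hdpos i).ne'
        rw [e2, e3]
        field_simp)
      refine ⟨⟨y, hyF⟩, ?_⟩
      rw [hPhi, hml]
      funext i
      show ((ip B y (v i) / p : ℤ) : ZMod (d i)) = _
      rw [hy i, Int.mul_ediv_cancel_left _ hp0]
    obtain ⟨t0, ht0, hne⟩ := hex
    set χ : ℂ := cexp (2 * Real.pi * I * ∑ i, ((l i : ℂ) * ((ip B t0.1 (v i) / p : ℤ) : ℂ) / d i))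
      with hχ
    have hstep : ∀ u : J, EE d (m + u.1 + Φ t0) = χ * EE d (m + u.1) := by
      intro u
      obtain ⟨t, ht, htu⟩ := hJmem u
      have e1 : m + u.1 = fun i => ((l i + (ip B t.1 (v i) / p) : ℤ) : ZMod (d i)) := by
        rw [← htu, hPhi]
        conv_lhs => rw [hml]
        funext i
        simp
      rw [e1, hadd, hET t0 ht0, mul_one, mul_comm χ]
      congr 1
      rw [hχ]
      have e2 : ∀ i, ((((l i + (ip B t.1 (v i) / p) : ℤ)) : ℂ) * ((ip B t0.1 (v i) / p : ℤ) : ℂ) / d i)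
          = ((l i : ℂ) * ((ip B t0.1 (v i) / p : ℤ) : ℂ) / d i) +
            (((ip B t.1 (v i) / p : ℤ) : ℂ) * ((ip B t0.1 (v i) / p : ℤ) : ℂ) / d i) := by
        intro i; push_cast; ring
      rw [Finset.sum_congr rfl fun i _ => e2 i, Finset.sum_add_distrib, hpar t.1 t.2 t0.1 t0.2,
        mul_add, Complex.exp_add]
      obtain ⟨c, hc⟩ := hint t.1 t.2 t0.1 ht0
      have : cexp (2 * Real.pi * I * ((ip B t.1 t0.1 : ℂ) / p)) = 1 := by
        rw [Complex.exp_eq_one_iff]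
        refine ⟨c, ?_⟩
        rw [hc]; push_cast
        field_simp
      rw [this, mul_one]
    have hmem0 : Φ t0 ∈ J := AddSubgroup.mem_map.mpr ⟨t0, AddSubgroup.mem_addSubgroupOf.mpr ht0, rfl⟩
    have h5 : ∑ u : J, EE d (m + u.1) = χ * ∑ u : J, EE d (m + u.1) := by
      rw [Finset.mul_sum, ← Equiv.sum_comp (Equiv.addRight (⟨Φ t0, hmem0⟩ : J))
        (fun u : J => EE d (m + u.1))]
      refine Finset.sum_congr rfl fun u _ => ?_
      rw [← hstep u]
      congr 1
      show m + (u.1 + Φ t0) = _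
      rw [add_assoc]
    have h6 : (1 - χ) * ∑ u : J, EE d (m + u.1) = 0 := by
      rw [sub_mul, one_mul, sub_eq_zero]; exact h5
    rcases mul_eq_zero.mp h6 with h7 | h7
    · exact absurd (sub_eq_zero.mp h7).symm hne
    · exact h7
  -- Step 1
  have hS : (Fintype.card J : ℂ) * ∑ m, EE d m =
      ∑ m : (i : Fin r) → ZMod (d i), ∑ u : J, EE d (m + u.1) := by
    rw [Finset.sum_comm]
    have : ∀ u : J, ∑ m, EE d (m + u.1) = ∑ m, EE d m := fun u =>
      Equiv.sum_comp (Equiv.addRight u.1) (fun m => EE d m)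
    rw [Finset.sum_congr rfl fun u _ => this u, Finset.sum_const, Finset.card_univ, nsmul_eq_mul]
  have hR : ∑ m : (i : Fin r) → ZMod (d i), ∑ u : J, EE d (m + u.1) =
      (Fintype.card J : ℂ) * ∑ m ∈ Finset.univ.filter (fun m => m ∈ Set.range Φ), EE d m := by
    rw [← Finset.sum_filter_add_sum_filter_not Finset.univ (fun m => m ∈ Set.range Φ)]
    have z1 : ∑ m ∈ Finset.univ.filter (fun m => m ∉ Set.range Φ), ∑ u : J, EE d (m + u.1) = 0 :=
      Finset.sum_eq_zero fun m hm => hB m (Finset.mem_filter.mp hm).2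
    rw [z1, add_zero, Finset.mul_sum]
    refine Finset.sum_congr rfl fun m hm => ?_
    obtain ⟨y, hy⟩ := (Finset.mem_filter.mp hm).2
    have : ∀ u : J, EE d (m + u.1) = EE d m := by
      intro u
      obtain ⟨t, ht, htu⟩ := hJmem u
      rw [← htu, ← hy]
      exact hA y t ht
    rw [Finset.sum_congr rfl fun u _ => this u, Finset.sum_const, Finset.card_univ, nsmul_eq_mul]
  have hcardC : (Fintype.card J : ℂ) ≠ 0 := by exact_mod_cast hcard.ne'
  have hS1 : ∑ m, EE d m = ∑ m ∈ Finset.univ.filter (fun m => m ∈ Set.range Φ), EE d m :=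
    mul_left_cancel₀ hcardC (hS.trans hR)
  -- kernel
  have hker : ∀ y : F, Φ y = 0 → y.1 ∈ T := by
    intro y hy
    have h1 : ∀ i, ∃ c : ℤ, ip B y.1 (v i) / p = d i * c := by
      intro i
      have h2 : ((ip B y.1 (v i) / p : ℤ) : ZMod (d i)) = 0 := congrFun hy i
      exact (ZMod.intCast_zmod_eq_zero_iff_dvd _ _).mp h2
    choose c hc using h1
    have h3 : y.1 - ∑ i, c i • v i = 0 := by
      apply hcomp _ (F.sub_mem y.2 (F.sum_mem fun i _ => F.zsmul_mem (hvF i) _))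
      intro j
      rw [ip_sub_left, ip_sum_left, Finset.sum_eq_single j]
      · rw [ip_smul_left, hphi y.1 y.2 j, hc j, hd j]; ring
      · intro i _ hij
        rw [ip_smul_left, horth i j hij, mul_zero]
      · intro h; exact absurd (Finset.mem_univ j) h
    rw [sub_eq_zero.mp h3]
    exact T.sum_mem fun i _ => T.zsmul_mem (hv i) _
  -- Step 2
  set X0 : F := ⟨x0, hx0⟩ with hX0
  have hS2 : ∑ m ∈ Finset.univ.filter (fun m => m ∈ Set.range Φ), EE d m =
      ∑ q ∈ (Finset.range p) ×ˢ (Finset.univ : Finset J), EE d (Φ ((q.1 : ℤ) • X0) + q.2.1) := by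
    symm
    refine Finset.sum_bij (fun q _ => Φ ((q.1 : ℤ) • X0) + q.2.1) ?_ ?_ ?_ ?_
    · intro q _
      obtain ⟨t, ht, htu⟩ := hJmem q.2
      refine Finset.mem_filter.mpr ⟨Finset.mem_univ _, (q.1 : ℤ) • X0 + t, ?_⟩
      rw [map_add, htu]
    · rintro ⟨k, u⟩ hk ⟨k', u'⟩ hk' heq
      obtain ⟨t, ht, htu⟩ := hJmem u
      obtain ⟨t', ht', htu'⟩ := hJmem u'
      have hk1 := Finset.mem_range.mp (Finset.mem_product.mp hk).1
      have hk2 := Finset.mem_range.mp (Finset.mem_product.mp hk').1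
      dsimp only at heq hk1 hk2
      rw [← htu, ← htu', ← map_add, ← map_add] at heq
      have h1 : Φ (((k : ℤ) • X0 + t) - ((k' : ℤ) • X0 + t')) = 0 := by
        rw [map_sub, heq, sub_self]
      have h2 := hker _ h1
      have h3 : ((k : ℤ) - k') • x0 ∈ T := by
        have h4 : ((((k : ℤ) • X0 + t) - ((k' : ℤ) • X0 + t') : F) : Fin n → ℤ) - t.1 + t'.1 ∈ T :=
          T.add_mem (T.sub_mem h2 ht) ht'
        convert h4 using 1
        simp only [AddSubgroup.coe_sub, AddSubgroup.coe_add, AddSubgroup.coe_zsmul]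
        rw [sub_smul]
        abel
      have h5 : (p : ℤ) ∣ (k : ℤ) - k' := by
        by_contra hnd
        have hcop : IsCoprime (p : ℤ) ((k : ℤ) - k') :=
          (Prime.coprime_iff_not_dvd (Nat.prime_iff_prime_int.mp hp)).mpr hnd
        obtain ⟨a, b, hab⟩ := hcop
        apply hx0T
        have h6 : x0 = a • ((p : ℤ) • x0) + b • (((k : ℤ) - k') • x0) := by
          rw [smul_smul, smul_smul, ← add_smul, hab, one_smul]
        rw [h6]
        exact T.add_mem (T.zsmul_mem hpx0 _) (T.zsmul_mem h3 _)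
      have h7 : k = k' := by
        obtain ⟨c, hc⟩ := h5
        have hc0 : c = 0 := by
          by_contra hcne
          have h8 : (p : ℤ) ≤ |(k : ℤ) - k'| := by
            rw [hc, abs_mul]
            have : 1 ≤ |c| := Int.one_le_abs hcne
            have h9 : |(p : ℤ)| = p := abs_of_nonneg (by positivity)
            rw [h9]; nlinarith [hp.pos]
          have h10 : |(k : ℤ) - k'| < p := by
            rw [abs_lt]; constructor <;> omega
          omega
        rw [hc0, mul_zero] at hc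
        omega
      subst h7
      have h8 : u = u' := by
        apply Subtype.ext
        have h9 : Φ ((k : ℤ) • X0) + Φ t = Φ ((k : ℤ) • X0) + Φ t' := by
          rw [← map_add, ← map_add]; exact heq
        rw [← htu, ← htu']
        exact add_left_cancel h9
      rw [h8]
    · intro m hm
      obtain ⟨y, hy⟩ := (Finset.mem_filter.mp hm).2
      obtain ⟨k, hk, hkT⟩ := hgen y.1 y.2
      refine ⟨⟨k, ⟨Φ (y - (k : ℤ) • X0), ?_⟩⟩, ?_, ?_⟩
      · refine AddSubgroup.mem_map.mpr ⟨y - (k : ℤ) • X0, ?_, rfl⟩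
        rw [AddSubgroup.mem_addSubgroupOf]
        simpa using hkT
      · exact Finset.mem_product.mpr ⟨Finset.mem_range.mpr hk, Finset.mem_univ _⟩
      · rw [← hy, ← map_add]
        congr 1
        abel
    · intro q _; rfl
  have hS3 : ∑ q ∈ (Finset.range p) ×ˢ (Finset.univ : Finset J), EE d (Φ ((q.1 : ℤ) • X0) + q.2.1) =
      (Fintype.card J : ℂ) * ∑ k ∈ Finset.range p,
        cexp (Real.pi * I * ((k : ℂ) ^ 2 * (ip B x0 x0 : ℂ) / p)) := by
    rw [Finset.sum_product, Finset.mul_sum]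
    refine Finset.sum_congr rfl fun k _ => ?_
    have h1 : ∀ u : J, EE d (Φ ((k : ℤ) • X0) + u.1) =
        cexp (Real.pi * I * ((k : ℂ) ^ 2 * (ip B x0 x0 : ℂ) / p)) := by
      intro u
      obtain ⟨t, ht, htu⟩ := hJmem u
      rw [← htu, hA _ t ht, hE]
      congr 2
      simp only [AddSubgroup.coe_zsmul]
      rw [ip_smul_left, ip_smul_right]
      push_cast
      ring
    rw [Finset.sum_congr rfl fun u _ => h1 u, Finset.sum_const, Finset.card_univ, nsmul_eq_mul]
  refine ⟨(∏ i, Real.sqrt (d i)) / (Fintype.card J : ℝ), ?_, ?_⟩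
  · apply div_pos _ hcard
    exact Finset.prod_pos fun i _ => Real.sqrt_pos.mpr (by exact_mod_cast hdpos i)
  · apply mul_left_cancel₀ hcardC
    rw [← hS3, ← hS2, ← hS1, EE_sum d hdev]
    push_cast
    field_simp

end Pool.Agent.H90.TS
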