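import Mathlib
import Pool.Agent.H90.TS.As2
import Pool.Agent.H90.TS.C0b
import Pool.Agent.H90.TS.Fam2
import Pool.Agent.H90.TS.Fam3
import Pool.Agent.H90.TS.Mg
import Pool.Agent.H90.TS.Cnt3

set_option autoImplicit false

/-!
Norms of the vectors fixed by an element of order 19 (helper90, MP_660bdc_al).
-/

namespace Pool.Agent.H90.TS

open Matrix Complex

/-- `∑ k, exp (π i k² 2 m / 19)` for `m ≡ j²`. -/
theorem gauss_shift (j m : ℤ) (hj : ¬ (19 : ℤ) ∣ j) (hm : (19 : ℤ) ∣ m - j ^ 2) :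
    ∑ k ∈ Finset.range 19, cexp (Real.pi * I * ((k : ℂ) ^ 2 * ((2 * m : ℤ) : ℂ) / (19 : ℕ))) =
      ∑ a ∈ Finset.range 19, cexp (2 * Real.pi * I * (a : ℂ) ^ 2 / 19) := by
  classical
  haveI : Fact (Nat.Prime 19) := ⟨by norm_num⟩
  set e : ZMod 19 → ℂ := fun a => cexp (2 * Real.pi * I * (a.val : ℂ) ^ 2 / 19) with he
  have he1 : ∀ k : ℤ, e (k : ZMod 19) = cexp (2 * Real.pi * I * (k : ℂ) ^ 2 / 19) := by
    intro k
    have h1 : (((k : ZMod 19).val : ℤ)) = k % 19 := ZMod.val_intCast k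
    have h2 : (((k : ZMod 19).val : ℂ)) = ((k % 19 : ℤ) : ℂ) := by
      exact_mod_cast congrArg (Int.cast : ℤ → ℂ) h1
    simp only [he]
    rw [h2, Complex.exp_eq_exp_iff_exists_int]
    set s : ℤ := k % 19 with hs
    set q : ℤ := k / 19 with hq
    have h3 : (k : ℂ) = 19 * q + s := by
      have : k = 19 * q + s := by rw [hs, hq]; exact (Int.mul_ediv_add_emod k 19).symm
      exact_mod_cast congrArg (Int.cast : ℤ → ℂ) this
    refine ⟨-(19 * q ^ 2 + 2 * q * s), ?_⟩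
    rw [h3]; push_cast
    field_simp
    ring
  have hr : ∀ f : ZMod 19 → ℂ, ∑ k ∈ Finset.range 19, f (k : ZMod 19) = ∑ a, f a := by
    intro f
    refine Finset.sum_nbij' (fun m : ℕ => (m : ZMod 19)) (fun a => a.val) ?_ ?_ ?_ ?_ ?_
    · intro m _; exact Finset.mem_univ _
    · intro a _; exact Finset.mem_range.mpr (ZMod.val_lt a)
    · intro m hm; exact ZMod.val_cast_of_lt (Finset.mem_range.mp hm)
    · intro a _; exact ZMod.natCast_zmod_val a
    · intro m _; rfl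
  have hj0 : (j : ZMod 19) ≠ 0 := by
    rw [Ne, ZMod.intCast_zmod_eq_zero_iff_dvd]
    exact_mod_cast hj
  have hL : ∀ k : ℕ, cexp (Real.pi * I * ((k : ℂ) ^ 2 * ((2 * m : ℤ) : ℂ) / (19 : ℕ))) =
      e ((j : ZMod 19) * (k : ZMod 19)) := by
    intro k
    have h1 : (j : ZMod 19) * (k : ZMod 19) = ((j * k : ℤ) : ZMod 19) := by push_cast; ring
    rw [h1, he1, Complex.exp_eq_exp_iff_exists_int]
    obtain ⟨c, hc⟩ := hm
    have h2 : (m : ℂ) = j ^ 2 + 19 * c := by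
      have : m = j ^ 2 + 19 * c := by linarith
      exact_mod_cast congrArg (Int.cast : ℤ → ℂ) this
    refine ⟨c * k ^ 2, ?_⟩
    push_cast
    rw [h2]
    field_simp
  rw [Finset.sum_congr rfl fun k _ => hL k]
  rw [hr (fun a => e ((j : ZMod 19) * a))]
  rw [← Equiv.sum_comp (Equiv.mulLeft₀ (j : ZMod 19) hj0).symm (fun a => e ((j : ZMod 19) * a))]
  rw [← hr]
  refine Finset.sum_congr rfl fun k _ => ?_
  have : (j : ZMod 19) * (Equiv.mulLeft₀ (j : ZMod 19) hj0).symm (k : ZMod 19) = (k : ZMod 19) :=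
    (Equiv.mulLeft₀ (j : ZMod 19) hj0).apply_symm_apply (k : ZMod 19)
  rw [this]
  have h5 := he1 (k : ℤ)
  push_cast at h5
  exact h5

variable {B : Matrix (Fin 248) (Fin 248) ℤ} {G : Type} [Group G] [Fintype G]
  {ρ : G →* Matrix (Fin 248) (Fin 248) ℤ}

theorem nineteen (hs : Bᵀ = B) (hpos : ∀ x : Fin 248 → ℤ, x ≠ 0 → 0 < ip B x x)
    (hdet : B.det = 1) (heven : ∀ x : Fin 248 → ℤ, Even (ip B x x))
    (hiso : ∀ g, (ρ g)ᵀ * B * ρ g = B)
    (habs : ∀ A : Matrix (Fin 248) (Fin 248) ℚ,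
      (∀ g, A * (ρ g).map (Int.cast : ℤ → ℚ) = (ρ g).map (Int.cast : ℤ → ℚ) * A) →
      ∃ c : ℚ, A = c • (1 : Matrix (Fin 248) (Fin 248) ℚ))
    {k : ℕ} (hk : ¬ 19 ∣ k) (hcard : Fintype.card G = 248 * (19 * k))
    (htr : ∀ h : G, orderOf h = 19 → (ρ h).trace = 1)
    {g : G} (hg : orderOf g = 19) {x : Fin 248 → ℤ} (hx : ρ g *ᵥ x = x)
    {m j : ℤ} (hxm : ip B x x = 2 * m) (hj : ¬ (19 : ℤ) ∣ j) (hm : (19 : ℤ) ∣ m - j ^ 2) :
    False := by
  have hp : Nat.Prime 19 := by norm_num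
  have hpz : Prime (19 : ℤ) := by exact_mod_cast Nat.prime_iff_prime_int.mp hp
  have hm19 : ¬ (19 : ℤ) ∣ m := by
    intro h
    have : (19 : ℤ) ∣ j ^ 2 := by
      have := dvd_sub h hm
      simpa using this
    exact hj (hpz.dvd_of_dvd_pow this)
  have hxx : ¬ ((19 : ℕ) : ℤ) ∣ ip B x x := by
    rw [hxm]
    intro h
    rcases hpz.dvd_or_dvd (by exact_mod_cast h) with h1 | h1
    · revert h1; norm_num
    · exact hm19 h1
  have hK : ∀ z : Fin 248 → ℤ, nm ρ g 19 *ᵥ z = 0 → ∃ w : Fin 248 → ℤ, z = ρ g *ᵥ w - w :=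
    fun z hz => ker_norm hs hiso habs (by norm_num) hp hk hcard hg hx hxx hz
  obtain ⟨r, v, hvT, hv0, hvo, hvc⟩ := exists_family hs hpos hp hg (ρ := ρ)
  have hr := family_card hs hpos hiso hp hg v hvT hv0 hvo hvc
  have htrN : (nm ρ g 19).trace = 266 := by
    unfold nm
    rw [Matrix.trace_sum, Finset.sum_range_succ']
    have h1 : ∀ i ∈ Finset.range 18, (ρ (g ^ (i + 1))).trace = 1 := by
      intro i hi
      apply htr
      have hi' := Finset.mem_range.mp hi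
      haveI : Fact (Nat.Prime 19) := ⟨hp⟩
      apply orderOf_eq_prime
      · rw [← pow_mul, mul_comm, pow_mul, ← hg, pow_orderOf_eq_one, one_pow]
      · exact pow_ne_one_of_lt_orderOf (by omega) (by rw [hg]; omega)
    rw [Finset.sum_congr rfl h1, pow_zero, map_one, Matrix.trace_one]
    simp
  have hr14 : r = 14 := by
    rw [htrN] at hr
    push_cast at hr
    omega
  subst hr14
  have hTF : TT ρ g 19 ≤ FF ρ g := by
    rintro y ⟨z, rfl⟩
    exact nm_fixed hg z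
  have hx0T : x ∉ TT ρ g 19 := by
    rintro ⟨z, hz⟩
    apply hxx
    have : ip B x x = 19 * ip B z x := by
      conv_lhs => rw [hz]
      rw [ip_nm hiso hg, nm_of_fixed (by rw [← hz]; exact hx), ip_smul_right, ← hz]
      push_cast; ring
    rw [this]; exact ⟨_, rfl⟩
  have hgen := quot_gen hp (by norm_num) hg v hvc hK (x0 := x) hx hx0T
  have hint : ∀ y ∈ FF ρ g, ∀ t ∈ TT ρ g 19, ((19 : ℕ) : ℤ) ∣ ip B y t := by
    rintro y hy t ⟨z, rfl⟩
    rw [← ip_nm hiso hg, nm_of_fixed hy, ip_smul_left]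
    exact ⟨_, rfl⟩
  have hev : ∀ t ∈ TT ρ g 19, (2 * (19 : ℕ) : ℤ) ∣ ip B t t := by
    intro t ht
    have h1 := hint t (hTF ht) t ht
    have h2 := (heven t).two_dvd
    push_cast at h1 ⊢
    omega
  obtain ⟨c, hc, hsum⟩ := milgram hs hp (FF ρ g) (TT ρ g 19) hTF hint hev v hvT
    (fun i => hpos _ (hv0 i)) hvo hvc
    (fun l hl => dual_mem hs hpos hdet hiso hg v (fun i => hTF (hvT i)) hv0 hvo l hl)
    (x0 := x) hx hx0T ⟨x, (nm_of_fixed hx).symm⟩ hgen
  rw [hxm] at hsum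
  rw [gauss_shift j m hj hm] at hsum
  have h1 := gauss19
  rw [hsum] at h1
  have h2 : cexp (Real.pi * I * ((14 : ℕ) : ℂ) / 4) = -I := by
    have : (Real.pi * I * ((14 : ℕ) : ℂ) / 4 : ℂ) = -(Real.pi / 2 * I) + (2 : ℤ) * (2 * Real.pi * I) := by
      push_cast; ring
    rw [this, Complex.exp_add, Complex.exp_int_mul_two_pi_mul_I, mul_one, Complex.exp_neg,
      Complex.exp_pi_div_two_mul_I]
    simp
  rw [h2] at h1
  have h3 : ((c : ℂ) * -I).im = -c := by simp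
  rw [h3] at h1
  linarith

end Pool.Agent.H90.TS
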