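import Mathlib
import Pool.Agent.H90.TS.Def

set_option autoImplicit false

/-!
Finiteness (helper90, MP_660bdc_al).
-/

namespace Pool.Agent.H90.TS

open Matrix

theorem cs {n : ℕ} {B : Matrix (Fin n) (Fin n) ℤ} (hs : Bᵀ = B)
    (hpos : ∀ x : Fin n → ℤ, x ≠ 0 → 0 < ip B x x) (u x : Fin n → ℤ) :
    ip B u x ^ 2 ≤ ip B u u * ip B x x := by
  by_cases hx : x = 0
  · subst hx; simp [ip_zero_right]
  set a := ip B x x with ha
  set b := ip B u x with hb
  have hapos : 0 < a := hpos x hx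
  have h1 : 0 ≤ ip B (a • u - b • x) (a • u - b • x) := by
    by_cases h : a • u - b • x = 0
    · rw [h, ip_zero_left]
    · exact (hpos _ h).le
  rw [ip_sub_left, ip_sub_right, ip_sub_right, ip_smul_left, ip_smul_right, ip_smul_left,
    ip_smul_right, ip_smul_left, ip_smul_right, ip_smul_left, ip_smul_right,
    ip_comm B hs x u, ← hb, ← ha] at h1
  have h2 : 0 ≤ a * (a * ip B u u - b ^ 2) := by nlinarith
  have h3 := nonneg_of_mul_nonneg_right h2 hapos
  nlinarith

theorem finite_norm {n : ℕ} {B : Matrix (Fin n) (Fin n) ℤ} (hs : Bᵀ = B)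
    (hpos : ∀ x : Fin n → ℤ, x ≠ 0 → 0 < ip B x x) (hdet : B.det = 1) (m : ℤ) :
    {x : Fin n → ℤ | ip B x x = m}.Finite := by
  classical
  set c : Fin n → ℤ := fun i => ip B (B.adjugate *ᵥ Pi.single i 1) (B.adjugate *ᵥ Pi.single i 1) * |m|
    with hc
  have hcoord : ∀ (x : Fin n → ℤ) i, x i = ip B (B.adjugate *ᵥ Pi.single i 1) x := by
    intro x i
    rw [ip_comm B hs]
    unfold ip
    rw [mulVec_mulVec, mul_adjugate, hdet, one_smul, one_mulVec]
    simp
  apply Set.Finite.subset (Set.Finite.pi (fun i : Fin n => Set.finite_Icc (-(c i)) (c i)))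
  intro x hx
  rw [Set.mem_pi]
  intro i _
  have h1 := cs hs hpos (B.adjugate *ᵥ Pi.single i 1) x
  rw [← hcoord x i] at h1
  have hm : ip B x x = m := hx
  rw [hm] at h1
  have h2 : 0 ≤ ip B (B.adjugate *ᵥ Pi.single i 1) (B.adjugate *ᵥ Pi.single i 1) := by
    by_cases h : B.adjugate *ᵥ (Pi.single i 1 : Fin n → ℤ) = 0
    · rw [h, ip_zero_left]
    · exact (hpos _ h).le
  have h3 : x i ^ 2 ≤ c i := h1.trans (mul_le_mul_of_nonneg_left (le_abs_self m) h2)
  rw [Set.mem_Icc]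
  constructor
  · nlinarith [sq_nonneg (x i + 1), sq_nonneg (x i)]
  · nlinarith [sq_nonneg (x i - 1), sq_nonneg (x i)]

end Pool.Agent.H90.TS
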