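import Mathlib
import Pool.Agent.H90.TS.Def

set_option autoImplicit false

/-!
Finiteness and divisibility of the number of vectors of given norm (helper90, MP_660bdc_al).

`finite_norm`: since `det B = 1`, `x i = (B⁻¹ e_i, x)` with `B⁻¹` integral (the adjugate), and
Cauchy - Schwarz for the positive definite form gives `(x i) ^ 2 ≤ (B⁻¹)_ii * (x, x)`.
`dvd_ncard`: `Equiv.Perm.card_fixedPoints_modEq` for `x ↦ ρ g x` on the finite set.
-/

namespace Pool.Agent.H90.TS

open Matrix

private theorem dvd_ncard_aux {α : Type} {S : Set α} (hfin : S.Finite) {p : ℕ} (hp : p.Prime)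
    (F : α → α) (hF : ∀ x ∈ S, F x ∈ S) (hFp : ∀ x ∈ S, F^[p] x = x) (hfix : ∀ x ∈ S, F x ≠ x) :
    p ∣ S.ncard := by
  classical
  have hfact : Fact p.Prime := ⟨hp⟩
  have hft : Fintype S := hfin.fintype
  let f : S → S := fun x => ⟨F x.1, hF x.1 x.2⟩
  have hit : ∀ (k : ℕ) (x : S), ((f^[k] x : S) : α) = F^[k] x.1 := by
    intro k
    induction k with
    | zero => intro x; rfl
    | succ k ih =>
      intro x
      rw [Function.iterate_succ_apply, Function.iterate_succ_apply, ih]
  have hfp : ∀ x : S, f^[p] x = x := by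
    intro x
    apply Subtype.ext
    rw [hit, hFp x.1 x.2]
  have hp1 : p - 1 + 1 = p := Nat.succ_pred_eq_of_pos hp.pos
  let σ : Equiv.Perm S :=
    { toFun := f
      invFun := f^[p - 1]
      left_inv := by
        intro x
        rw [← Function.iterate_succ_apply f (p - 1) x, Nat.succ_eq_add_one, hp1]
        exact hfp x
      right_inv := by
        intro x
        show f (f^[p - 1] x) = x
        rw [← Function.iterate_succ_apply' f (p - 1) x, Nat.succ_eq_add_one, hp1]
        exact hfp x }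
  have hσ : σ ^ p ^ 1 = 1 := by
    rw [pow_one]
    ext x
    rw [← Equiv.Perm.iterate_eq_pow]
    exact congrArg Subtype.val (hfp x)
  by_contra hcon
  have hcard : ¬ p ∣ Fintype.card S := by
    rw [Set.ncard_eq_toFinset_card' S, Set.toFinset_card] at hcon
    exact hcon
  obtain ⟨a, ha⟩ := Equiv.Perm.exists_fixed_point_of_prime hcard hσ
  exact hfix a.1 a.2 (congrArg Subtype.val ha)

theorem dvd_ncard {n : ℕ} {B : Matrix (Fin n) (Fin n) ℤ} {G : Type} [Group G]
    {ρ : G →* Matrix (Fin n) (Fin n) ℤ} (hiso : ∀ g, (ρ g)ᵀ * B * ρ g = B) {m : ℤ}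
    (hfin : {x : Fin n → ℤ | ip B x x = m}.Finite) {p : ℕ} (hp : p.Prime) {g : G}
    (hg : orderOf g = p) (hfix : ∀ x, ρ g *ᵥ x = x → ip B x x ≠ m) :
    p ∣ {x : Fin n → ℤ | ip B x x = m}.ncard := by
  have hinv : ∀ x : Fin n → ℤ, ip B (ρ g *ᵥ x) (ρ g *ᵥ x) = ip B x x := by
    intro x
    have h1 : ip B (ρ g *ᵥ x) (ρ g *ᵥ x) = x ⬝ᵥ ((ρ g)ᵀ * B * ρ g) *ᵥ x := by
      unfold ip
      rw [← Matrix.mulVec_mulVec, ← Matrix.mulVec_mulVec, Matrix.dotProduct_mulVec x,
        Matrix.vecMul_transpose]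
    rw [h1, hiso g]
    rfl
  have hiter : ∀ (k : ℕ) (x : Fin n → ℤ), (fun y => ρ g *ᵥ y)^[k] x = ρ (g ^ k) *ᵥ x := by
    intro k
    induction k with
    | zero =>
      intro x
      simp
    | succ k ih =>
      intro x
      rw [Function.iterate_succ_apply', ih, pow_succ', map_mul, Matrix.mulVec_mulVec]
  refine dvd_ncard_aux hfin hp (fun y => ρ g *ᵥ y) ?_ ?_ ?_
  · intro x hx
    show ip B (ρ g *ᵥ x) (ρ g *ᵥ x) = m
    rw [hinv]
    exact hx
  · intro x hx
    rw [hiter, ← hg, pow_orderOf_eq_one, map_one, Matrix.one_mulVec]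
  · intro x hx h
    exact hfix x h hx

theorem two_dvd_ncard {n : ℕ} {B : Matrix (Fin n) (Fin n) ℤ} {m : ℤ} (hm : m ≠ 0)
    (hfin : {x : Fin n → ℤ | ip B x x = m}.Finite) :
    2 ∣ {x : Fin n → ℤ | ip B x x = m}.ncard := by
  refine dvd_ncard_aux hfin Nat.prime_two (fun y => -y) ?_ ?_ ?_
  · intro x hx
    show ip B (-x) (-x) = m
    have h1 : ip B (-x) (-x) = ip B x x := by
      unfold ip
      rw [Matrix.mulVec_neg, neg_dotProduct_neg]
    rw [h1]
    exact hx
  · intro x _
    show - -x = x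
    exact neg_neg x
  · intro x hx h
    apply hm
    have hx0 : x = 0 := by
      funext i
      have h2 : -x i = x i := congrFun h i
      have h3 : x i = 0 := by omega
      simpa using h3
    have hx' : ip B x x = m := hx
    rw [← hx', hx0]
    unfold ip
    simp

end Pool.Agent.H90.TS
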