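import Mathlib
import Pool.Agent.H90.TS.Sc

set_option autoImplicit false

/-!
Norms of the vectors fixed by an element of order `p`, when `p` divides the degree and `p ^ 2`
does not divide the group order (helper90, MP_660bdc_al).

Proof: take `A = single i i 1` (trace 1) in `schur_avg`: `∑ s, ρ s * A * ρ s⁻¹ = k • 1`.
So `k * (x, x) = ∑ s, (x, ρ s A ρ s⁻¹ x) = ∑ s, f s` with `f (g * s) = f s`; so `p ∣ ∑ s, f s`.
-/

namespace Pool.Agent.H90.TS

open Matrix

/-- An integer function on a finite group invariant under left translation by an element of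
order `p` has sum divisible by `p`. -/
theorem dvd_sum_of_left_inv {G : Type} [Group G] [Fintype G] (f : G → ℤ) (g : G)
    (hf : ∀ s, f (g * s) = f s) : (orderOf g : ℤ) ∣ ∑ s, f s := by
  classical
  have hf' : ∀ s, f (g⁻¹ * s) = f s := fun s => by
    rw [← hf (g⁻¹ * s)]; simp
  have key : ∀ h ∈ Subgroup.zpowers g, ∀ s, f (h * s) = f s := by
    intro h hh
    obtain ⟨k, rfl⟩ := Subgroup.mem_zpowers_iff.mp hh
    induction k with
    | zero => intro s; simp
    | succ i ih =>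
      intro s
      rw [_root_.zpow_add_one, mul_assoc, ih ⟨i, rfl⟩, hf]
    | pred i ih =>
      intro s
      rw [_root_.zpow_sub_one, mul_assoc, ih ⟨_, rfl⟩, hf']
  have h1 : ∑ s, f s = ∑ s, f s⁻¹ := (Equiv.sum_comp (Equiv.inv G) f).symm
  rw [h1, ← Finset.sum_fiberwise (s := Finset.univ)
    (g := fun s : G => (s : G ⧸ Subgroup.zpowers g)) (f := fun s => f s⁻¹)]
  refine Finset.dvd_sum fun q _ => ?_
  induction q using QuotientGroup.induction_on with
  | H t =>
    have hconst : ∀ s ∈ Finset.univ.filter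
        (fun s : G => (s : G ⧸ Subgroup.zpowers g) = (t : G ⧸ Subgroup.zpowers g)),
        f s⁻¹ = f t⁻¹ := by
      intro s hs
      rw [Finset.mem_filter] at hs
      have h2 := QuotientGroup.eq.mp hs.2
      have h3 := key _ h2 t⁻¹
      rw [mul_assoc, mul_inv_cancel, mul_one] at h3
      exact h3
    rw [Finset.sum_congr rfl hconst, Finset.sum_const, nsmul_eq_mul]
    refine Dvd.dvd.mul_right ?_ _
    have hc : (Finset.univ.filter
        (fun s : G => (s : G ⧸ Subgroup.zpowers g) = (t : G ⧸ Subgroup.zpowers g))).card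
        = orderOf g := by
      rw [← Nat.card_zpowers g, Nat.card_eq_fintype_card]
      have hmem : ∀ s : G, (s : G ⧸ Subgroup.zpowers g) = (t : G ⧸ Subgroup.zpowers g) ↔
          t⁻¹ * s ∈ Subgroup.zpowers g := fun s => by
        rw [eq_comm]; exact QuotientGroup.eq
      rw [← Finset.card_univ]
      refine (Finset.card_bij (fun (h : Subgroup.zpowers g) _ => t * (h : G)) ?_ ?_ ?_).symm
      · intro h _
        rw [Finset.mem_filter]
        refine ⟨Finset.mem_univ _, (hmem _).mpr ?_⟩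
        rw [inv_mul_cancel_left]
        exact h.2
      · intro a _ b _ hab
        exact Subtype.ext (mul_left_cancel hab)
      · intro s hs
        rw [Finset.mem_filter] at hs
        exact ⟨⟨t⁻¹ * s, (hmem s).mp hs.2⟩, Finset.mem_univ _, mul_inv_cancel_left t s⟩
    rw [hc]

variable {n : ℕ} {B : Matrix (Fin n) (Fin n) ℤ} {G : Type} [Group G] [Fintype G]
  {ρ : G →* Matrix (Fin n) (Fin n) ℤ}

theorem fixed_norm_dvd (hs : Bᵀ = B) (hiso : ∀ g, (ρ g)ᵀ * B * ρ g = B)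
    (habs : ∀ A : Matrix (Fin n) (Fin n) ℚ,
      (∀ g, A * (ρ g).map (Int.cast : ℤ → ℚ) = (ρ g).map (Int.cast : ℤ → ℚ) * A) →
      ∃ c : ℚ, A = c • (1 : Matrix (Fin n) (Fin n) ℚ))
    (hn : 0 < n) {p : ℕ} (hp : p.Prime) {k : ℕ} (hk : ¬ p ∣ k) (hcard : Fintype.card G = n * k)
    {g : G} (hg : orderOf g = p) {x : Fin n → ℤ} (hx : ρ g *ᵥ x = x) :
    (p : ℤ) ∣ ip B x x := by
  classical
  set A : Matrix (Fin n) (Fin n) ℤ := Matrix.single ⟨0, hn⟩ ⟨0, hn⟩ 1 with hA
  have htr : A.trace = 1 := by rw [hA, Matrix.trace_single_eq_same]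
  have h1 := schur_avg (ρ := ρ) habs A
  rw [htr, mul_one, hcard] at h1
  have h2 : ∑ s, ρ s * A * ρ s⁻¹ = (k : ℤ) • (1 : Matrix (Fin n) (Fin n) ℤ) := by
    have hn' : (n : ℤ) ≠ 0 := by exact_mod_cast hn.ne'
    have h3 : (n : ℤ) • ∑ s, ρ s * A * ρ s⁻¹ = (n : ℤ) • ((k : ℤ) • (1 : Matrix (Fin n) (Fin n) ℤ)) := by
      rw [h1, smul_smul]; push_cast; rfl
    exact smul_right_injective _ hn' h3
  have hiso' : ∀ s : G, ∀ u v : Fin n → ℤ, ip B (ρ s *ᵥ u) (ρ s *ᵥ v) = ip B u v := by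
    intro s u v
    exact ip_inv hiso s u v
  have hxi : ρ g⁻¹ *ᵥ x = x := by
    conv_lhs => rw [← hx]
    rw [Matrix.mulVec_mulVec, ← map_mul]; simp
  have h4 : (k : ℤ) * ip B x x = ∑ s, ip B x (ρ s *ᵥ (A *ᵥ (ρ s⁻¹ *ᵥ x))) := by
    rw [← ip_sum_right, ← ip_smul_right]
    congr 1
    have h5 : (∑ s, ρ s * A * ρ s⁻¹) *ᵥ x = (k : ℤ) • x := by
      rw [h2, Matrix.smul_mulVec, Matrix.one_mulVec]
    rw [← h5, Matrix.sum_mulVec]
    refine Finset.sum_congr rfl fun s _ => ?_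
    rw [Matrix.mulVec_mulVec, Matrix.mulVec_mulVec, Matrix.mul_assoc]
  have h6 : (p : ℤ) ∣ (k : ℤ) * ip B x x := by
    rw [h4, ← hg]
    refine dvd_sum_of_left_inv _ g fun s => ?_
    rw [_root_.mul_inv_rev, map_mul, map_mul, ← Matrix.mulVec_mulVec, ← Matrix.mulVec_mulVec, hxi]
    have h8 := hiso' g x (ρ s *ᵥ (A *ᵥ (ρ s⁻¹ *ᵥ x)))
    rw [hx] at h8
    exact h8
  have hpp : Prime (p : ℤ) := Nat.prime_iff_prime_int.mp hp
  rcases hpp.dvd_or_dvd h6 with h7 | h7
  · exact absurd (by exact_mod_cast h7) hk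
  · exact h7

end Pool.Agent.H90.TS
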