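import Mathlib
import Pool.Agent.H90.TS.As3
import Pool.Agent.H90.TS.P31
import Pool.Agent.H90.TS.Cnt1
import Pool.Agent.H90.TS.Cnt2

set_option autoImplicit false

/-!
Assembly (helper90, MP_660bdc_al).
-/

namespace Pool.Agent.H90.TS

open Matrix Complex

/-- Schur's lemma for a complexified integral representation. -/
theorem schur_of_irr {n : ℕ} {G : Type} [Group G] (ρ : G →* Matrix (Fin n) (Fin n) ℤ)
    (hn : 0 < n)
    (hirr : ∀ W : Submodule ℂ (Fin n → ℂ),
      (∀ g, ∀ w ∈ W, (ρ g).map (Int.cast : ℤ → ℂ) *ᵥ w ∈ W) → W = ⊥ ∨ W = ⊤)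
    (A : Matrix (Fin n) (Fin n) ℚ)
    (hA : ∀ g, A * (ρ g).map (Int.cast : ℤ → ℚ) = (ρ g).map (Int.cast : ℤ → ℚ) * A) :
    ∃ c : ℚ, A = c • (1 : Matrix (Fin n) (Fin n) ℚ) := by
  classical
  haveI : Nonempty (Fin n) := ⟨⟨0, hn⟩⟩
  set AC : Matrix (Fin n) (Fin n) ℂ := A.map (Rat.cast : ℚ → ℂ) with hAC
  have hcomm : ∀ g, AC * (ρ g).map (Int.cast : ℤ → ℂ) = (ρ g).map (Int.cast : ℤ → ℂ) * AC := by
    intro g
    have h1 := congrArg (fun M : Matrix (Fin n) (Fin n) ℚ => M.map (Rat.castHom ℂ)) (hA g)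
    simp only [Matrix.map_mul] at h1
    have h2 : ((ρ g).map (Int.cast : ℤ → ℚ)).map (Rat.castHom ℂ) =
        (ρ g).map (Int.cast : ℤ → ℂ) := by
      ext i j; simp
    rw [h2] at h1
    exact h1
  obtain ⟨μ, hμ⟩ := Module.End.exists_eigenvalue (Matrix.toLin' AC)
  set W := Module.End.eigenspace (Matrix.toLin' AC) μ with hW
  have hWinv : ∀ g, ∀ w ∈ W, (ρ g).map (Int.cast : ℤ → ℂ) *ᵥ w ∈ W := by
    intro g w hw
    rw [hW, Module.End.mem_eigenspace_iff, Matrix.toLin'_apply] at hw ⊢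
    rw [mulVec_mulVec, hcomm, ← mulVec_mulVec, hw, mulVec_smul]
  have hWtop : W = ⊤ := by
    rcases hirr W hWinv with h | h
    · exact absurd h hμ
    · exact h
  have hall : ∀ w : Fin n → ℂ, AC *ᵥ w = μ • w := by
    intro w
    have : w ∈ W := by rw [hWtop]; trivial
    rw [hW, Module.End.mem_eigenspace_iff, Matrix.toLin'_apply] at this
    exact this
  have hentry : ∀ i j, AC i j = if i = j then μ else 0 := by
    intro i j
    have h1 := congrFun (hall (Pi.single j 1)) i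
    rw [mulVec_single_one] at h1
    simp only [Matrix.col_apply, Pi.smul_apply, smul_eq_mul] at h1
    rw [h1, Pi.single_apply]
    split <;> simp
  set i0 : Fin n := ⟨0, hn⟩
  have hμ0 : μ = (A i0 i0 : ℂ) := by
    have := hentry i0 i0
    rw [if_pos rfl] at this
    rw [← this]; rfl
  refine ⟨A i0 i0, ?_⟩
  ext i j
  have h1 := hentry i j
  rw [hμ0] at h1
  rw [Matrix.smul_apply, Matrix.one_apply, smul_eq_mul]
  have h2 : (A i j : ℂ) = if i = j then (A i0 i0 : ℂ) else 0 := h1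
  split at h2
  · next h => rw [if_pos h, mul_one]; exact_mod_cast h2
  · next h => rw [if_neg h, mul_zero]; exact_mod_cast h2

end Pool.Agent.H90.TS
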