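import Mathlib
import Pool.Agent.H90.TS.As4

set_option autoImplicit false

/-!
Final assembly (helper90, MP_660bdc_al).
-/

namespace Pool.Agent.H90.TS

open Matrix Complex

theorem ip_pos {n : ℕ} {B : Matrix (Fin n) (Fin n) ℤ} (h : (B.map (Int.cast : ℤ → ℝ)).PosDef) :
    Bᵀ = B ∧ ∀ x : Fin n → ℤ, x ≠ 0 → 0 < ip B x x := by
  constructor
  · have h1 := h.1
    ext i j
    have h2 := congrFun (congrFun h1 i) j
    simp only [conjTranspose_apply, map_apply, star_trivial] at h2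
    rw [transpose_apply]
    exact_mod_cast h2
  · intro x hx
    set y : Fin n → ℝ := fun i => (x i : ℝ) with hy
    have hy0 : y ≠ 0 := by
      intro h0
      apply hx
      funext i
      have := congrFun h0 i
      simp only [hy, Pi.zero_apply] at this
      exact_mod_cast this
    have h2 := h.dotProduct_mulVec_pos hy0
    have h3 : star y ⬝ᵥ (B.map (Int.cast : ℤ → ℝ)) *ᵥ y = ((ip B x x : ℤ) : ℝ) := by
      unfold ip
      simp only [dotProduct, mulVec, star_trivial, map_apply, hy]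
      push_cast
      rfl
    rw [h3] at h2
    exact_mod_cast h2

theorem exists_pow_of_dvd {G : Type} [Group G] [Finite G] {g : G} {p : ℕ} (hp : p.Prime)
    (h : p ∣ orderOf g) : ∃ k : ℕ, orderOf (g ^ k) = p := by
  refine ⟨orderOf g / p, ?_⟩
  have h0 : 0 < orderOf g := orderOf_pos g
  exact orderOf_pow_orderOf_div h0.ne' h

theorem fixed_pow {n : ℕ} {G : Type} [Group G] {ρ : G →* Matrix (Fin n) (Fin n) ℤ} {g : G}
    {x : Fin n → ℤ} (hx : ρ g *ᵥ x = x) (k : ℕ) : ρ (g ^ k) *ᵥ x = x := by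
  induction k with
  | zero => simp
  | succ k ih => rw [pow_succ, map_mul, ← mulVec_mulVec, hx, ih]

theorem main31 {G : Type} [Group G] [Fintype G] {B : Matrix (Fin 248) (Fin 248) ℤ}
    {ρ : G →* Matrix (Fin 248) (Fin 248) ℤ}
    (hcard : Fintype.card G = 2 ^ 15 * 3 ^ 10 * 5 ^ 3 * 7 ^ 2 * 13 * 19 * 31)
    (hs : Bᵀ = B) (hiso : ∀ g, (ρ g)ᵀ * B * ρ g = B)
    (habs : ∀ A : Matrix (Fin 248) (Fin 248) ℚ,
      (∀ g, A * (ρ g).map (Int.cast : ℤ → ℚ) = (ρ g).map (Int.cast : ℤ → ℚ) * A) →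
      ∃ c : ℚ, A = c • (1 : Matrix (Fin 248) (Fin 248) ℚ))
    {m : ℤ} (hm : ¬ 31 ∣ m) {x : Fin 248 → ℤ} (hx : ip B x x = 2 * m) {g : G}
    (hg : ρ g *ᵥ x = x) : ¬ 31 ∣ orderOf g := by
  intro hdvd
  have hp : Nat.Prime 31 := by norm_num
  obtain ⟨k, hk⟩ := exists_pow_of_dvd hp hdvd
  have h1 := fixed_norm_dvd (B := B) hs hiso habs (by norm_num) hp
    (k := 2 ^ 12 * 3 ^ 10 * 5 ^ 3 * 7 ^ 2 * 13 * 19) (by norm_num) (by rw [hcard]; norm_num) hk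
    (fixed_pow hg k)
  rw [hx] at h1
  have hpz : Prime (31 : ℤ) := by exact_mod_cast Nat.prime_iff_prime_int.mp hp
  rcases hpz.dvd_or_dvd (by exact_mod_cast h1) with h2 | h2
  · revert h2; norm_num
  · exact hm h2

theorem main19 {G : Type} [Group G] [Fintype G] {B : Matrix (Fin 248) (Fin 248) ℤ}
    {ρ : G →* Matrix (Fin 248) (Fin 248) ℤ}
    (hcard : Fintype.card G = 2 ^ 15 * 3 ^ 10 * 5 ^ 3 * 7 ^ 2 * 13 * 19 * 31)
    (hs : Bᵀ = B) (hpos : ∀ x : Fin 248 → ℤ, x ≠ 0 → 0 < ip B x x)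
    (hdet : B.det = 1) (heven : ∀ x : Fin 248 → ℤ, Even (ip B x x))
    (hiso : ∀ g, (ρ g)ᵀ * B * ρ g = B)
    (habs : ∀ A : Matrix (Fin 248) (Fin 248) ℚ,
      (∀ g, A * (ρ g).map (Int.cast : ℤ → ℚ) = (ρ g).map (Int.cast : ℤ → ℚ) * A) →
      ∃ c : ℚ, A = c • (1 : Matrix (Fin 248) (Fin 248) ℚ))
    (htr : ∀ h : G, orderOf h = 19 → (ρ h).trace = 1)
    {m j : ℤ} (hj : ¬ 19 ∣ j) (hm : 19 ∣ m - j ^ 2) {x : Fin 248 → ℤ} (hx : ip B x x = 2 * m)
    {g : G} (hg : ρ g *ᵥ x = x) : ¬ 19 ∣ orderOf g := by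
  intro hdvd
  have hp : Nat.Prime 19 := by norm_num
  obtain ⟨k, hk⟩ := exists_pow_of_dvd hp hdvd
  exact nineteen hs hpos hdet heven hiso habs
    (k := 2 ^ 12 * 3 ^ 10 * 5 ^ 3 * 7 ^ 2 * 13) (by norm_num) (by rw [hcard]; norm_num) htr hk
    (fixed_pow hg k) hx hj hm

/-- divisibility of the number of vectors of norm `m` by `2` and an odd prime `p`. -/
theorem two_mul_dvd {n : ℕ} {B : Matrix (Fin n) (Fin n) ℤ} {G : Type} [Group G] [Fintype G]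
    {ρ : G →* Matrix (Fin n) (Fin n) ℤ} (hiso : ∀ g, (ρ g)ᵀ * B * ρ g = B) {m : ℤ}
    (hm : m ≠ 0) (hfin : {x : Fin n → ℤ | ip B x x = m}.Finite) {p : ℕ} (hp : p.Prime)
    (hp2 : p ≠ 2) (hdvd : p ∣ Fintype.card G)
    (hfix : ∀ x, ip B x x = m → ∀ g : G, ρ g *ᵥ x = x → ¬ p ∣ orderOf g) :
    2 * p ∣ {x : Fin n → ℤ | ip B x x = m}.ncard := by
  haveI : Fact p.Prime := ⟨hp⟩
  obtain ⟨g, hg⟩ := exists_prime_orderOf_dvd_card p hdvd
  apply Nat.Coprime.mul_dvd_of_dvd_of_dvd ((Nat.coprime_primes Nat.prime_two hp).mpr hp2.symm)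
    (two_dvd_ncard hm hfin)
  exact dvd_ncard hiso hfin hp hg fun x hx hxm => hfix x hxm g hx (by rw [hg])

end Pool.Agent.H90.TS
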