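import Mathlib
import Pool.Agent.H90.TS.Sc
import Pool.Agent.H90.TS.Fam3

set_option autoImplicit false

/-!
If `p` divides the degree `n` and `p ^ 2` does not divide the group order, then
`∑ k < p, trace (ρ (g ^ k)) ≤ n` for an element `g` of order `p`
(the lattice is projective over `ℤ_p ⟨g⟩`); helper90, MP_660bdc_al.
-/

namespace Pool.Agent.H90.TS

open Matrix

theorem sum_cosets {G M : Type} [Group G] [Fintype G] [AddCommMonoid M] (f : G → M) (g : G) :
    ∃ (Q : Type) (_ : Fintype Q) (t : Q → G),
      ∀ F : G → M, ∑ s, F s = ∑ q : Q, ∑ k ∈ Finset.range (orderOf g), F (g ^ k * t q) := by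
  classical
  refine ⟨G ⧸ Subgroup.zpowers g, inferInstance, fun q => q.out⁻¹, fun F => ?_⟩
  have h1 : ∑ s, F s = ∑ s, F s⁻¹ := (Equiv.sum_comp (Equiv.inv G) F).symm
  rw [h1, ← Finset.sum_fiberwise (s := Finset.univ)
    (g := fun s : G => (s : G ⧸ Subgroup.zpowers g)) (f := fun s => F s⁻¹)]
  refine Finset.sum_congr rfl fun q _ => ?_
  symm
  refine Finset.sum_bij (fun k _ => q.out * (g ^ k)⁻¹) ?_ ?_ ?_ ?_
  · intro k _
    rw [Finset.mem_filter]
    refine ⟨Finset.mem_univ _, ?_⟩
    conv_rhs => rw [← QuotientGroup.out_eq' q]
    rw [eq_comm, QuotientGroup.eq, inv_mul_cancel_left]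
    exact Subgroup.inv_mem _ (Subgroup.npow_mem_zpowers g k)
  · intro k hk l hl hkl
    have h2 : g ^ k = g ^ l := inv_injective (mul_left_cancel hkl)
    exact pow_injOn_Iio_orderOf (Finset.mem_range.mp hk) (Finset.mem_range.mp hl) h2
  · intro s hs
    rw [Finset.mem_filter] at hs
    have h2 : q.out⁻¹ * s ∈ Subgroup.zpowers g := by
      rw [← QuotientGroup.eq, QuotientGroup.out_eq', hs.2]
    have h3 := Subgroup.inv_mem _ h2
    rw [mem_zpowers_iff_mem_range_orderOf] at h3
    obtain ⟨k, hk, hk2⟩ := Finset.mem_image.mp h3
    refine ⟨k, hk, ?_⟩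
    rw [hk2]; group
  · intro k _
    congr 1
    group

/-- linear algebra: a nilpotent-type bound. -/
theorem finrank_ker_le {K V : Type} [Field K] [AddCommGroup V] [Module K V] [Module.Finite K V]
    (δ : V →ₗ[K] V) (p : ℕ) (h : ∀ z, δ z = 0 → ∀ i < p, ∃ w, z = (δ ^ i) w) :
    p * Module.finrank K (LinearMap.ker δ) ≤ Module.finrank K V := by
  have key : ∀ i ≤ p, i * Module.finrank K (LinearMap.ker δ) +
      Module.finrank K (LinearMap.range (δ ^ i)) ≤ Module.finrank K V := by
    intro i
    induction i with
    | zero => intro _; simpa using Submodule.finrank_le _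
    | succ i ih =>
      intro hi
      have h1 := ih (by omega)
      set R := LinearMap.range (δ ^ i) with hR
      have h2 := LinearMap.finrank_range_add_finrank_ker (δ.domRestrict R)
      have h3 : LinearMap.range (δ.domRestrict R) = LinearMap.range (δ ^ (i + 1)) := by
        rw [LinearMap.range_domRestrict, hR, pow_succ', Module.End.mul_eq_comp,
          LinearMap.range_comp]
      have h4 : Module.finrank K (LinearMap.ker δ) ≤
          Module.finrank K (LinearMap.ker (δ.domRestrict R)) := by
        set φ : LinearMap.ker δ →ₗ[K] LinearMap.ker (δ.domRestrict R) :=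
          LinearMap.codRestrict _ (LinearMap.codRestrict R (LinearMap.ker δ).subtype (by
            intro z
            obtain ⟨w, hw⟩ := h z.1 z.2 i (by omega)
            exact ⟨w, hw.symm⟩)) (by
            intro z
            rw [LinearMap.mem_ker, LinearMap.domRestrict_apply]
            exact z.2) with hφ
        have hinj : Function.Injective φ := by
          intro a b hab
          have h5 := congrArg (fun y => ((y.1 : R) : V)) hab
          exact Subtype.ext h5
        exact LinearMap.finrank_le_finrank_of_injective hinj
      rw [h3] at h2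
      calc (i + 1) * Module.finrank K (LinearMap.ker δ) +
            Module.finrank K (LinearMap.range (δ ^ (i + 1)))
          ≤ i * Module.finrank K (LinearMap.ker δ) +
            (Module.finrank K (LinearMap.range (δ ^ (i + 1))) +
              Module.finrank K (LinearMap.ker (δ.domRestrict R))) := by
              rw [add_mul, one_mul]; omega
        _ = i * Module.finrank K (LinearMap.ker δ) + Module.finrank K R := by rw [h2]
        _ ≤ Module.finrank K V := h1
  exact le_trans (Nat.le_add_right _ _) (key p le_rfl)

end Pool.Agent.H90.TS
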