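import Mathlib
import Pool.Agent.H90.TS.Frc
import Pool.Agent.H90.TS.Fam2

set_option autoImplicit false

/-!
Projectivity modulo `p` and the trace bound (helper90, MP_660bdc_al).
-/

namespace Pool.Agent.H90.TS

open Matrix

/-- `∑ j < p, (1 + X) ^ j = X ^ (p - 1)` in characteristic `p`, evaluated. -/
theorem geom_char {p : ℕ} [hp : Fact p.Prime] {V : Type} [AddCommGroup V] [Module (ZMod p) V]
    (d : V →ₗ[ZMod p] V) : ∑ j ∈ Finset.range p, (1 + d) ^ j = d ^ (p - 1) := by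
  have h1 : (∑ j ∈ Finset.range p, ((1 : Polynomial (ZMod p)) + Polynomial.X) ^ j) =
      Polynomial.X ^ (p - 1) := by
    have hX : (Polynomial.X : Polynomial (ZMod p)) ≠ 0 := Polynomial.X_ne_zero
    apply mul_right_cancel₀ hX
    have h2 := geom_sum_mul ((1 : Polynomial (ZMod p)) + Polynomial.X) p
    rw [add_sub_cancel_left] at h2
    rw [h2, add_pow_char, one_pow, add_sub_cancel_left, ← pow_succ, Nat.sub_add_cancel hp.out.pos]
  have h3 := congrArg (Polynomial.aeval d) h1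
  simpa using h3

variable {n : ℕ} {B : Matrix (Fin n) (Fin n) ℤ} {G : Type} [Group G] [Fintype G]
  {ρ : G →* Matrix (Fin n) (Fin n) ℤ}

/-- reduction of the representation modulo `p`. -/
def red (p : ℕ) (ρ : G →* Matrix (Fin n) (Fin n) ℤ) : G →* Matrix (Fin n) (Fin n) (ZMod p) :=
  ((Int.castRingHom (ZMod p)).mapMatrix : Matrix (Fin n) (Fin n) ℤ →+* _).toMonoidHom.comp ρ

theorem ker_red_le (habs : ∀ A : Matrix (Fin n) (Fin n) ℚ,
      (∀ g, A * (ρ g).map (Int.cast : ℤ → ℚ) = (ρ g).map (Int.cast : ℤ → ℚ) * A) →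
      ∃ c : ℚ, A = c • (1 : Matrix (Fin n) (Fin n) ℚ))
    (hn : 0 < n) {p : ℕ} [hp : Fact p.Prime] {k : ℕ} (hk : ¬ p ∣ k)
    (hcard : Fintype.card G = n * k) {g : G} (hg : orderOf g = p) :
    p * Module.finrank (ZMod p) (LinearMap.ker (Matrix.toLin' (red p ρ g) - 1)) ≤ n := by
  classical
  set A : Matrix (Fin n) (Fin n) ℤ := Matrix.single ⟨0, hn⟩ ⟨0, hn⟩ 1 with hA
  have htr : A.trace = 1 := by rw [hA, Matrix.trace_single_eq_same]
  have h1 := schur_avg (ρ := ρ) habs A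
  rw [htr, mul_one, hcard] at h1
  have h2 : ∑ s, ρ s * A * ρ s⁻¹ = (k : ℤ) • (1 : Matrix (Fin n) (Fin n) ℤ) := by
    have hn' : (n : ℤ) ≠ 0 := by exact_mod_cast hn.ne'
    have h3 : (n : ℤ) • ∑ s, ρ s * A * ρ s⁻¹ = (n : ℤ) • ((k : ℤ) • (1 : Matrix (Fin n) (Fin n) ℤ)) := by
      rw [h1, smul_smul]; push_cast; rfl
    exact smul_right_injective _ hn' h3
  obtain ⟨Q, _, t, hQ⟩ := sum_cosets (M := Matrix (Fin n) (Fin n) ℤ) (fun s => ρ s * A * ρ s⁻¹) g
  rw [hQ, hg] at h2
  set ψ : Matrix (Fin n) (Fin n) ℤ := ∑ q : Q, ρ (t q) * A * ρ (t q)⁻¹ with hψ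
  have h3 : ∑ j ∈ Finset.range p, ρ (g ^ j) * ψ * ρ (g ^ j)⁻¹ =
      (k : ℤ) • (1 : Matrix (Fin n) (Fin n) ℤ) := by
    rw [← h2, Finset.sum_comm]
    refine Finset.sum_congr rfl fun j _ => ?_
    rw [hψ, Finset.mul_sum, Finset.sum_mul]
    refine Finset.sum_congr rfl fun q _ => ?_
    rw [_root_.mul_inv_rev, map_mul, map_mul]
    simp only [Matrix.mul_assoc]
  set δ := Matrix.toLin' (red p ρ g) - 1 with hδ
  have hk0 : (k : ZMod p) ≠ 0 := by
    rw [Ne, ZMod.natCast_eq_zero_iff]; exact hk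
  set ψ' : Matrix (Fin n) (Fin n) (ZMod p) := ψ.map (Int.cast : ℤ → ZMod p) with hψ'
  have h4 : ∑ j ∈ Finset.range p, red p ρ (g ^ j) * ψ' * red p ρ (g ^ j)⁻¹ =
      (k : ZMod p) • (1 : Matrix (Fin n) (Fin n) (ZMod p)) := by
    have h5 := congrArg ((Int.castRingHom (ZMod p)).mapMatrix) h3
    rw [map_sum] at h5
    simp only [map_mul] at h5
    have h6 : (Int.castRingHom (ZMod p)).mapMatrix ((k : ℤ) • (1 : Matrix (Fin n) (Fin n) ℤ)) =
        (k : ZMod p) • (1 : Matrix (Fin n) (Fin n) (ZMod p)) := by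
      rw [map_zsmul, map_one]
      ext i j
      simp [Matrix.smul_apply]
    rw [h6] at h5
    exact h5
  have hgk : ∀ j : ℕ, Matrix.toLin' (red p ρ (g ^ j)) = (1 + δ) ^ j := by
    intro j
    rw [hδ, add_sub_cancel, map_pow, Matrix.toLin'_pow]
  have hz : ∀ z, δ z = 0 → ∀ i < p, ∃ w, z = (δ ^ i) w := by
    intro z hz0 i hi
    have hfix : ∀ s, s ∈ Set.range (fun j : ℕ => g ^ j) → red p ρ s *ᵥ z = z := by
      rintro s ⟨j, rfl⟩
      have e1 : red p ρ g *ᵥ z = z := by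
        have e2 : δ z = red p ρ g *ᵥ z - z := by
          rw [hδ, LinearMap.sub_apply, Matrix.toLin'_apply]; rfl
        rw [e2] at hz0
        exact sub_eq_zero.mp hz0
      show red p ρ (g ^ j) *ᵥ z = z
      induction j with
      | zero => simp
      | succ j ih => rw [pow_succ, map_mul, ← mulVec_mulVec, e1, ih]
    have hinv : ∀ j : ℕ, red p ρ (g ^ j)⁻¹ *ᵥ z = z := by
      intro j
      have e1 := hfix (g ^ j) ⟨j, rfl⟩
      have e2 : red p ρ (g ^ j)⁻¹ *ᵥ (red p ρ (g ^ j) *ᵥ z) = z := by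
        rw [mulVec_mulVec, ← map_mul, inv_mul_cancel, map_one, one_mulVec]
      rw [e1] at e2
      exact e2
    have h5 := congrArg (fun M : Matrix (Fin n) (Fin n) (ZMod p) => M *ᵥ z) h4
    simp only [Matrix.sum_mulVec, smul_mulVec, one_mulVec] at h5
    have h6 : ∀ j ∈ Finset.range p, (red p ρ (g ^ j) * ψ' * red p ρ (g ^ j)⁻¹) *ᵥ z =
        ((1 + δ) ^ j) (ψ' *ᵥ z) := by
      intro j _
      rw [← mulVec_mulVec, hinv j, ← mulVec_mulVec, ← hgk j, Matrix.toLin'_apply]
    rw [Finset.sum_congr rfl h6, ← LinearMap.sum_apply, geom_char] at h5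
    refine ⟨(δ ^ (p - 1 - i)) ((k : ZMod p)⁻¹ • (ψ' *ᵥ z)), ?_⟩
    rw [← Module.End.mul_apply, ← pow_add, show i + (p - 1 - i) = p - 1 by omega, map_smul, h5,
      smul_smul, inv_mul_cancel₀ hk0, one_smul]
  have h7 := finrank_ker_le δ p hz
  rwa [Module.finrank_fintype_fun_eq_card, Fintype.card_fin] at h7

theorem family_le {p : ℕ} [hp : Fact p.Prime] {g : G}
    {r : ℕ} (v : Fin r → Fin n → ℤ) (hv : ∀ i, ρ g *ᵥ v i = v i) (hv0 : ∀ i, v i ≠ 0)
    (hpos : ∀ x : Fin n → ℤ, x ≠ 0 → 0 < ip B x x)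
    (hvo : ∀ i j, i ≠ j → ip B (v i) (v j) = 0) :
    r ≤ Module.finrank (ZMod p) (LinearMap.ker (Matrix.toLin' (red p ρ g) - 1)) := by
  classical
  set F : Submodule ℤ (Fin n → ℤ) := LinearMap.ker (Matrix.toLin' (ρ g) - 1) with hF
  have hFm : ∀ z, z ∈ F ↔ ρ g *ᵥ z = z := by
    intro z
    rw [hF, LinearMap.mem_ker, LinearMap.sub_apply, Matrix.toLin'_apply, sub_eq_zero]; rfl
  -- r ≤ finrank F
  have h1 : r ≤ Module.finrank ℤ F := by
    have hli : LinearIndependent ℤ (fun i : Fin r => (⟨v i, (hFm _).mpr (hv i)⟩ : F)) := by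
      rw [Fintype.linearIndependent_iff]
      intro c hc i
      have h2 : ∑ j, c j • v j = 0 := by
        have := congrArg Subtype.val hc
        simpa using this
      have h3 : ip B (∑ j, c j • v j) (v i) = 0 := by rw [h2, ip_zero_left]
      rw [ip_sum_left, Finset.sum_eq_single i] at h3
      · rw [ip_smul_left] at h3
        exact (mul_eq_zero.mp h3).resolve_right (hpos _ (hv0 i)).ne'
      · intro j _ hji
        rw [ip_smul_left, hvo j i hji, mul_zero]
      · intro h; exact absurd (Finset.mem_univ i) h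
    have := hli.fintype_card_le_finrank
    simpa using this
  refine h1.trans ?_
  -- finrank F ≤ finrank of the kernel mod p
  set b := Module.finBasis ℤ F with hb
  set w : Fin (Module.finrank ℤ F) → (Fin n → ZMod p) := fun i j => ((b i).1 j : ZMod p) with hw
  have hwk : ∀ i, w i ∈ LinearMap.ker (Matrix.toLin' (red p ρ g) - 1) := by
    intro i
    rw [LinearMap.mem_ker, LinearMap.sub_apply, Matrix.toLin'_apply, sub_eq_zero]
    have h2 := (hFm _).mp (b i).2
    funext j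
    have h3 := congrArg (Int.cast : ℤ → ZMod p) (congrFun h2 j)
    show _ = w i j
    rw [hw]
    simp only [mulVec, dotProduct] at h3 ⊢
    rw [← h3]
    push_cast
    rfl
  have hli : LinearIndependent (ZMod p) (fun i => (⟨w i, hwk i⟩ :
      LinearMap.ker (Matrix.toLin' (red p ρ g) - 1))) := by
    rw [Fintype.linearIndependent_iff]
    intro c hc i
    have h2 : ∑ j, c j • w j = 0 := by
      have := congrArg Subtype.val hc
      simpa using this
    set c' : Fin (Module.finrank ℤ F) → ℤ := fun j => (c j).val with hc'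
    have hcc : ∀ j, ((c' j : ℤ) : ZMod p) = c j := by intro j; simp [hc']
    set u : F := ∑ j, c' j • b j with hu
    have h3 : ∀ l, (p : ℤ) ∣ u.1 l := by
      intro l
      rw [← ZMod.intCast_zmod_eq_zero_iff_dvd]
      have h4 := congrFun h2 l
      simp only [Finset.sum_apply, Pi.smul_apply, smul_eq_mul, Pi.zero_apply] at h4
      rw [← h4, hu]
      simp only [Submodule.coe_sum, Submodule.coe_smul, Finset.sum_apply, Pi.smul_apply,
        smul_eq_mul]
      push_cast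
      refine Finset.sum_congr rfl fun j _ => ?_
      rw [← hcc j]
    choose y hy using h3
    have hpy : u.1 = (p : ℤ) • y := by funext l; rw [hy l]; rfl
    have hyF : y ∈ F := by
      rw [hFm]
      have h4 := (hFm _).mp u.2
      rw [hpy, mulVec_smul] at h4
      have hp0 : (p : ℤ) ≠ 0 := by exact_mod_cast hp.out.ne_zero
      exact smul_right_injective _ hp0 h4
    have h5 : u = (p : ℤ) • (⟨y, hyF⟩ : F) := Subtype.ext hpy
    have h6 : b.repr u i = c' i := by
      rw [hu, map_sum]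
      simp only [map_smul, Module.Basis.repr_self]
      rw [Finsupp.finset_sum_apply, Finset.sum_eq_single i]
      · simp
      · intro j _ hji
        simp [hji]
      · intro h; exact absurd (Finset.mem_univ i) h
    rw [h5, map_smul, Finsupp.smul_apply] at h6
    rw [← hcc i, ← h6]
    simp
  have := hli.fintype_card_le_finrank
  simpa using this

theorem nm_trace_le (hs : Bᵀ = B) (hpos : ∀ x : Fin n → ℤ, x ≠ 0 → 0 < ip B x x)
    (hiso : ∀ g, (ρ g)ᵀ * B * ρ g = B)
    (habs : ∀ A : Matrix (Fin n) (Fin n) ℚ,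
      (∀ g, A * (ρ g).map (Int.cast : ℤ → ℚ) = (ρ g).map (Int.cast : ℤ → ℚ) * A) →
      ∃ c : ℚ, A = c • (1 : Matrix (Fin n) (Fin n) ℚ))
    (hn : 0 < n) {p : ℕ} (hp : p.Prime) {k : ℕ} (hk : ¬ p ∣ k)
    (hcard : Fintype.card G = n * k) {g : G} (hg : orderOf g = p) :
    (nm ρ g p).trace ≤ n := by
  haveI : Fact p.Prime := ⟨hp⟩
  obtain ⟨r, v, hvT, hv0, hvo, hvc⟩ := exists_family hs hpos hp hg (ρ := ρ)
  have hr := family_card hs hpos hiso hp hg v hvT hv0 hvo hvc
  have hvF : ∀ i, ρ g *ᵥ v i = v i := by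
    intro i
    obtain ⟨z, hz⟩ := hvT i
    rw [hz]; exact nm_fixed hg z
  have h1 := family_le (p := p) (g := g) v hvF hv0 hpos hvo
  have h2 := ker_red_le (ρ := ρ) habs hn hk hcard hg
  rw [← hr]
  have h3 : p * r ≤ n := le_trans (Nat.mul_le_mul_left p h1) h2
  exact_mod_cast h3

end Pool.Agent.H90.TS
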