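import Mathlib
import Pool.Agent.H90.TS.Def

set_option autoImplicit false

/-!
Free action of a `p`-subgroup on the vectors of given norm (helper90, MP_660bdc_al).
-/

namespace Pool.Agent.H90.TS

open Matrix

theorem card_dvd_of_free {S X : Type} [Group S] [Fintype S] [Fintype X] [MulAction S X]
    (h : ∀ (s : S) (x : X), s • x = x → s = 1) : Fintype.card S ∣ Fintype.card X := by
  classical
  rw [MulAction.card_eq_sum_card_group_div_card_stabilizer S X]
  refine Finset.dvd_sum fun ω _ => ?_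
  have : Fintype.card (MulAction.stabilizer S ω.out) = 1 := by
    rw [Fintype.card_eq_one_iff]
    refine ⟨1, fun s => ?_⟩
    apply Subtype.ext
    exact h s.1 _ s.2
  rw [this, Nat.div_one]

theorem pow_dvd_ncard {n : ℕ} {B : Matrix (Fin n) (Fin n) ℤ} {G : Type} [Group G] [Fintype G]
    {ρ : G →* Matrix (Fin n) (Fin n) ℤ} (hiso : ∀ g, (ρ g)ᵀ * B * ρ g = B) {m : ℤ}
    (hfin : {x : Fin n → ℤ | ip B x x = m}.Finite) {p a : ℕ} (hp : p.Prime)
    (hdvd : p ^ a ∣ Fintype.card G)
    (hfix : ∀ x, ip B x x = m → ∀ g : G, ρ g *ᵥ x = x → ¬ p ∣ orderOf g) :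
    p ^ a ∣ {x : Fin n → ℤ | ip B x x = m}.ncard := by
  classical
  haveI : Fact p.Prime := ⟨hp⟩
  obtain ⟨S, hS⟩ := Sylow.exists_subgroup_card_pow_prime p (n := a) (G := G)
    (by rwa [Nat.card_eq_fintype_card])
  set X : Set (Fin n → ℤ) := {x : Fin n → ℤ | ip B x x = m} with hX
  haveI : Fintype X := hfin.fintype
  letI : MulAction S X :=
    { smul := fun s x => ⟨ρ s.1 *ᵥ x.1, by
        show ip B _ _ = m
        rw [ip_inv hiso]; exact x.2⟩
      one_smul := fun x => Subtype.ext (by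
        show ρ (1 : S).1 *ᵥ x.1 = x.1
        simp)
      mul_smul := fun s t x => Subtype.ext (by
        show ρ (s * t : S).1 *ᵥ x.1 = ρ s.1 *ᵥ (ρ t.1 *ᵥ x.1)
        rw [mulVec_mulVec, ← map_mul]; rfl) }
  have hfree : ∀ (s : S) (x : X), s • x = x → s = 1 := by
    intro s x hsx
    have h1 : ρ s.1 *ᵥ x.1 = x.1 := congrArg Subtype.val hsx
    have h2 := hfix x.1 x.2 s.1 h1
    by_contra hs1
    have h3 : IsPGroup p S := IsPGroup.of_card hS
    obtain ⟨k, hk⟩ := (IsPGroup.iff_orderOf.mp h3) s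
    have h4 : k ≠ 0 := by
      rintro rfl
      rw [pow_zero, orderOf_eq_one_iff] at hk
      exact hs1 hk
    apply h2
    rw [← Subgroup.orderOf_coe] at hk
    rw [hk]
    exact dvd_pow_self p h4
  have h5 := card_dvd_of_free hfree
  rw [← Nat.card_eq_fintype_card, hS, ← Nat.card_eq_fintype_card, Nat.card_coe_set_eq] at h5
  exact h5

end Pool.Agent.H90.TS
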