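import Mathlib
import Pool.Agent.H90.TS.Fra

set_option autoImplicit false

/-!
The Frobenius group `31 : 5` has no fixed vector, by traces (helper90, MP_660bdc_al).
-/

namespace Pool.Agent.H90.TS

open Matrix

/-- The trace of an integral matrix `e` with `e * e = c • e`, `c > 0`, which has a nonzero
vector `y` with `e y = c y`, is at least `c`. -/
theorem trace_ge {n : ℕ} (e : Matrix (Fin n) (Fin n) ℤ) {c : ℤ} (hc : 0 < c)
    (hee : e * e = c • e) {y : Fin n → ℤ} (hy : y ≠ 0) (hey : e *ᵥ y = c • y) :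
    c ≤ e.trace := by
  set E : Matrix (Fin n) (Fin n) ℚ := (c : ℚ)⁻¹ • e.map (Int.cast : ℤ → ℚ) with hE
  have hcq : (c : ℚ) ≠ 0 := by exact_mod_cast hc.ne'
  have hmap : (e.map (Int.cast : ℤ → ℚ)) * (e.map (Int.cast : ℤ → ℚ)) =
      (c : ℚ) • e.map (Int.cast : ℤ → ℚ) := by
    have h1 := congrArg (fun M : Matrix (Fin n) (Fin n) ℤ => M.map (Int.castRingHom ℚ)) hee
    simp only [Matrix.map_mul] at h1
    have h2 : (c • e).map (Int.castRingHom ℚ) = (c : ℚ) • e.map (Int.castRingHom ℚ) := by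
      ext i j
      simp only [map_apply, Matrix.smul_apply, smul_eq_mul, Int.coe_castRingHom]
      push_cast
      rfl
    rw [h2] at h1
    exact h1
  have hEE : E * E = E := by
    rw [hE, smul_mul_smul_comm, hmap, smul_smul]
    congr 1
    field_simp
  have hidem : IsIdempotentElem (Matrix.toLin' E) := by
    show Matrix.toLin' E * Matrix.toLin' E = _
    rw [Module.End.mul_eq_comp, ← Matrix.toLin'_mul, hEE]
  have htr := (LinearMap.IsIdempotentElem.isProj_range _ hidem).trace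
  rw [Matrix.trace_toLin'_eq] at htr
  have htrE : E.trace = (c : ℚ)⁻¹ * (e.trace : ℚ) := by
    rw [hE, Matrix.trace_smul, smul_eq_mul]
    congr 1
    simp [Matrix.trace]
  set yq : Fin n → ℚ := fun i => (y i : ℚ) with hyq
  have hyq0 : yq ≠ 0 := by
    intro h0; apply hy; funext i
    have := congrFun h0 i
    simp only [hyq, Pi.zero_apply] at this
    exact_mod_cast this
  have hEy : Matrix.toLin' E yq = yq := by
    rw [Matrix.toLin'_apply, hE, smul_mulVec]
    have h1 : (e.map (Int.cast : ℤ → ℚ)) *ᵥ yq = (c : ℚ) • yq := by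
      funext i
      have h2 := congrFun hey i
      simp only [mulVec, dotProduct, Pi.smul_apply, smul_eq_mul] at h2
      simp only [mulVec, dotProduct, map_apply, hyq, Pi.smul_apply, smul_eq_mul]
      exact_mod_cast h2
    rw [h1, smul_smul, inv_mul_cancel₀ hcq, one_smul]
  have hpos : 0 < Module.finrank ℚ (LinearMap.range (Matrix.toLin' E)) := by
    rw [Module.finrank_pos_iff_exists_ne_zero]
    refine ⟨⟨yq, ⟨yq, hEy⟩⟩, ?_⟩
    intro h
    exact hyq0 (congrArg Subtype.val h)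
  have h3 : (1 : ℚ) ≤ E.trace := by
    rw [htr]; exact_mod_cast hpos
  rw [htrE, ← div_eq_inv_mul, le_div_iff₀ (by exact_mod_cast hc), one_mul] at h3
  exact_mod_cast h3

variable {n : ℕ} {G : Type} [Group G] {ρ : G →* Matrix (Fin n) (Fin n) ℤ}

theorem nm_mul_nm {p : ℕ} {g : G} (hg : orderOf g = p) :
    nm ρ g p * nm ρ g p = (p : ℤ) • nm ρ g p := by
  apply Matrix.toLin'.injective
  apply LinearMap.ext
  intro z
  rw [Matrix.toLin'_apply, Matrix.toLin'_apply, ← mulVec_mulVec, nm_of_fixed (nm_fixed hg z),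
    smul_mulVec]

theorem comm_nm {a b : G} (ha : orderOf a = 31) (hab : b * a * b⁻¹ = a ^ 2) :
    ρ b * nm ρ a 31 = nm ρ a 31 * ρ b := by
  have h1 : ∀ i : ℕ, ρ b * ρ (a ^ i) = ρ (a ^ (2 * i)) * ρ b := by
    intro i
    rw [← map_mul, ← map_mul, ← conj_pow_two hab i]
    congr 1
    group
  have hper : ∀ i : ℕ, ρ (a ^ (i % 31)) = ρ (a ^ i) := by
    intro i
    rw [← ha, pow_mod_orderOf]
  unfold nm
  rw [Finset.mul_sum, Finset.sum_mul, Finset.sum_congr rfl fun i _ => h1 i]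
  rw [Finset.sum_congr rfl fun i _ => by rw [← hper (2 * i)]]
  refine Finset.sum_nbij' (fun i => 2 * i % 31) (fun i => 16 * i % 31) ?_ ?_ ?_ ?_ ?_
  · intro i _; exact Finset.mem_range.mpr (Nat.mod_lt _ (by norm_num))
  · intro i _; exact Finset.mem_range.mpr (Nat.mod_lt _ (by norm_num))
  · intro i hi; have := Finset.mem_range.mp hi; omega
  · intro i hi; have := Finset.mem_range.mp hi; omega
  · intro i _; rfl

theorem comm_nm' {a b : G} (ha : orderOf a = 31) (hab : b * a * b⁻¹ = a ^ 2) :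
    nm ρ b 5 * nm ρ a 31 = nm ρ a 31 * nm ρ b 5 := by
  have h1 : ∀ k : ℕ, ρ (b ^ k) * nm ρ a 31 = nm ρ a 31 * ρ (b ^ k) := by
    intro k
    induction k with
    | zero => simp
    | succ k ih =>
      rw [pow_succ, map_mul, Matrix.mul_assoc, comm_nm ha hab, ← Matrix.mul_assoc, ih,
        Matrix.mul_assoc]
  show (∑ k ∈ Finset.range 5, ρ (b ^ k)) * nm ρ a 31 = nm ρ a 31 * ∑ k ∈ Finset.range 5, ρ (b ^ k)
  rw [Finset.sum_mul, Finset.mul_sum]
  exact Finset.sum_congr rfl fun k _ => h1 k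

theorem conj_bj {a b : G} (hab : b * a * b⁻¹ = a ^ 2) (j : ℕ) (m : ℤ) :
    b ^ j * a ^ m * (b ^ j)⁻¹ = a ^ ((2 : ℤ) ^ j * m) := by
  induction j generalizing m with
  | zero => simp
  | succ j ih =>
    have h1 : b * a ^ m * b⁻¹ = a ^ (2 * m) := by
      have : b * a ^ m * b⁻¹ = (b * a * b⁻¹) ^ m := by rw [conj_zpow]
      rw [this, hab, ← zpow_natCast, ← _root_.zpow_mul]; rfl
    have h2 : b ^ (j + 1) * a ^ m * (b ^ (j + 1))⁻¹ = b ^ j * (b * a ^ m * b⁻¹) * (b ^ j)⁻¹ := by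
      rw [pow_succ]; group
    rw [h2, h1, ih]
    congr 1
    rw [pow_succ]; ring

theorem trace_aibj {a b : G} (ha : orderOf a = 31) (hab : b * a * b⁻¹ = a ^ 2) (i j : ℕ)
    (hj1 : 1 ≤ j) (hj : j < 5) : (ρ (a ^ i * b ^ j)).trace = (ρ (b ^ j)).trace := by
  have hex : ∃ k : ℤ, (31 : ℤ) ∣ (k - (2 : ℤ) ^ j * k) - i := by
    interval_cases j
    · exact ⟨-i, by ring_nf; exact dvd_zero _⟩
    · exact ⟨10 * i, ⟨-i, by ring⟩⟩
    · exact ⟨22 * i, ⟨-(5 * i), by ring⟩⟩
    · exact ⟨2 * i, ⟨-i, by ring⟩⟩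
  obtain ⟨k, c, hc⟩ := hex
  have h1 : a ^ k * b ^ j * (a ^ k)⁻¹ = a ^ i * b ^ j := by
    have h2 : b ^ j * (a ^ k)⁻¹ = a ^ ((2 : ℤ) ^ j * (-k)) * b ^ j := by
      rw [← conj_bj hab j (-k), _root_.zpow_neg]; group
    rw [mul_assoc, h2, ← mul_assoc, ← _root_.zpow_add]
    congr 1
    have h3 : k + (2 : ℤ) ^ j * (-k) = i + 31 * c := by linarith
    rw [h3, _root_.zpow_add, _root_.zpow_mul]
    have h4 : a ^ (31 : ℤ) = 1 := by
      have := pow_orderOf_eq_one a
      rw [ha] at this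
      exact_mod_cast this
    rw [h4, _root_.one_zpow, mul_one, zpow_natCast]
  rw [← h1, map_mul, map_mul, Matrix.trace_mul_comm, ← Matrix.mul_assoc, ← map_mul,
    inv_mul_cancel, map_one, Matrix.one_mul]

theorem no_fixed {a b : G} (ha : orderOf a = 31) (hb : orderOf b = 5)
    (hab : b * a * b⁻¹ = a ^ 2) (htr : ∀ c : G, orderOf c = 5 → (ρ c).trace = -2)
    (hS : (nm ρ a 31).trace ≤ 248) (y : Fin n → ℤ) (hya : ρ a *ᵥ y = y) (hyb : ρ b *ᵥ y = y) :
    y = 0 := by
  by_contra hy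
  have h1 := trace_ge (nm ρ a 31 * nm ρ b 5) (c := 155) (by norm_num) (by
    rw [Matrix.mul_assoc, ← Matrix.mul_assoc (nm ρ b 5), comm_nm' ha hab, Matrix.mul_assoc,
      nm_mul_nm hb, ← Matrix.mul_assoc, nm_mul_nm ha]
    rw [Matrix.mul_smul, Matrix.smul_mul, smul_smul]
    norm_num) hy (by
    rw [← mulVec_mulVec, nm_of_fixed hyb, mulVec_smul, nm_of_fixed hya, smul_smul]
    norm_num)
  have h2 : (nm ρ a 31 * nm ρ b 5).trace = (nm ρ a 31).trace - 248 := by
    unfold nm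
    rw [Finset.mul_sum, Finset.sum_range_succ', Matrix.trace_add, Matrix.trace_sum]
    have h3 : ∀ j ∈ Finset.range 4, ((∑ i ∈ Finset.range 31, ρ (a ^ i)) * ρ (b ^ (j + 1))).trace =
        -62 := by
      intro j hj
      have hj' := Finset.mem_range.mp hj
      haveI : Fact (Nat.Prime 5) := ⟨by norm_num⟩
      have hord : orderOf (b ^ (j + 1)) = 5 := by
        apply orderOf_eq_prime
        · rw [← pow_mul, mul_comm, pow_mul, ← hb, pow_orderOf_eq_one, one_pow]
        · exact pow_ne_one_of_lt_orderOf (by omega) (by rw [hb]; omega)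
      rw [Finset.sum_mul, Matrix.trace_sum]
      have h4 : ∀ i ∈ Finset.range 31, (ρ (a ^ i) * ρ (b ^ (j + 1))).trace = -2 := by
        intro i _
        rw [← map_mul, trace_aibj ha hab i (j + 1) (by omega) (by omega), htr _ hord]
      rw [Finset.sum_congr rfl h4]
      simp
    rw [Finset.sum_congr rfl h3, pow_zero, map_one, Matrix.mul_one]
    simp
    ring
  rw [h2] at h1
  linarith

end Pool.Agent.H90.TS
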