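import Mathlib
import Pool.Agent.H90.TS.Fra

set_option autoImplicit false

/-!
The Frobenius group `31 : 3` (lemma of helper19): a vector fixed by an element `b` of order `3`
which raises an element `a` of order `31` to its fifth power has norm divisible by `3`, if the group `⟨a, b⟩` has
no nonzero fixed vector (helper90, MP_660bdc_al).
-/

namespace Pool.Agent.H90.TS

open Matrix

variable {n : ℕ} {B : Matrix (Fin n) (Fin n) ℤ} {G : Type} [Group G]
  {ρ : G →* Matrix (Fin n) (Fin n) ℤ}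

theorem conj_pow_five {a b : G} (hab : b * a * b⁻¹ = a ^ 5) (i : ℕ) : b * a ^ i * b⁻¹ = a ^ (5 * i) := by
  have : b * a ^ i * b⁻¹ = (b * a * b⁻¹) ^ i := by rw [conj_pow]
  rw [this, hab, ← pow_mul]

/-- `nm a` of a `b`-fixed vector is `b`-fixed. -/
theorem nm_fixed_by3 {a b : G} (ha : orderOf a = 31) (hab : b * a * b⁻¹ = a ^ 5)
    {x : Fin n → ℤ} (hx : ρ b *ᵥ x = x) :
    ρ b *ᵥ (nm ρ a 31 *ᵥ x) = nm ρ a 31 *ᵥ x := by
  have h1 : ∀ i : ℕ, ρ b *ᵥ (ρ (a ^ i) *ᵥ x) = ρ (a ^ (5 * i)) *ᵥ x := by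
    intro i
    rw [← conj_pow_five hab i, map_mul, map_mul, ← mulVec_mulVec, ← mulVec_mulVec]
    congr 2
    have h2 : ρ b⁻¹ *ᵥ (ρ b *ᵥ x) = x := by
      rw [mulVec_mulVec, ← map_mul, inv_mul_cancel, map_one, one_mulVec]
    rw [hx] at h2
    exact h2.symm
  have hper : ∀ i : ℕ, ρ (a ^ (i % 31)) *ᵥ x = ρ (a ^ i) *ᵥ x := by
    intro i
    rw [← ha, pow_mod_orderOf]
  unfold nm
  rw [Matrix.sum_mulVec, Matrix.mulVec_sum, Finset.sum_congr rfl fun i _ => h1 i]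
  rw [Finset.sum_congr rfl fun i _ => (hper (5 * i)).symm]
  refine Finset.sum_nbij' (fun i => 5 * i % 31) (fun i => 25 * i % 31) ?_ ?_ ?_ ?_ ?_
  · intro i _; exact Finset.mem_range.mpr (Nat.mod_lt _ (by norm_num))
  · intro i _; exact Finset.mem_range.mpr (Nat.mod_lt _ (by norm_num))
  · intro i hi; have := Finset.mem_range.mp hi; omega
  · intro i hi; have := Finset.mem_range.mp hi; omega
  · intro i _; rfl

theorem frob_three (hs : Bᵀ = B) (hiso : ∀ g, (ρ g)ᵀ * B * ρ g = B) {a b : G}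
    (ha : orderOf a = 31) (hab : b * a * b⁻¹ = a ^ 5)
    (h0 : ∀ y : Fin n → ℤ, ρ a *ᵥ y = y → ρ b *ᵥ y = y → y = 0)
    {x : Fin n → ℤ} (hx : ρ b *ᵥ x = x) : (3 : ℤ) ∣ ip B x x := by
  have hy := h0 _ (nm_fixed ha x) (nm_fixed_by3 ha hab hx)
  set f : ℕ → ℤ := fun i => ip B x (ρ (a ^ i) *ᵥ x) with hf
  have hsum : ∑ i ∈ Finset.range 31, f i = 0 := by
    have h1 : ip B x (nm ρ a 31 *ᵥ x) = 0 := by rw [hy, ip_zero_right]
    unfold nm at h1
    rw [Matrix.sum_mulVec, ip_sum_right] at h1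
    exact h1
  have hper : ∀ i : ℕ, f (i % 31) = f i := by
    intro i
    simp only [hf]
    rw [← ha, pow_mod_orderOf]
  have hdbl : ∀ i : ℕ, f (5 * i) = f i := by
    intro i
    simp only [hf]
    have hx' : ρ b⁻¹ *ᵥ x = x := by
      have h2 : ρ b⁻¹ *ᵥ (ρ b *ᵥ x) = x := by
        rw [mulVec_mulVec, ← map_mul, inv_mul_cancel, map_one, one_mulVec]
      rw [hx] at h2
      exact h2
    rw [← conj_pow_five hab i, map_mul, map_mul, ← mulVec_mulVec, ← mulVec_mulVec, hx']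
    conv_lhs => rw [← hx]
    rw [ip_inv hiso, hx]
  have e : ∀ i : ℕ, f (5 * i % 31) = f i := fun i => (hper _).trans (hdbl i)
  have e1 : f 5 = f 1 := e 1
  have e2 : f 10 = f 2 := e 2
  have e3 : f 15 = f 3 := e 3
  have e4 : f 20 = f 4 := e 4
  have e5 : f 25 = f 5 := e 5
  have e6 : f 30 = f 6 := e 6
  have e7 : f 4 = f 7 := e 7
  have e8 : f 9 = f 8 := e 8
  have e9 : f 14 = f 9 := e 9
  have e10 : f 19 = f 10 := e 10
  have e11 : f 24 = f 11 := e 11
  have e12 : f 29 = f 12 := e 12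
  have e13 : f 3 = f 13 := e 13
  have e14 : f 8 = f 14 := e 14
  have e15 : f 13 = f 15 := e 15
  have e16 : f 18 = f 16 := e 16
  have e17 : f 23 = f 17 := e 17
  have e18 : f 28 = f 18 := e 18
  have e19 : f 2 = f 19 := e 19
  have e20 : f 7 = f 20 := e 20
  have e21 : f 12 = f 21 := e 21
  have e22 : f 17 = f 22 := e 22
  have e23 : f 22 = f 23 := e 23
  have e24 : f 27 = f 24 := e 24
  have e25 : f 1 = f 25 := e 25
  have e26 : f 6 = f 26 := e 26
  have e27 : f 11 = f 27 := e 27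
  have e28 : f 16 = f 28 := e 28
  have e29 : f 21 = f 29 := e 29
  have e30 : f 26 = f 30 := e 30
  have hf0 : f 0 = ip B x x := by simp [hf]
  simp only [Finset.sum_range_succ, Finset.sum_range_zero] at hsum
  refine ⟨-(f 1 + f 2 + f 3 + f 4 + f 6 + f 8 + f 11 + f 12 + f 16 + f 17), ?_⟩
  rw [← hf0]
  linarith

end Pool.Agent.H90.TS
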