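import Mathlib
import Pool.Agent.H90.TS.Frf
import Pool.Agent.H90.TS.Frb

set_option autoImplicit false

/-!
The Frobenius group `31 : 3` has no fixed vector, by traces (helper90, MP_660bdc_al).
-/

namespace Pool.Agent.H90.TS

open Matrix

variable {n : ℕ} {G : Type} [Group G] {ρ : G →* Matrix (Fin n) (Fin n) ℤ}

theorem comm_nm3 {a b : G} (ha : orderOf a = 31) (hab : b * a * b⁻¹ = a ^ 5) :
    ρ b * nm ρ a 31 = nm ρ a 31 * ρ b := by
  have h1 : ∀ i : ℕ, ρ b * ρ (a ^ i) = ρ (a ^ (5 * i)) * ρ b := by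
    intro i
    rw [← map_mul, ← map_mul, ← conj_pow_five hab i]
    congr 1
    group
  have hper : ∀ i : ℕ, ρ (a ^ (i % 31)) = ρ (a ^ i) := by
    intro i
    rw [← ha, pow_mod_orderOf]
  unfold nm
  rw [Finset.mul_sum, Finset.sum_mul, Finset.sum_congr rfl fun i _ => h1 i]
  rw [Finset.sum_congr rfl fun i _ => by rw [← hper (5 * i)]]
  refine Finset.sum_nbij' (fun i => 5 * i % 31) (fun i => 25 * i % 31) ?_ ?_ ?_ ?_ ?_
  · intro i _; exact Finset.mem_range.mpr (Nat.mod_lt _ (by norm_num))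
  · intro i _; exact Finset.mem_range.mpr (Nat.mod_lt _ (by norm_num))
  · intro i hi; have := Finset.mem_range.mp hi; omega
  · intro i hi; have := Finset.mem_range.mp hi; omega
  · intro i _; rfl

theorem comm_nm3' {a b : G} (ha : orderOf a = 31) (hab : b * a * b⁻¹ = a ^ 5) :
    nm ρ b 3 * nm ρ a 31 = nm ρ a 31 * nm ρ b 3 := by
  have h1 : ∀ k : ℕ, ρ (b ^ k) * nm ρ a 31 = nm ρ a 31 * ρ (b ^ k) := by
    intro k
    induction k with
    | zero => simp
    | succ k ih =>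
      rw [pow_succ, map_mul, Matrix.mul_assoc, comm_nm3 ha hab, ← Matrix.mul_assoc, ih,
        Matrix.mul_assoc]
  show (∑ k ∈ Finset.range 3, ρ (b ^ k)) * nm ρ a 31 = nm ρ a 31 * ∑ k ∈ Finset.range 3, ρ (b ^ k)
  rw [Finset.sum_mul, Finset.mul_sum]
  exact Finset.sum_congr rfl fun k _ => h1 k

theorem conj_bj3 {a b : G} (hab : b * a * b⁻¹ = a ^ 5) (j : ℕ) (m : ℤ) :
    b ^ j * a ^ m * (b ^ j)⁻¹ = a ^ ((5 : ℤ) ^ j * m) := by
  induction j generalizing m with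
  | zero => simp
  | succ j ih =>
    have h1 : b * a ^ m * b⁻¹ = a ^ (5 * m) := by
      have : b * a ^ m * b⁻¹ = (b * a * b⁻¹) ^ m := by rw [conj_zpow]
      rw [this, hab, ← zpow_natCast, ← _root_.zpow_mul]; rfl
    have h2 : b ^ (j + 1) * a ^ m * (b ^ (j + 1))⁻¹ = b ^ j * (b * a ^ m * b⁻¹) * (b ^ j)⁻¹ := by
      rw [pow_succ]; group
    rw [h2, h1, ih]
    congr 1
    rw [pow_succ]; ring

theorem trace_aibj3 {a b : G} (ha : orderOf a = 31) (hab : b * a * b⁻¹ = a ^ 5) (i j : ℕ)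
    (hj1 : 1 ≤ j) (hj : j < 3) : (ρ (a ^ i * b ^ j)).trace = (ρ (b ^ j)).trace := by
  have hex : ∃ k : ℤ, (31 : ℤ) ∣ (k - (5 : ℤ) ^ j * k) - i := by
    interval_cases j
    · exact ⟨23 * i, ⟨-(3 * i), by ring⟩⟩
    · exact ⟨9 * i, ⟨-(7 * i), by ring⟩⟩
  obtain ⟨k, c, hc⟩ := hex
  have h1 : a ^ k * b ^ j * (a ^ k)⁻¹ = a ^ i * b ^ j := by
    have h2 : b ^ j * (a ^ k)⁻¹ = a ^ ((5 : ℤ) ^ j * (-k)) * b ^ j := by
      rw [← conj_bj3 hab j (-k), _root_.zpow_neg]; group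
    rw [mul_assoc, h2, ← mul_assoc, ← _root_.zpow_add]
    congr 1
    have h3 : k + (5 : ℤ) ^ j * (-k) = i + 31 * c := by linarith
    rw [h3, _root_.zpow_add, _root_.zpow_mul]
    have h4 : a ^ (31 : ℤ) = 1 := by
      have := pow_orderOf_eq_one a
      rw [ha] at this
      exact_mod_cast this
    rw [h4, _root_.one_zpow, mul_one, zpow_natCast]
  rw [← h1, map_mul, map_mul, Matrix.trace_mul_comm, ← Matrix.mul_assoc, ← map_mul,
    inv_mul_cancel, map_one, Matrix.one_mul]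

theorem no_fixed3 {a b : G} (ha : orderOf a = 31) (hb : orderOf b = 3)
    (hab : b * a * b⁻¹ = a ^ 5) (htr : ∀ j : ℕ, 1 ≤ j → j < 3 → (ρ (b ^ j)).trace = -4)
    (hS : (nm ρ a 31).trace ≤ 248) (y : Fin n → ℤ) (hya : ρ a *ᵥ y = y) (hyb : ρ b *ᵥ y = y) :
    y = 0 := by
  by_contra hy
  have h1 := trace_ge (nm ρ a 31 * nm ρ b 3) (c := 93) (by norm_num) (by
    rw [Matrix.mul_assoc, ← Matrix.mul_assoc (nm ρ b 3), comm_nm3' ha hab, Matrix.mul_assoc,
      nm_mul_nm hb, ← Matrix.mul_assoc, nm_mul_nm ha]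
    rw [Matrix.mul_smul, Matrix.smul_mul, smul_smul]
    norm_num) hy (by
    rw [← mulVec_mulVec, nm_of_fixed hyb, mulVec_smul, nm_of_fixed hya, smul_smul]
    norm_num)
  have h2 : (nm ρ a 31 * nm ρ b 3).trace = (nm ρ a 31).trace - 248 := by
    unfold nm
    rw [Finset.mul_sum, Finset.sum_range_succ', Matrix.trace_add, Matrix.trace_sum]
    have h3 : ∀ j ∈ Finset.range 2, ((∑ i ∈ Finset.range 31, ρ (a ^ i)) * ρ (b ^ (j + 1))).trace =
        -124 := by
      intro j hj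
      have hj' := Finset.mem_range.mp hj
      rw [Finset.sum_mul, Matrix.trace_sum]
      have h4 : ∀ i ∈ Finset.range 31, (ρ (a ^ i) * ρ (b ^ (j + 1))).trace = -4 := by
        intro i _
        rw [← map_mul, trace_aibj3 ha hab i (j + 1) (by omega) (by omega), htr (j + 1) (by omega) (by omega)]
      rw [Finset.sum_congr rfl h4]
      simp
    rw [Finset.sum_congr rfl h3, pow_zero, map_one, Matrix.mul_one]
    simp
    ring
  rw [h2] at h1
  linarith

end Pool.Agent.H90.TS
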