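import Mathlib
import Pool.Agent.H90.TS.As5
import Pool.Agent.H90.TS.Frd
import Pool.Agent.H90.TS.Fre
import Pool.Agent.H90.TS.Frg

set_option autoImplicit false

/-!
The parts for the elements of order 5 and of class 3C (helper90, MP_660bdc_al).
-/

namespace Pool.Agent.H90.TS

open Matrix Complex

/-- trace of the inverse. -/
theorem trace_inv {n : ℕ} {B : Matrix (Fin n) (Fin n) ℤ} {G : Type} [Group G]
    {ρ : G →* Matrix (Fin n) (Fin n) ℤ} (hdet : B.det = 1) (hiso : ∀ g, (ρ g)ᵀ * B * ρ g = B)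
    (g : G) : (ρ g⁻¹).trace = (ρ g).trace := by
  have h1 : (ρ g)ᵀ * B = B * ρ g⁻¹ := by
    have h2 : (ρ g)ᵀ * B * ρ g * ρ g⁻¹ = B * ρ g⁻¹ := by rw [hiso g]
    rw [Matrix.mul_assoc ((ρ g)ᵀ * B), ← map_mul, mul_inv_cancel, map_one, Matrix.mul_one] at h2
    exact h2
  have h3 : B.adjugate * B = 1 := by rw [adjugate_mul, hdet, one_smul]
  have h4 : B * B.adjugate = 1 := by rw [mul_adjugate, hdet, one_smul]
  have h5 : ρ g⁻¹ = B.adjugate * ((ρ g)ᵀ * B) := by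
    rw [h1, ← Matrix.mul_assoc, h3, Matrix.one_mul]
  rw [h5, Matrix.trace_mul_comm, Matrix.mul_assoc, h4, Matrix.mul_one, Matrix.trace_transpose]

section
variable {G : Type} [Group G] [Fintype G] {B : Matrix (Fin 248) (Fin 248) ℤ}
  {ρ : G →* Matrix (Fin 248) (Fin 248) ℤ}

theorem tr31_le (hcard : Fintype.card G = 2 ^ 15 * 3 ^ 10 * 5 ^ 3 * 7 ^ 2 * 13 * 19 * 31)
    (hs : Bᵀ = B) (hpos : ∀ x : Fin 248 → ℤ, x ≠ 0 → 0 < ip B x x)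
    (hiso : ∀ g, (ρ g)ᵀ * B * ρ g = B)
    (habs : ∀ A : Matrix (Fin 248) (Fin 248) ℚ,
      (∀ g, A * (ρ g).map (Int.cast : ℤ → ℚ) = (ρ g).map (Int.cast : ℤ → ℚ) * A) →
      ∃ c : ℚ, A = c • (1 : Matrix (Fin 248) (Fin 248) ℚ))
    {a : G} (ha : orderOf a = 31) : (nm ρ a 31).trace ≤ 248 := by
  have := nm_trace_le (B := B) hs hpos hiso habs (by norm_num) (show Nat.Prime 31 by norm_num)
    (k := 2 ^ 12 * 3 ^ 10 * 5 ^ 3 * 7 ^ 2 * 13 * 19) (by norm_num) (by rw [hcard]; norm_num) ha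
  exact_mod_cast this

theorem main5 (hcard : Fintype.card G = 2 ^ 15 * 3 ^ 10 * 5 ^ 3 * 7 ^ 2 * 13 * 19 * 31)
    (hs : Bᵀ = B) (hpos : ∀ x : Fin 248 → ℤ, x ≠ 0 → 0 < ip B x x)
    (hiso : ∀ g, (ρ g)ᵀ * B * ρ g = B)
    (habs : ∀ A : Matrix (Fin 248) (Fin 248) ℚ,
      (∀ g, A * (ρ g).map (Int.cast : ℤ → ℚ) = (ρ g).map (Int.cast : ℤ → ℚ) * A) →
      ∃ c : ℚ, A = c • (1 : Matrix (Fin 248) (Fin 248) ℚ))
    (h5 : ∀ b : G, orderOf b = 5 → (ρ b).trace = -2 ∧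
      ∃ a : G, orderOf a = 31 ∧ b * a * b⁻¹ = a ^ 2)
    {m : ℤ} (hm : ¬ 5 ∣ m) {x : Fin 248 → ℤ} (hx : ip B x x = 2 * m) {g : G}
    (hg : ρ g *ᵥ x = x) : ¬ 5 ∣ orderOf g := by
  intro hdvd
  have hp : Nat.Prime 5 := by norm_num
  obtain ⟨k, hk⟩ := exists_pow_of_dvd hp hdvd
  obtain ⟨_, a, ha, hab⟩ := h5 _ hk
  have h0 := no_fixed ha hk hab (fun c hc => (h5 c hc).1) (tr31_le hcard hs hpos hiso habs ha)
  have h1 := frob_five hs hiso ha hab h0 (fixed_pow hg k)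
  rw [hx] at h1
  have hpz : Prime (5 : ℤ) := by exact_mod_cast Nat.prime_iff_prime_int.mp hp
  rcases hpz.dvd_or_dvd h1 with h2 | h2
  · revert h2; norm_num
  · exact hm h2

theorem main3 (hcard : Fintype.card G = 2 ^ 15 * 3 ^ 10 * 5 ^ 3 * 7 ^ 2 * 13 * 19 * 31)
    (hs : Bᵀ = B) (hpos : ∀ x : Fin 248 → ℤ, x ≠ 0 → 0 < ip B x x)
    (hdet : B.det = 1) (hiso : ∀ g, (ρ g)ᵀ * B * ρ g = B)
    (habs : ∀ A : Matrix (Fin 248) (Fin 248) ℚ,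
      (∀ g, A * (ρ g).map (Int.cast : ℤ → ℚ) = (ρ g).map (Int.cast : ℤ → ℚ) * A) →
      ∃ c : ℚ, A = c • (1 : Matrix (Fin 248) (Fin 248) ℚ))
    {g : G} (hg3 : orderOf g = 3) (htr : (ρ g).trace = -4)
    (ha : ∃ a : G, orderOf a = 31 ∧ g * a * g⁻¹ = a ^ 5)
    {m : ℤ} (hm : ¬ 3 ∣ m) {x : Fin 248 → ℤ} (hx : ip B x x = 2 * m)
    (hg : ρ g *ᵥ x = x) : False := by
  obtain ⟨a, ha, hab⟩ := ha
  have hg2 : g ^ 2 = g⁻¹ := by
    have h3 : g ^ 3 = 1 := by rw [← hg3, pow_orderOf_eq_one]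
    rw [eq_inv_iff_mul_eq_one, ← pow_succ]
    exact h3
  have h0 := no_fixed3 (ρ := ρ) ha hg3 hab (by
    intro j hj1 hj3
    interval_cases j
    · rw [pow_one, htr]
    · rw [hg2, trace_inv hdet hiso, htr]) (tr31_le hcard hs hpos hiso habs ha)
  have h1 := frob_three hs hiso ha hab h0 hg
  rw [hx] at h1
  have hpz : Prime (3 : ℤ) := by
    exact_mod_cast Nat.prime_iff_prime_int.mp (show Nat.Prime 3 by norm_num)
  rcases hpz.dvd_or_dvd h1 with h2 | h2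
  · revert h2; norm_num
  · exact hm h2

end

end Pool.Agent.H90.TS
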